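import Mathlib
import Pool.Agent.N575.LDT.LTree2

/-!
# Gaussian noise: shears, and the directions orthogonal to a vector
-/

set_option autoImplicit false

namespace Pool.Agent.N575.ZT

open MeasureTheory ProbabilityTheory Module
open scoped RealInnerProductSpace ENNReal
open Pool.Agent.N575.LDT

variable {E : Type} [NormedAddCommGroup E] [InnerProductSpace ℝ E] [FiniteDimensional ℝ E]
  [MeasurableSpace E] [BorelSpace E]

/-- the coordinate of `p + g` in the direction of `s` -/
noncomputable def cf (p s g : E) : ℝ := ⟪s, p + g⟫ / ‖s‖ ^ 2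

/-- the noises with a small component in the direction of `s` -/
def Xs (s : E) (a : ℝ) : Set E := {g | |⟪s, g⟫| < a}

theorem Xs_meas (s : E) (a : ℝ) : MeasurableSet (Xs s a) :=
  measurableSet_lt (by fun_prop) measurable_const

theorem cf_meas (p s : E) : Measurable (cf p s) := by
  unfold cf
  fun_prop

omit [FiniteDimensional ℝ E] [MeasurableSpace E] [BorelSpace E] in
theorem cf_shear {p s v : E} (hv : ⟪s, v⟫ = 0) (c : ℝ) (g : E) : cf p s (g + c • v) = cf p s g := by
  unfold cf
  rw [inner_add_right, inner_add_right, inner_smul_right, hv, mul_zero, add_zero, inner_add_right]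

omit [FiniteDimensional ℝ E] [MeasurableSpace E] [BorelSpace E] in
theorem Xs_shear {s v : E} (hv : ⟪s, v⟫ = 0) (a c : ℝ) (g : E) : g + c • v ∈ Xs s a ↔ g ∈ Xs s a := by
  unfold Xs
  rw [Set.mem_ofPred_eq, Set.mem_ofPred_eq, inner_add_right, inner_smul_right, hv, mul_zero,
    add_zero]

/-- a shear preserves the volume -/
theorem volume_shear (p s v : E) (hv : ⟪s, v⟫ = 0) {F : E → ℝ≥0∞} (hF : Measurable F) :
    ∫⁻ g, F (g - cf p s g • v) = ∫⁻ g, F g := by
  obtain ⟨f, hf⟩ : ∃ f : Dual ℝ E, f = (-(1 / ‖s‖ ^ 2)) • (innerₛₗ ℝ s) := ⟨_, rfl⟩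
  have hfv : f v = 0 := by
    rw [hf]
    simp [hv]
  have hdet : LinearMap.det (LinearMap.transvection f v) = 1 := by
    rw [LinearMap.transvection.det, hfv, add_zero]
  have hmap : Measure.map (LinearMap.transvection f v) (volume : Measure E) = volume := by
    rw [Measure.map_linearMap_addHaar_eq_smul_addHaar volume (by rw [hdet]; exact one_ne_zero),
      hdet]
    simp
  have hm : Measurable (LinearMap.transvection f v) :=
    (LinearMap.continuous_of_finiteDimensional _).measurable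
  have e : ∀ g, g - cf p s g • v =
      LinearMap.transvection f v g + (-(⟪s, p⟫ / ‖s‖ ^ 2)) • v := by
    intro g
    rw [LinearMap.transvection.apply, hf]
    unfold cf
    simp only [LinearMap.smul_apply, innerₛₗ_apply_apply, smul_eq_mul, inner_add_right]
    module
  simp_rw [e]
  have h1 : ∫⁻ g, F (LinearMap.transvection f v g + (-(⟪s, p⟫ / ‖s‖ ^ 2)) • v) =
      ∫⁻ g, F (g + (-(⟪s, p⟫ / ‖s‖ ^ 2)) • v) ∂(Measure.map (LinearMap.transvection f v)
        (volume : Measure E)) :=
    (lintegral_map (f := fun g => F (g + (-(⟪s, p⟫ / ‖s‖ ^ 2)) • v))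
      (hF.comp (measurable_add_const _)) hm).symm
  rw [h1, hmap]
  exact lintegral_add_right_eq_self _ _

/-- the effect of a shear on the Gaussian measure -/
theorem shear (p s v : E) (hv : ⟪s, v⟫ = 0) (a : ℝ) {F : E → ℝ≥0∞} (hF : Measurable F) :
    ∫⁻ g in Xs s a, F (g - cf p s g • v) ∂(stdGaussian E) =
      ∫⁻ g in Xs s a, F g * ENNReal.ofReal (wgt (cf p s g • v) g) ∂(stdGaussian E) := by
  have hT : Measurable fun g : E => g - cf p s g • v :=
    measurable_id.sub ((cf_meas p s).smul_const v)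
  have hw : Measurable fun g : E => ENNReal.ofReal (wgt (cf p s g • v) g) := by
    have h1 : Measurable fun g : E => cf p s g • v := (cf_meas p s).smul_const v
    unfold wgt
    exact ((Measurable.exp ((measurable_id.inner h1).neg.sub
      ((h1.norm.pow_const 2).div_const 2)))).ennreal_ofReal
  have hFT : Measurable fun g : E => F (g - cf p s g • v) := hF.comp hT
  have hFw : Measurable fun g : E => F g * ENNReal.ofReal (wgt (cf p s g • v) g) := hF.mul hw
  rw [← lintegral_indicator (Xs_meas s a), ← lintegral_indicator (Xs_meas s a), std_eq,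
    lintegral_withDensity_eq_lintegral_mul _ gd_measurable.ennreal_ofReal
      (hFT.indicator (Xs_meas s a)),
    lintegral_withDensity_eq_lintegral_mul _ gd_measurable.ennreal_ofReal
      (hFw.indicator (Xs_meas s a))]
  obtain ⟨G, hG⟩ : ∃ G : E → ℝ≥0∞, G = fun h => ENNReal.ofReal (gd (h + cf p s h • v)) *
      (Xs s a).indicator F h := ⟨_, rfl⟩
  have hGm : Measurable G := by
    rw [hG]
    have h1 : Measurable fun h : E => h + cf p s h • v :=
      measurable_id.add ((cf_meas p s).smul_const v)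
    exact (gd_measurable.comp h1).ennreal_ofReal.mul (hF.indicator (Xs_meas s a))
  have h1 := volume_shear p s v hv hGm
  have e1 : ∀ g : E, G (g - cf p s g • v) = ENNReal.ofReal (gd g) *
      (Xs s a).indicator (fun g => F (g - cf p s g • v)) g := by
    intro g
    have h2 : g - cf p s g • v = g + (-cf p s g) • v := by module
    have h3 : cf p s (g - cf p s g • v) = cf p s g := by rw [h2, cf_shear hv]
    rw [hG]
    beta_reduce
    rw [h3, sub_add_cancel]
    by_cases h4 : g ∈ Xs s a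
    · have h5 : g - cf p s g • v ∈ Xs s a := by rw [h2, Xs_shear hv]; exact h4
      rw [Set.indicator_of_mem h4, Set.indicator_of_mem h5]
    · have h5 : g - cf p s g • v ∉ Xs s a := by rw [h2, Xs_shear hv]; exact h4
      rw [Set.indicator_of_notMem h4, Set.indicator_of_notMem h5]
  have e2 : ∀ g : E, G g = ENNReal.ofReal (gd g) *
      (Xs s a).indicator (fun g => F g * ENNReal.ofReal (wgt (cf p s g • v) g)) g := by
    intro g
    rw [hG]
    beta_reduce
    rw [gd_add, ENNReal.ofReal_mul (gd_nonneg g)]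
    by_cases h4 : g ∈ Xs s a
    · rw [Set.indicator_of_mem h4, Set.indicator_of_mem h4]
      unfold wgt
      ring
    · rw [Set.indicator_of_notMem h4, Set.indicator_of_notMem h4, mul_zero, mul_zero]
  rw [lintegral_congr e1, lintegral_congr e2] at h1
  simp only [Pi.mul_apply]
  exact h1

/-! ### directions orthogonal to a vector -/

/-- the direction orthogonal to `s` with the same values as `s` for the forms in the list -/
noncomputable def dz (s : E) (ls : List E) : E :=
  s - (‖s‖ ^ 2 / ‖s - dir s ls‖ ^ 2) • (s - dir s ls)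

/-- `s` has a small projection to the span of the list -/
def Adm (s : E) (ls : List E) : Prop := ‖dir s ls‖ ^ 2 ≤ ‖s‖ ^ 2 / 3

omit [MeasurableSpace E] [BorelSpace E] in
theorem inner_dir_self (s : E) (ls : List E) : ⟪s, dir s ls⟫ = ‖dir s ls‖ ^ 2 := by
  have h : (spn ls).starProjection (dir s ls) = dir s ls :=
    (Submodule.starProjection_eq_self_iff).2 (Submodule.starProjection_apply_mem _ _)
  rw [← real_inner_self_eq_norm_sq]
  conv_lhs => rw [← h]
  rw [← Submodule.inner_starProjection_left_eq_right]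
  rfl

omit [MeasurableSpace E] [BorelSpace E] in
theorem norm_sub_dir (s : E) (ls : List E) : ‖s - dir s ls‖ ^ 2 = ‖s‖ ^ 2 - ‖dir s ls‖ ^ 2 := by
  rw [norm_sub_sq_real, inner_dir_self]
  ring

omit [MeasurableSpace E] [BorelSpace E] in
theorem Adm.pos {s : E} {ls : List E} (hs : s ≠ 0) (h : Adm s ls) : 0 < ‖s - dir s ls‖ ^ 2 := by
  have h1 : 0 < ‖s‖ ^ 2 := by positivity
  unfold Adm at h
  rw [norm_sub_dir]
  linarith

omit [MeasurableSpace E] [BorelSpace E] in
theorem dz_s {s : E} {ls : List E} (hs : s ≠ 0) (h : Adm s ls) : ⟪s, dz s ls⟫ = 0 := by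
  have h1 := h.pos hs
  unfold dz
  rw [inner_sub_right, inner_smul_right, inner_sub_right, inner_dir_self,
    real_inner_self_eq_norm_sq, ← norm_sub_dir]
  obtain ⟨N, hN⟩ : ∃ N, N = ‖s - dir s ls‖ ^ 2 := ⟨_, rfl⟩
  rw [← hN] at h1 ⊢
  field_simp
  ring

omit [MeasurableSpace E] [BorelSpace E] in
theorem inner_dz (s : E) (ls : List E) {L : E} (hL : L ∈ ls) : ⟪L, dz s ls⟫ = ⟪L, s⟫ := by
  unfold dz
  rw [inner_sub_right, inner_smul_right, inner_sub_right, inner_dir s ls hL, sub_self, mul_zero,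
    sub_zero]

omit [MeasurableSpace E] [BorelSpace E] in
theorem norm_dz {s : E} {ls : List E} (hs : s ≠ 0) (h : Adm s ls) :
    ‖dz s ls‖ ^ 2 ≤ 3 / 2 * ‖dir s ls‖ ^ 2 := by
  have h1 := h.pos hs
  have hs0 : 0 < ‖s‖ ^ 2 := by positivity
  have e : ‖dz s ls‖ ^ 2 = ‖s‖ ^ 2 * ‖dir s ls‖ ^ 2 / ‖s - dir s ls‖ ^ 2 := by
    have h2 : ⟪s, s - dir s ls⟫ = ‖s - dir s ls‖ ^ 2 := by
      rw [inner_sub_right, inner_dir_self, real_inner_self_eq_norm_sq, norm_sub_dir]
    unfold dz
    rw [norm_sub_sq_real, inner_smul_right, h2, norm_smul, mul_pow, Real.norm_eq_abs, sq_abs]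
    have h3 : ‖dir s ls‖ ^ 2 = ‖s‖ ^ 2 - ‖s - dir s ls‖ ^ 2 := by rw [norm_sub_dir]; ring
    rw [h3]
    obtain ⟨N, hN⟩ : ∃ N, N = ‖s - dir s ls‖ ^ 2 := ⟨_, rfl⟩
    rw [← hN] at h1 ⊢
    field_simp
    ring
  rw [e, div_le_iff₀ h1, norm_sub_dir]
  unfold Adm at h
  have h0 : 0 ≤ ‖dir s ls‖ ^ 2 := sq_nonneg _
  nlinarith

omit [MeasurableSpace E] [BorelSpace E] in
theorem adm_nil (s : E) : Adm s [] := by
  unfold Adm
  rw [dir_nil]
  simp
  positivity

omit [MeasurableSpace E] [BorelSpace E] in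
theorem dz_nil {s : E} (hs : s ≠ 0) : dz s [] = 0 := by
  have h1 : 0 < ‖s‖ ^ 2 := by positivity
  unfold dz
  rw [dir_nil, sub_zero, div_self h1.ne', one_smul, sub_self]

omit [MeasurableSpace E] [BorelSpace E] in
theorem norm_dir_mono (s : E) {ls ls' : List E} (h : ∀ x ∈ ls, x ∈ ls') :
    ‖dir s ls‖ ≤ ‖dir s ls'‖ := by
  have h1 : spn ls ≤ spn ls' := Submodule.span_mono fun x hx => h x hx
  have h2 : dir s ls = (spn ls).starProjection (dir s ls') := by
    unfold dir
    rw [← ContinuousLinearMap.comp_apply, Submodule.starProjection_comp_starProjection_of_le h1]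
  rw [h2]
  exact Submodule.norm_starProjection_apply_le _ _

omit [MeasurableSpace E] [BorelSpace E] in
theorem Adm.mono {s : E} {ls ls' : List E} (h : ∀ x ∈ ls, x ∈ ls') (ha : Adm s ls') : Adm s ls := by
  unfold Adm at ha ⊢
  exact (pow_le_pow_left₀ (norm_nonneg _) (norm_dir_mono s h) 2).trans ha

omit [MeasurableSpace E] [BorelSpace E] in
/-- a form in an admissible list is not a multiple of `s` -/
theorem Adm.not_par {s : E} {ls : List E} (hs : s ≠ 0) (h : Adm s ls) {L : E} (hL : L ∈ ls)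
    (hL0 : L ≠ 0) : L - (⟪s, L⟫ / ‖s‖ ^ 2) • s ≠ 0 := by
  intro h1
  have h2 : L = (⟪s, L⟫ / ‖s‖ ^ 2) • s := sub_eq_zero.1 h1
  have hc : ⟪s, L⟫ / ‖s‖ ^ 2 ≠ 0 := by
    intro h3
    rw [h3, zero_smul] at h2
    exact hL0 h2
  have h3 : s ∈ spn ls := by
    have h4 : L ∈ spn ls := Submodule.subset_span hL
    have h5 : s = (⟪s, L⟫ / ‖s‖ ^ 2)⁻¹ • L := by
      conv_rhs => rw [h2]
      rw [inner_smul_right, real_inner_self_eq_norm_sq, smul_smul]
      have h6 : ‖s‖ ^ 2 ≠ 0 := by positivity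
      have h7 : ⟪s, L⟫ ≠ 0 := fun h => hc (by rw [h, zero_div])
      rw [div_mul_cancel₀ _ h6, inv_mul_cancel₀ hc, one_smul]
    rw [h5]
    exact Submodule.smul_mem _ _ h4
  have h4 : dir s ls = s := (Submodule.starProjection_eq_self_iff).2 h3
  unfold Adm at h
  rw [h4] at h
  have h5 : 0 < ‖s‖ ^ 2 := by positivity
  linarith

end Pool.Agent.N575.ZT
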