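import Mathlib
import Pool.Agent.N575.ZT.Shear

/-!
# Trees of linear tests: comparison with the inputs orthogonal to a vector
-/

set_option autoImplicit false

namespace Pool.Agent.N575.ZT

open MeasureTheory ProbabilityTheory Module
open scoped RealInnerProductSpace ENNReal
open Pool.Agent.N575.LDT

variable {E : Type} [NormedAddCommGroup E] [InnerProductSpace ℝ E] [FiniteDimensional ℝ E]
  [MeasurableSpace E] [BorelSpace E]

open Classical in
/-- The tree rejects as soon as the projection of `s` to the span of the tested forms would be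
large. -/
noncomputable def prune (s : E) : LTree E → List E → LTree E
  | .leaf b, _ => .leaf b
  | .node L next, ls =>
    if Adm s (ls ++ [L]) then .node L fun e => prune s (next e) (ls ++ [L]) else .leaf false

omit [MeasurableSpace E] [BorelSpace E] in
theorem prune_leaf (s : E) (b : Bool) (ls : List E) : prune s (.leaf b) ls = .leaf b := rfl

omit [MeasurableSpace E] [BorelSpace E] in
theorem prune_pos {s L : E} {next : SignType → LTree E} {ls : List E} (h : Adm s (ls ++ [L])) :
    prune s (.node L next) ls = .node L fun e => prune s (next e) (ls ++ [L]) := by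
  rw [prune, if_pos h]

omit [MeasurableSpace E] [BorelSpace E] in
theorem prune_neg {s L : E} {next : SignType → LTree E} {ls : List E} (h : ¬ Adm s (ls ++ [L])) :
    prune s (.node L next) ls = .leaf false := by
  rw [prune, if_neg h]

/-- the change of measure for a leaf -/
theorem claimZ_leaf {s : E} (hs : s ≠ 0) (a : ℝ) (b : Bool) (p : E) (h : Bool → ℝ≥0∞)
    (ls : List E) (D : Set E) (hD : Cell ls D) (hA : Adm s ls) :
    ∫⁻ g in Xs s a, D.indicator (fun u => h ((LTree.leaf b).run u)) (p + g - cf p s g • s)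
        ∂(stdGaussian E) =
      ∫⁻ g in Xs s a, D.indicator (fun u => h ((LTree.leaf b).run u)) (p + g) *
        ENNReal.ofReal (wgt (cf p s g • dz s (ls ++ (LTree.leaf b).path (p + g))) g)
        ∂(stdGaussian E) := by
  have hF : Measurable fun g : E => D.indicator (fun _ => h b) (p + g) :=
    (measurable_const.indicator hD.meas).comp (measurable_const_add p)
  have h1 := shear p s (dz s ls) (dz_s hs hA) a hF
  simp only [run_leaf, path_leaf, List.append_nil]
  rw [← h1]
  refine lintegral_congr fun g => ?_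
  have e : p + (g - cf p s g • dz s ls) = p + g - cf p s g • s + cf p s g • (s - dz s ls) := by
    module
  rw [e]
  have h2 := hD.iff (p + g - cf p s g • s) (cf p s g • (s - dz s ls)) (fun L hL => by
    rw [inner_smul_right, inner_sub_right, inner_dz s ls hL, sub_self, mul_zero])
  by_cases h3 : p + g - cf p s g • s ∈ D
  · rw [Set.indicator_of_mem h3, Set.indicator_of_mem (h2.2 h3)]
  · rw [Set.indicator_of_notMem h3, Set.indicator_of_notMem (fun h4 => h3 (h2.1 h4))]

/-- change of measure along the branches of a tree -/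
theorem claimZ {s : E} (hs : s ≠ 0) (a : ℝ) (r : LTree E) (p : E) (h : Bool → ℝ≥0∞)
    (ls : List E) (D : Set E) (hD : Cell ls D) (hA : Adm s ls) :
    ∫⁻ g in Xs s a, D.indicator (fun u => h ((prune s r ls).run u)) (p + g - cf p s g • s)
        ∂(stdGaussian E) =
      ∫⁻ g in Xs s a, D.indicator (fun u => h ((prune s r ls).run u)) (p + g) *
        ENNReal.ofReal (wgt (cf p s g • dz s (ls ++ (prune s r ls).path (p + g))) g)
        ∂(stdGaussian E) := by
  induction r generalizing ls D with
  | leaf b =>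
    rw [prune_leaf]
    exact claimZ_leaf hs a b p h ls D hD hA
  | node L next ih =>
    by_cases hAL : Adm s (ls ++ [L])
    swap
    · rw [prune_neg hAL]
      exact claimZ_leaf hs a false p h ls D hD hA
    rw [prune_pos hAL]
    obtain ⟨nx, hnx⟩ : ∃ nx : SignType → LTree E, nx = fun e => prune s (next e) (ls ++ [L]) :=
      ⟨_, rfl⟩
    rw [← hnx]
    have e1 : ∀ u, D.indicator (fun u => h ((LTree.node L nx).run u)) u =
        ∑ e : SignType, (LDT.sub D L e).indicator (fun u => h ((nx e).run u)) u := by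
      intro u
      have := ind_sub D L u (fun e => h ((nx e).run u))
      by_cases h3 : u ∈ D
      · rw [Set.indicator_of_mem h3] at this ⊢
        rw [run_node, this]
        refine Finset.sum_congr rfl fun e _ => ?_
        by_cases h4 : u ∈ LDT.sub D L e
        · rw [Set.indicator_of_mem h4, Set.indicator_of_mem h4]
        · rw [Set.indicator_of_notMem h4, Set.indicator_of_notMem h4]
      · rw [Set.indicator_of_notMem h3]
        symm
        refine Finset.sum_eq_zero fun e _ => ?_
        rw [Set.indicator_of_notMem (fun h4 => h3 h4.1)]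
    have e2 : ∀ g, D.indicator (fun u => h ((LTree.node L nx).run u)) (p + g) *
        ENNReal.ofReal (wgt (cf p s g • dz s (ls ++ (LTree.node L nx).path (p + g))) g) =
        ∑ e : SignType, (LDT.sub D L e).indicator (fun u => h ((nx e).run u)) (p + g) *
          ENNReal.ofReal (wgt (cf p s g • dz s (ls ++ [L] ++ (nx e).path (p + g))) g) := by
      intro g
      rw [e1, Finset.sum_mul]
      refine Finset.sum_congr rfl fun e _ => ?_
      by_cases h4 : p + g ∈ LDT.sub D L e
      · have h5 : (LTree.node L nx).path (p + g) = L :: (nx e).path (p + g) := by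
          show L :: (nx (SignType.sign ⟪L, p + g⟫)).path (p + g) = _
          rw [h4.2]
        rw [h5, List.append_assoc, List.singleton_append]
      · rw [Set.indicator_of_notMem h4, zero_mul, zero_mul]
    have hm : ∀ e, Measurable ((LDT.sub D L e).indicator fun u => h ((nx e).run u)) := fun e =>
      (measurable_tree (nx e) fun b _ => h b).indicator (hD.sub L e).meas
    have hw : ∀ e, Measurable fun g : E =>
        ENNReal.ofReal (wgt (cf p s g • dz s (ls ++ [L] ++ (nx e).path (p + g))) g) := by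
      intro e
      have h1 : Measurable fun g : E => dz s (ls ++ [L] ++ (nx e).path (p + g)) :=
        (measurable_tree (nx e) fun _ l => dz s (ls ++ [L] ++ l)).comp (measurable_const_add p)
      have h2 : Measurable fun g : E => cf p s g • dz s (ls ++ [L] ++ (nx e).path (p + g)) :=
        (cf_meas p s).smul h1
      unfold wgt
      exact ((Measurable.exp ((measurable_id.inner h2).neg.sub
        ((h2.norm.pow_const 2).div_const 2)))).ennreal_ofReal
    have hsm : Measurable fun g : E => p + g - cf p s g • s :=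
      (measurable_const_add p).sub ((cf_meas p s).smul_const s)
    have hm1 : ∀ e, Measurable fun g : E =>
        (LDT.sub D L e).indicator (fun u => h ((nx e).run u)) (p + g - cf p s g • s) := fun e =>
      (hm e).comp hsm
    have hm2 : ∀ e, Measurable fun g : E =>
        (LDT.sub D L e).indicator (fun u => h ((nx e).run u)) (p + g) *
          ENNReal.ofReal (wgt (cf p s g • dz s (ls ++ [L] ++ (nx e).path (p + g))) g) := fun e =>
      ((hm e).comp (measurable_const_add _)).mul (hw e)
    simp_rw [e2, e1]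
    rw [lintegral_finsetSum _ fun e _ => hm1 e, lintegral_finsetSum _ fun e _ => hm2 e]
    refine Finset.sum_congr rfl fun e _ => ?_
    rw [hnx]
    exact ih e (ls ++ [L]) (LDT.sub D L e) (hD.sub L e) hAL

/-! ### the mean of the linear term -/

/-- the bound of the coordinate on the set of noises -/
theorem cf_le (p s : E) {a : ℝ} {g : E} (hg : g ∈ Xs s a) :
    |cf p s g| ≤ (|⟪s, p⟫| + a) / ‖s‖ ^ 2 := by
  unfold cf
  rw [abs_div, abs_of_nonneg (sq_nonneg ‖s‖), inner_add_right]
  refine div_le_div_of_nonneg_right ?_ (sq_nonneg _)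
  have h1 : |⟪s, g⟫| < a := hg
  exact (abs_add_le _ _).trans (by linarith)

theorem int_z (p s : E) (a : ℝ) {D : Set E} (hD : MeasurableSet D) {v : E → E} (hv : Measurable v)
    {C : ℝ} (hC : ∀ g, ‖v g‖ ≤ C) :
    Integrable (fun g => (Xs s a).indicator (fun _ => (1 : ℝ)) g *
      (D.indicator (fun _ => (1 : ℝ)) (p + g) * (cf p s g * ⟪g, v g⟫))) (stdGaussian E) := by
  refine ((integrable_norm_std.const_mul C).const_mul ((|⟪s, p⟫| + |a|) / ‖s‖ ^ 2)).mono' ?_ ?_
  · refine Measurable.aestronglyMeasurable ?_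
    exact (measurable_const.indicator (Xs_meas s a)).mul
      (((measurable_const.indicator hD).comp (measurable_const_add p)).mul
        ((cf_meas p s).mul (measurable_id.inner hv)))
  · refine Filter.Eventually.of_forall fun g => ?_
    have hC0 : 0 ≤ C := (norm_nonneg _).trans (hC g)
    by_cases hg : g ∈ Xs s a
    · rw [Set.indicator_of_mem hg, one_mul, norm_mul, norm_mul]
      have h1 := ind_le D (p + g)
      have h2 : ‖⟪g, v g⟫‖ ≤ ‖g‖ * C := (norm_inner_le_norm g (v g)).trans
        (mul_le_mul_of_nonneg_left (hC g) (norm_nonneg g))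
      have h3 : ‖cf p s g‖ ≤ (|⟪s, p⟫| + |a|) / ‖s‖ ^ 2 := by
        refine (cf_le p s hg).trans ?_
        exact div_le_div_of_nonneg_right (by linarith [le_abs_self a]) (sq_nonneg _)
      have h4 : ‖cf p s g‖ * ‖⟪g, v g⟫‖ ≤ (|⟪s, p⟫| + |a|) / ‖s‖ ^ 2 * (‖g‖ * C) :=
        mul_le_mul h3 h2 (norm_nonneg _) (by positivity)
      calc ‖D.indicator (fun _ => (1 : ℝ)) (p + g)‖ * (‖cf p s g‖ * ‖⟪g, v g⟫‖) ≤
          1 * ((|⟪s, p⟫| + |a|) / ‖s‖ ^ 2 * (‖g‖ * C)) :=
            mul_le_mul h1 h4 (by positivity) zero_le_one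
        _ = (|⟪s, p⟫| + |a|) / ‖s‖ ^ 2 * (C * ‖g‖) := by ring
    · rw [Set.indicator_of_notMem hg, zero_mul, norm_zero]
      positivity

/-- reflection symmetry -/
theorem refl_z {ls : List E} {D : Set E} (hD : Cell ls D) (p s : E) (a : ℝ) (z : E)
    (hz : ∀ L ∈ ls, ⟪L, z⟫ = 0) (hsz : ⟪s, z⟫ = 0) :
    ∫ g, (Xs s a).indicator (fun _ => (1 : ℝ)) g *
      (D.indicator (fun _ => (1 : ℝ)) (p + g) * (cf p s g * ⟪g, z⟫)) ∂(stdGaussian E) = 0 := by
  by_cases h0 : z = 0
  · subst h0
    simp
  have hz0 : ⟪z, z⟫ ≠ 0 := by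
    rw [real_inner_self_eq_norm_sq]
    exact pow_ne_zero 2 (norm_ne_zero_iff.2 h0)
  have h1 := integral_isometry (fun g => (Xs s a).indicator (fun _ => (1 : ℝ)) g *
      (D.indicator (fun _ => (1 : ℝ)) (p + g) * (cf p s g * ⟪g, z⟫)))
    (Submodule.reflection (Submodule.span ℝ {z})ᗮ)
  have h2 : ∀ g : E, (Submodule.reflection (Submodule.span ℝ {z})ᗮ) g =
      g + (-(2 * (⟪z, g⟫ / ⟪z, z⟫))) • z := by
    intro g
    rw [Submodule.reflection_orthogonal_apply, Submodule.reflection_singleton_apply]
    rw [real_inner_self_eq_norm_sq]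
    simp only [RCLike.ofReal_real_eq_id, id_eq]
    module
  have h3 : ∀ g : E, (Xs s a).indicator (fun _ => (1 : ℝ))
      ((Submodule.reflection (Submodule.span ℝ {z})ᗮ) g) *
      (D.indicator (fun _ => (1 : ℝ)) (p + (Submodule.reflection (Submodule.span ℝ {z})ᗮ) g) *
        (cf p s ((Submodule.reflection (Submodule.span ℝ {z})ᗮ) g) *
        ⟪(Submodule.reflection (Submodule.span ℝ {z})ᗮ) g, z⟫)) =
      -((Xs s a).indicator (fun _ => (1 : ℝ)) g *
        (D.indicator (fun _ => (1 : ℝ)) (p + g) * (cf p s g * ⟪g, z⟫))) := by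
    intro g
    rw [h2, cf_shear hsz]
    have e1 : p + (g + (-(2 * (⟪z, g⟫ / ⟪z, z⟫))) • z) = p + g + (-(2 * (⟪z, g⟫ / ⟪z, z⟫))) • z := by
      module
    have e2 : D.indicator (fun _ => (1 : ℝ)) (p + (g + (-(2 * (⟪z, g⟫ / ⟪z, z⟫))) • z)) =
        D.indicator (fun _ => (1 : ℝ)) (p + g) := by
      rw [e1]
      have h4 := hD.iff (p + g) ((-(2 * (⟪z, g⟫ / ⟪z, z⟫))) • z) (fun L hL => by
        rw [inner_smul_right, hz L hL, mul_zero])
      by_cases h5 : p + g ∈ D
      · rw [Set.indicator_of_mem h5, Set.indicator_of_mem (h4.2 h5)]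
      · rw [Set.indicator_of_notMem h5, Set.indicator_of_notMem (fun h6 => h5 (h4.1 h6))]
    have e4 : (Xs s a).indicator (fun _ => (1 : ℝ)) (g + (-(2 * (⟪z, g⟫ / ⟪z, z⟫))) • z) =
        (Xs s a).indicator (fun _ => (1 : ℝ)) g := by
      by_cases h5 : g ∈ Xs s a
      · rw [Set.indicator_of_mem h5, Set.indicator_of_mem ((Xs_shear hsz _ _ _).2 h5)]
      · rw [Set.indicator_of_notMem h5,
          Set.indicator_of_notMem (fun h6 => h5 ((Xs_shear hsz _ _ _).1 h6))]
    have e3 : ⟪g + (-(2 * (⟪z, g⟫ / ⟪z, z⟫))) • z, z⟫ = -⟪g, z⟫ := by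
      rw [inner_add_left, inner_smul_left, real_inner_comm z g]
      simp only [conj_trivial]
      field_simp
      ring
    rw [e2, e3, e4]
    ring
  simp_rw [h3] at h1
  rw [integral_neg] at h1
  linarith

omit [MeasurableSpace E] [BorelSpace E] in
theorem norm_dz_le {s : E} {ls : List E} (hs : s ≠ 0) (h : Adm s ls) : ‖dz s ls‖ ≤ 2 * ‖s‖ := by
  have h1 := norm_dz hs h
  have h2 := norm_dir_le s ls
  have h3 : ‖dir s ls‖ ^ 2 ≤ ‖s‖ ^ 2 := pow_le_pow_left₀ (norm_nonneg _) h2 2
  have h4 : ‖dz s ls‖ ^ 2 ≤ (2 * ‖s‖) ^ 2 := by nlinarith [sq_nonneg ‖s‖]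
  exact (abs_le_of_sq_le_sq h4 (by positivity)).trans' (le_abs_self _)

omit [MeasurableSpace E] [BorelSpace E] in
theorem adm_path {s : E} (r : LTree E) (ls : List E) (hA : Adm s ls) (u : E) :
    Adm s (ls ++ (prune s r ls).path u) := by
  induction r generalizing ls with
  | leaf b =>
    rw [prune_leaf, path_leaf, List.append_nil]
    exact hA
  | node L next ih =>
    by_cases hAL : Adm s (ls ++ [L])
    · rw [prune_pos hAL, path_node]
      have := ih (SignType.sign ⟪L, u⟫) (ls ++ [L]) hAL
      rwa [List.append_assoc, List.singleton_append] at this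
    · rw [prune_neg hAL, path_leaf, List.append_nil]
      exact hA

theorem claimMZ {s : E} (hs : s ≠ 0) (a : ℝ) (r : LTree E) (p : E) (ls : List E) (D : Set E)
    (hD : Cell ls D) (hA : Adm s ls) :
    ∫ g, (Xs s a).indicator (fun _ => (1 : ℝ)) g * (D.indicator (fun _ => (1 : ℝ)) (p + g) *
        (cf p s g * ⟪g, dz s (ls ++ (prune s r ls).path (p + g))⟫)) ∂(stdGaussian E) =
      ∫ g, (Xs s a).indicator (fun _ => (1 : ℝ)) g * (D.indicator (fun _ => (1 : ℝ)) (p + g) *
        (cf p s g * ⟪g, dz s ls⟫)) ∂(stdGaussian E) := by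
  induction r generalizing ls D with
  | leaf b =>
    simp only [prune_leaf, path_leaf, List.append_nil]
  | node L next ih =>
    by_cases hAL : Adm s (ls ++ [L])
    swap
    · rw [prune_neg hAL]
      simp only [path_leaf, List.append_nil]
    rw [prune_pos hAL]
    obtain ⟨nx, hnx⟩ : ∃ nx : SignType → LTree E, nx = fun e => prune s (next e) (ls ++ [L]) :=
      ⟨_, rfl⟩
    rw [← hnx]
    have e1 : ∀ u, D.indicator (fun _ => (1 : ℝ)) u =
        ∑ e : SignType, (LDT.sub D L e).indicator (fun _ => (1 : ℝ)) u := by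
      intro u
      have := ind_sub D L u (fun _ => (1 : ℝ))
      exact this
    have e2 : ∀ g, (Xs s a).indicator (fun _ => (1 : ℝ)) g *
        (D.indicator (fun _ => (1 : ℝ)) (p + g) *
        (cf p s g * ⟪g, dz s (ls ++ (LTree.node L nx).path (p + g))⟫)) =
        ∑ e : SignType, (Xs s a).indicator (fun _ => (1 : ℝ)) g *
          ((LDT.sub D L e).indicator (fun _ => (1 : ℝ)) (p + g) *
          (cf p s g * ⟪g, dz s (ls ++ [L] ++ (nx e).path (p + g))⟫)) := by
      intro g
      rw [e1, Finset.sum_mul, Finset.mul_sum]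
      refine Finset.sum_congr rfl fun e _ => ?_
      by_cases h4 : p + g ∈ LDT.sub D L e
      · have h5 : (LTree.node L nx).path (p + g) = L :: (nx e).path (p + g) := by
          rw [path_node, h4.2]
        rw [h5, List.append_assoc, List.singleton_append]
      · rw [Set.indicator_of_notMem h4, zero_mul, zero_mul]
    have hb : ∀ e g, ‖dz s (ls ++ [L] ++ (nx e).path (p + g))‖ ≤ 2 * ‖s‖ := by
      intro e g
      rw [hnx]
      exact norm_dz_le hs (adm_path (next e) (ls ++ [L]) hAL (p + g))
    have hb1 : ∀ _g : E, ‖dz s (ls ++ [L])‖ ≤ 2 * ‖s‖ := fun _ => norm_dz_le hs hAL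
    have hb2 : ∀ _g : E, ‖dz s ls‖ ≤ 2 * ‖s‖ := fun _ => norm_dz_le hs hA
    have hw : ∀ e, Measurable fun g : E => dz s (ls ++ [L] ++ (nx e).path (p + g)) := fun e =>
      (measurable_tree (nx e) fun _ l => dz s (ls ++ [L] ++ l)).comp (measurable_const_add p)
    simp_rw [e2]
    rw [integral_finsetSum _ fun e _ => int_z p s a (hD.sub L e).meas (hw e) (hb e)]
    have e4 : ∀ e ∈ (Finset.univ : Finset SignType),
        ∫ g, (Xs s a).indicator (fun _ => (1 : ℝ)) g *
          ((LDT.sub D L e).indicator (fun _ => (1 : ℝ)) (p + g) *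
          (cf p s g * ⟪g, dz s (ls ++ [L] ++ (nx e).path (p + g))⟫)) ∂(stdGaussian E) =
        ∫ g, (Xs s a).indicator (fun _ => (1 : ℝ)) g *
          ((LDT.sub D L e).indicator (fun _ => (1 : ℝ)) (p + g) *
          (cf p s g * ⟪g, dz s (ls ++ [L])⟫)) ∂(stdGaussian E) := by
      intro e _
      rw [hnx]
      exact ih e (ls ++ [L]) (LDT.sub D L e) (hD.sub L e) hAL
    rw [Finset.sum_congr rfl e4, ← integral_finsetSum _ fun e _ =>
      int_z p s a (hD.sub L e).meas measurable_const hb1]
    have e3 : ∀ g, ∑ e : SignType, (Xs s a).indicator (fun _ => (1 : ℝ)) g *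
        ((LDT.sub D L e).indicator (fun _ => (1 : ℝ)) (p + g) *
        (cf p s g * ⟪g, dz s (ls ++ [L])⟫)) = (Xs s a).indicator (fun _ => (1 : ℝ)) g *
        (D.indicator (fun _ => (1 : ℝ)) (p + g) * (cf p s g * ⟪g, dz s (ls ++ [L])⟫)) := by
      intro g
      rw [← Finset.mul_sum, ← Finset.sum_mul, ← e1]
    simp_rw [e3]
    have h6 := refl_z hD p s a (dz s (ls ++ [L]) - dz s ls) (fun L' hL' => by
      rw [inner_sub_right, inner_dz s _ (List.mem_append_left _ hL'), inner_dz s _ hL', sub_self])
      (by rw [inner_sub_right, dz_s hs hAL, dz_s hs hA, sub_self])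
    simp only [inner_sub_right, mul_sub] at h6
    rw [integral_sub (int_z p s a hD.meas measurable_const hb1)
      (int_z p s a hD.meas measurable_const hb2)] at h6
    linarith

end Pool.Agent.N575.ZT
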