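import Mathlib
import Pool.Agent.N575.ZT.Prune

/-!
# The main inequality for inputs orthogonal to a vector
-/

set_option autoImplicit false

namespace Pool.Agent.N575.ZT

open MeasureTheory ProbabilityTheory Module
open scoped RealInnerProductSpace ENNReal
open Pool.Agent.N575.LDT

variable {E : Type} [NormedAddCommGroup E] [InnerProductSpace ℝ E] [FiniteDimensional ℝ E]
  [MeasurableSpace E] [BorelSpace E]

/-- the Gaussian measure on the set of noises -/
noncomputable def nu (s : E) (a : ℝ) : Measure E := (stdGaussian E).restrict (Xs s a)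

instance (s : E) (a : ℝ) : IsFiniteMeasure (nu s a) := by unfold nu; infer_instance

theorem nu_le (s : E) (a : ℝ) : (nu s a).real Set.univ ≤ 1 := by
  unfold nu
  rw [measureReal_restrict_apply MeasurableSet.univ]
  exact measureReal_le_one

/-- the weight of a leaf -/
noncomputable def Wz (r : LTree E) (p s g : E) : ℝ := wgt (cf p s g • dz s (r.path (p + g))) g

theorem Wz_pos (r : LTree E) (p s g : E) : 0 < Wz r p s g := Real.exp_pos _

theorem dz_meas (r : LTree E) (p s : E) : Measurable fun g : E => dz s (r.path (p + g)) :=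
  (measurable_tree r fun _ l => dz s l).comp (measurable_const_add p)

theorem Wz_meas (r : LTree E) (p s : E) : Measurable (Wz r p s) := by
  have h1 : Measurable fun g : E => cf p s g • dz s (r.path (p + g)) :=
    (cf_meas p s).smul (dz_meas r p s)
  unfold Wz wgt
  exact (Measurable.exp ((measurable_id.inner h1).neg.sub ((h1.norm.pow_const 2).div_const 2)))

theorem Wz_lint {s : E} (hs : s ≠ 0) (a : ℝ) (r : LTree E) (p : E) (h : Bool → ℝ≥0∞) :
    ∫⁻ g, h ((prune s r []).run (p + g - cf p s g • s)) ∂(nu s a) =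
      ∫⁻ g, h ((prune s r []).run (p + g)) * ENNReal.ofReal (Wz (prune s r []) p s g)
        ∂(nu s a) := by
  have h1 := claimZ hs a r p h [] Set.univ ⟨MeasurableSet.univ, fun _ _ _ _ => Set.mem_univ _⟩
    (adm_nil s)
  simp only [Set.indicator_univ, List.nil_append] at h1
  exact h1

theorem Wz_int {s : E} (hs : s ≠ 0) (a : ℝ) (r : LTree E) (p : E) :
    Integrable (Wz (prune s r []) p s) (nu s a) ∧
      ∫ g, Wz (prune s r []) p s g ∂(nu s a) = (nu s a).real Set.univ := by
  have h1 := Wz_lint hs a r p (fun _ => 1)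
  simp only [lintegral_const, one_mul] at h1
  have hi : Integrable (Wz (prune s r []) p s) (nu s a) := by
    refine ⟨(Wz_meas _ p s).aestronglyMeasurable, ?_⟩
    rw [hasFiniteIntegral_iff_ofReal (Filter.Eventually.of_forall fun g => (Wz_pos _ p s g).le),
      ← h1]
    exact measure_lt_top _ _
  refine ⟨hi, ?_⟩
  rw [integral_eq_lintegral_of_nonneg_ae (Filter.Eventually.of_forall fun g => (Wz_pos _ p s g).le)
    hi.1, ← h1]
  rfl

theorem run_meas (r : LTree E) {T : E → E} (hT : Measurable T) :
    MeasurableSet {g : E | r.run (T g) = true} := by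
  have h1 : Measurable fun g : E => r.run (T g) := (measurable_tree r fun b _ => b).comp hT
  exact h1 (measurableSet_singleton true)

theorem proj_meas (p s : E) : Measurable fun g : E => p + g - cf p s g • s :=
  (measurable_const_add p).sub ((cf_meas p s).smul_const s)

theorem pr_z {s : E} (hs : s ≠ 0) (a : ℝ) (r : LTree E) (p : E) :
    (nu s a).real {g | (prune s r []).run (p + g - cf p s g • s) = true} =
      ∫ g in {g | (prune s r []).run (p + g) = true}, Wz (prune s r []) p s g ∂(nu s a) := by
  have h1 := Wz_lint hs a r p (fun b => if b = true then 1 else 0)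
  have hm := run_meas (prune s r []) (proj_meas p s)
  have hm' := run_meas (prune s r []) (measurable_const_add p)
  have e1 : ∫⁻ g, (if (prune s r []).run (p + g - cf p s g • s) = true then (1 : ℝ≥0∞) else 0)
      ∂(nu s a) = (nu s a) {g | (prune s r []).run (p + g - cf p s g • s) = true} := by
    rw [← lintegral_indicator_one hm]
    refine lintegral_congr fun g => ?_
    by_cases h : (prune s r []).run (p + g - cf p s g • s) = true
    · rw [if_pos h, Set.indicator_of_mem (by exact h)]; rfl
    · rw [if_neg h, Set.indicator_of_notMem (by exact h)]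
  have e2 : ∫⁻ g, (if (prune s r []).run (p + g) = true then (1 : ℝ≥0∞) else 0) *
      ENNReal.ofReal (Wz (prune s r []) p s g) ∂(nu s a) =
      ∫⁻ g in {g | (prune s r []).run (p + g) = true},
        ENNReal.ofReal (Wz (prune s r []) p s g) ∂(nu s a) := by
    rw [← lintegral_indicator hm']
    refine lintegral_congr fun g => ?_
    by_cases h : (prune s r []).run (p + g) = true
    · rw [if_pos h, Set.indicator_of_mem (by exact h), one_mul]
    · rw [if_neg h, Set.indicator_of_notMem (by exact h), zero_mul]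
  rw [e1, e2] at h1
  unfold Measure.real
  rw [h1, integral_eq_lintegral_of_nonneg_ae
    (Filter.Eventually.of_forall fun g => (Wz_pos _ p s g).le)
    (Wz_int hs a r p).1.1.restrict]

/-- the main inequality for the pruned tree -/
theorem main_z {s : E} (hs : s ≠ 0) (a : ℝ) (r : LTree E) (p : E) :
    (nu s a).real {g | (prune s r []).run (p + g) = true} ≤
      (nu s a).real {g | (prune s r []).run (p + g - cf p s g • s) = true} +
        √(∫ g, (cf p s g) ^ 2 * ‖dz s ((prune s r []).path (p + g))‖ ^ 2 ∂(nu s a)) := by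
  obtain ⟨q, hq⟩ : ∃ q, q = prune s r [] := ⟨_, rfl⟩
  obtain ⟨hWi, hW1⟩ := Wz_int hs a r p
  have hpr := pr_z hs a r p
  rw [← hq] at hWi hW1 hpr ⊢
  have hm : MeasurableSet {g : E | q.run (p + g) = true} := run_meas q (measurable_const_add p)
  have hdz := dz_meas q p s
  have hbd : ∀ g, ‖dz s (q.path (p + g))‖ ≤ 2 * ‖s‖ := by
    intro g
    rw [hq]
    have := adm_path (s := s) r [] (adm_nil s) (p + g)
    rw [List.nil_append] at this
    exact norm_dz_le hs this
  have hlin : Integrable (fun g => cf p s g * ⟪g, dz s (q.path (p + g))⟫) (nu s a) := by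
    have h1 := int_z (E := E) p s a MeasurableSet.univ hdz hbd
    simp only [Set.indicator_univ, one_mul] at h1
    have h2 : (fun g => (Xs s a).indicator (fun _ => (1 : ℝ)) g *
        (cf p s g * ⟪g, dz s (q.path (p + g))⟫)) =
        (Xs s a).indicator fun g => cf p s g * ⟪g, dz s (q.path (p + g))⟫ := by
      funext g
      by_cases h : g ∈ Xs s a
      · rw [Set.indicator_of_mem h, Set.indicator_of_mem h, one_mul]
      · rw [Set.indicator_of_notMem h, Set.indicator_of_notMem h, zero_mul]
    rw [h2, integrable_indicator_iff (Xs_meas s a)] at h1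
    exact h1
  have hlin0 : ∫ g, cf p s g * ⟪g, dz s (q.path (p + g))⟫ ∂(nu s a) = 0 := by
    have h1 := claimMZ hs a r p [] Set.univ ⟨MeasurableSet.univ, fun _ _ _ _ => Set.mem_univ _⟩
      (adm_nil s)
    rw [← hq] at h1
    simp only [Set.indicator_univ, List.nil_append, one_mul, dz_nil hs, inner_zero_right,
      mul_zero, integral_zero] at h1
    have h2 : (fun g => (Xs s a).indicator (fun _ => (1 : ℝ)) g *
        (cf p s g * ⟪g, dz s (q.path (p + g))⟫)) =
        (Xs s a).indicator fun g => cf p s g * ⟪g, dz s (q.path (p + g))⟫ := by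
      funext g
      by_cases h : g ∈ Xs s a
      · rw [Set.indicator_of_mem h, Set.indicator_of_mem h, one_mul]
      · rw [Set.indicator_of_notMem h, Set.indicator_of_notMem h, zero_mul]
    rw [h2, integral_indicator (Xs_meas s a)] at h1
    exact h1
  have hsq : Integrable (fun g => (cf p s g) ^ 2 * ‖dz s (q.path (p + g))‖ ^ 2) (nu s a) := by
    refine (integrable_const ((((|⟪s, p⟫| + |a|) / ‖s‖ ^ 2)) ^ 2 * (2 * ‖s‖) ^ 2)).mono' ?_ ?_
    · exact (((cf_meas p s).pow_const 2).mul (hdz.norm.pow_const 2)).aestronglyMeasurable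
    · unfold nu
      filter_upwards [ae_restrict_mem (Xs_meas s a)] with g hg
      rw [Real.norm_eq_abs, abs_of_nonneg (by positivity)]
      have h3 : |cf p s g| ≤ (|⟪s, p⟫| + |a|) / ‖s‖ ^ 2 := by
        refine (cf_le p s hg).trans ?_
        exact div_le_div_of_nonneg_right (by linarith [le_abs_self a]) (sq_nonneg _)
      have h4 : (cf p s g) ^ 2 ≤ ((|⟪s, p⟫| + |a|) / ‖s‖ ^ 2) ^ 2 := by
        rw [← sq_abs]
        exact pow_le_pow_left₀ (abs_nonneg _) h3 2
      exact mul_le_mul h4 (pow_le_pow_left₀ (norm_nonneg _) (hbd g) 2) (by positivity)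
        (by positivity)
  obtain ⟨X, hX⟩ : ∃ X : E → ℝ, X = fun g => max (1 - Wz q p s g) 0 := ⟨_, rfl⟩
  have hXm : Measurable X := by
    rw [hX]; exact (measurable_const.sub (Wz_meas q p s)).max measurable_const
  have hX0 : ∀ g, 0 ≤ X g := fun g => by rw [hX]; exact le_max_right _ _
  have hX1 : ∀ g, X g ≤ 1 := fun g => by
    rw [hX]; exact max_le (by linarith [Wz_pos q p s g]) zero_le_one
  have hXi : Integrable X (nu s a) := by
    refine (integrable_const (1 : ℝ)).mono' hXm.aestronglyMeasurable ?_
    exact Filter.Eventually.of_forall fun g => by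
      rw [Real.norm_eq_abs, abs_of_nonneg (hX0 g)]; exact hX1 g
  have hX2i : Integrable (fun g => X g ^ 2) (nu s a) := by
    refine (integrable_const (1 : ℝ)).mono' (hXm.pow_const 2).aestronglyMeasurable ?_
    exact Filter.Eventually.of_forall fun g => by
      rw [Real.norm_eq_abs, abs_of_nonneg (sq_nonneg _)]
      nlinarith [hX0 g, hX1 g]
  -- the difference of the probabilities
  have h1 : (nu s a).real {g | q.run (p + g) = true} -
      (nu s a).real {g | q.run (p + g - cf p s g • s) = true} ≤ ∫ g, X g ∂(nu s a) := by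
    have e1 : (nu s a).real {g | q.run (p + g) = true} =
        ∫ _g in {g | q.run (p + g) = true}, (1 : ℝ) ∂(nu s a) := by
      rw [setIntegral_const, smul_eq_mul, mul_one]
    rw [hpr, e1, ← integral_sub (integrable_const _).integrableOn hWi.integrableOn]
    calc ∫ g in {g | q.run (p + g) = true}, (1 - Wz q p s g) ∂(nu s a)
        ≤ ∫ g in {g | q.run (p + g) = true}, X g ∂(nu s a) := by
          refine integral_mono ((integrable_const _).sub hWi).integrableOn hXi.integrableOn ?_
          intro g
          rw [hX]; exact le_max_left _ _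
      _ ≤ ∫ g, X g ∂(nu s a) :=
          setIntegral_le_integral hXi (Filter.Eventually.of_forall hX0)
  -- Jensen
  have h2 : (∫ g, X g ∂(nu s a)) ^ 2 ≤ ∫ g, X g ^ 2 ∂(nu s a) := by
    obtain ⟨c, hc⟩ : ∃ c, c = ∫ g, X g ∂(nu s a) := ⟨_, rfl⟩
    have h3 : 0 ≤ ∫ g, (X g - c) ^ 2 ∂(nu s a) :=
      integral_nonneg fun g => sq_nonneg _
    have h4 : ∫ g, (X g - c) ^ 2 ∂(nu s a) =
        ∫ g, X g ^ 2 ∂(nu s a) - 2 * c * c + (nu s a).real Set.univ * c ^ 2 := by
      have e : ∀ g, (X g - c) ^ 2 = X g ^ 2 - 2 * c * X g + c ^ 2 := fun g => by ring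
      have i2 : Integrable (fun g => 2 * c * X g) (nu s a) := hXi.const_mul (2 * c)
      have i1 : Integrable (fun g => X g ^ 2 - 2 * c * X g) (nu s a) := hX2i.sub i2
      simp_rw [e]
      rw [integral_add i1 (integrable_const _), integral_sub hX2i i2, integral_const_mul,
        integral_const, ← hc, smul_eq_mul]
    rw [h4] at h3
    rw [← hc]
    have h5 : (nu s a).real Set.univ * c ^ 2 ≤ 1 * c ^ 2 :=
      mul_le_mul_of_nonneg_right (nu_le s a) (sq_nonneg _)
    nlinarith
  have h3 : ∫ g, X g ^ 2 ∂(nu s a) ≤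
      ∫ g, (cf p s g) ^ 2 * ‖dz s (q.path (p + g))‖ ^ 2 ∂(nu s a) := by
    have e1 : ∀ g, X g ^ 2 ≤ 2 * (cf p s g * ⟪g, dz s (q.path (p + g))⟫) +
        (cf p s g) ^ 2 * ‖dz s (q.path (p + g))‖ ^ 2 - 2 * (1 - Wz q p s g) := by
      intro g
      have h5 := log_ineq (Wz_pos q p s g)
      have h6 : Real.log (Wz q p s g) = -(cf p s g * ⟪g, dz s (q.path (p + g))⟫) -
          (cf p s g) ^ 2 * ‖dz s (q.path (p + g))‖ ^ 2 / 2 := by
        unfold Wz wgt
        rw [Real.log_exp, inner_smul_right, norm_smul, mul_pow, Real.norm_eq_abs, sq_abs]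
      rw [h6] at h5
      rw [hX]
      linarith
    calc ∫ g, X g ^ 2 ∂(nu s a) ≤ ∫ g, (2 * (cf p s g * ⟪g, dz s (q.path (p + g))⟫) +
        (cf p s g) ^ 2 * ‖dz s (q.path (p + g))‖ ^ 2 - 2 * (1 - Wz q p s g)) ∂(nu s a) := by
          refine integral_mono hX2i ?_ e1
          exact ((hlin.const_mul 2).add hsq).sub (((integrable_const 1).sub hWi).const_mul 2)
      _ = ∫ g, (cf p s g) ^ 2 * ‖dz s (q.path (p + g))‖ ^ 2 ∂(nu s a) := by
          have i1 : Integrable (fun g => 2 * (cf p s g * ⟪g, dz s (q.path (p + g))⟫)) (nu s a) :=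
            hlin.const_mul 2
          have i2 : Integrable (fun g => 2 * (cf p s g * ⟪g, dz s (q.path (p + g))⟫) +
            (cf p s g) ^ 2 * ‖dz s (q.path (p + g))‖ ^ 2) (nu s a) := i1.add hsq
          have i3 : Integrable (fun g => 1 - Wz q p s g) (nu s a) :=
            (integrable_const 1).sub hWi
          have i4 : Integrable (fun g => 2 * (1 - Wz q p s g)) (nu s a) := i3.const_mul 2
          rw [integral_sub i2 i4, integral_add i1 hsq, integral_const_mul, hlin0,
            integral_const_mul, integral_sub (integrable_const 1) hWi, hW1, integral_const]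
          simp
  have h4 : ∫ g, X g ∂(nu s a) ≤
      √(∫ g, (cf p s g) ^ 2 * ‖dz s (q.path (p + g))‖ ^ 2 ∂(nu s a)) :=
    Real.le_sqrt_of_sq_le (h2.trans h3)
  linarith

/-! ### pruning -/

omit [MeasurableSpace E] [BorelSpace E] in
theorem prune_sub (s : E) (r : LTree E) (ls : List E) (u : E) :
    ∀ x ∈ (prune s r ls).path u, x ∈ r.path u := by
  induction r generalizing ls with
  | leaf b =>
    intro x hx
    rw [prune_leaf] at hx
    exact hx
  | node L next ih =>
    intro x hx
    by_cases hAL : Adm s (ls ++ [L])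
    · rw [prune_pos hAL, path_node] at hx
      rw [path_node]
      rcases List.mem_cons.1 hx with h | h
      · rw [h]; exact List.mem_cons_self
      · exact List.mem_cons_of_mem _ (ih _ _ x h)
    · rw [prune_neg hAL, path_leaf] at hx
      exact absurd hx List.not_mem_nil

omit [MeasurableSpace E] [BorelSpace E] in
theorem prune_complete (s : E) (r : LTree E) (ls : List E) (u : E)
    (h : Adm s (ls ++ r.path u)) : (prune s r ls).run u = r.run u := by
  induction r generalizing ls with
  | leaf b => rfl
  | node L next ih =>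
    rw [path_node] at h
    have h1 : Adm s (ls ++ [L]) := by
      refine h.mono fun x hx => ?_
      rw [List.mem_append] at hx ⊢
      rcases hx with hx | hx
      · exact Or.inl hx
      · exact Or.inr (by rw [List.mem_singleton.1 hx]; exact List.mem_cons_self)
    rw [prune_pos h1, run_node, run_node]
    refine ih _ (ls ++ [L]) ?_
    rwa [List.append_assoc, List.singleton_append]

/-- no form which is tested vanishes -/
def LGen : LTree E → E → Prop
  | .leaf _, _ => True
  | .node L next, u => ⟪L, u⟫ ≠ 0 ∧ LGen (next (SignType.sign ⟪L, u⟫)) u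

/-- no test of the zero form -/
def LNZ : LTree E → Prop
  | .leaf _ => True
  | .node L next => L ≠ 0 ∧ ∀ e, LNZ (next e)

omit [MeasurableSpace E] [BorelSpace E] in
theorem prune_sound (s : E) (r : LTree E) (ls : List E) (u : E)
    (h : (prune s r ls).run u = true) (hg : LGen (prune s r ls) u) :
    r.run u = true ∧ LGen r u := by
  induction r generalizing ls with
  | leaf b =>
    rw [prune_leaf] at h hg
    exact ⟨h, hg⟩
  | node L next ih =>
    by_cases hAL : Adm s (ls ++ [L])
    · rw [prune_pos hAL] at h hg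
      rw [run_node] at h ⊢
      have h1 := ih _ _ h hg.2
      exact ⟨h1.1, hg.1, h1.2⟩
    · rw [prune_neg hAL, run_leaf] at h
      exact absurd h (by simp)

theorem ae_ne' {v : E} (hv : v ≠ 0) (c : ℝ) : ∀ᵐ g ∂(stdGaussian E), ⟪v, g⟫ ≠ c := by
  have h1 : (stdGaussian E).map (fun g => ⟪v, g⟫) {c} = 0 := by
    rw [map_inner]
    have hv' : (‖v‖₊ ^ 2 : NNReal) ≠ 0 := by
      have : ‖v‖₊ ≠ 0 := by simpa using hv
      positivity
    have := nullSingletonClass_gaussianReal (μ := 0) hv'
    exact measure_singleton c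
  rw [Measure.map_apply (by fun_prop) (measurableSet_singleton c)] at h1
  rw [ae_iff]
  simp only [ne_eq, not_not]
  exact h1

theorem lgen_ae {s : E} (hs : s ≠ 0) (r : LTree E) (hr : LNZ r) (p : E) (ls : List E) :
    ∀ᵐ g ∂(stdGaussian E), LGen (prune s r ls) (p + g - cf p s g • s) := by
  induction r generalizing ls with
  | leaf b => exact Filter.Eventually.of_forall fun g => trivial
  | node L next ih =>
    by_cases hAL : Adm s (ls ++ [L])
    · rw [prune_pos hAL]
      have h1 : ∀ᵐ g ∂(stdGaussian E), ∀ e, LGen (prune s (next e) (ls ++ [L]))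
          (p + g - cf p s g • s) := ae_all_iff.2 fun e => ih e (hr.2 e) _
      have h2 := hAL.not_par hs (List.mem_append_right _ (List.mem_singleton_self L)) hr.1
      filter_upwards [h1, ae_ne' h2 (-⟪L - (⟪s, L⟫ / ‖s‖ ^ 2) • s, p⟫)] with g hg h3
      refine ⟨?_, hg _⟩
      intro h4
      apply h3
      have e : ⟪L, p + g - cf p s g • s⟫ = ⟪L - (⟪s, L⟫ / ‖s‖ ^ 2) • s, p + g⟫ := by
        unfold cf
        rw [inner_sub_right, inner_sub_left, inner_smul_right, inner_smul_left,
          real_inner_comm L s]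
        simp only [conj_trivial]
        ring
      rw [e, inner_add_right] at h4
      linarith
    · rw [prune_neg hAL]
      exact Filter.Eventually.of_forall fun g => trivial

theorem gen_ae' (r : LTree E) (hr : LNZ r) (p : E) :
    ∀ᵐ g ∂(stdGaussian E), LGen r (p + g) := by
  induction r with
  | leaf b => exact Filter.Eventually.of_forall fun g => trivial
  | node L next ih =>
    have h1 : ∀ᵐ g ∂(stdGaussian E), ∀ e, LGen (next e) (p + g) :=
      ae_all_iff.2 fun e => ih e (hr.2 e)
    filter_upwards [h1, ae_ne' hr.1 (-⟪L, p⟫)] with g hg h2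
    refine ⟨?_, hg _⟩
    rw [inner_add_right]
    intro h3
    exact h2 (by linarith)

/-- **the main inequality**: the tree `r` for the input `p + g`, and the pruned tree for its
projection orthogonal to `s` -/
theorem main_zz {s : E} (hs : ‖s‖ ^ 2 = 3) {a K : ℝ} (r : LTree E) (p : E)
    (hK : (|⟪s, p⟫| + a) / 3 ≤ K) (hK0 : 0 ≤ K) :
    (nu s a).real {g | r.run (p + g) = true} ≤
      (nu s a).real {g | (prune s r []).run (p + g - cf p s g • s) = true} +
        √(3 / 2 * K ^ 2 * ∫ g, ‖dir s (r.path (p + g))‖ ^ 2 ∂(stdGaussian E)) +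
        ∫ g, ‖dir s (r.path (p + g))‖ ^ 2 ∂(stdGaussian E) := by
  have hs0 : s ≠ 0 := by
    rintro rfl
    simp at hs
  have hdm : Measurable fun g : E => dir s (r.path (p + g)) :=
    (measurable_tree r fun _ l => dir s l).comp (measurable_const_add p)
  have hi : Integrable (fun g => ‖dir s (r.path (p + g))‖ ^ 2) (stdGaussian E) := by
    refine (integrable_const (‖s‖ ^ 2)).mono' ((hdm.norm.pow_const 2).aestronglyMeasurable) ?_
    refine Filter.Eventually.of_forall fun g => ?_
    rw [Real.norm_eq_abs, abs_of_nonneg (sq_nonneg _)]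
    exact pow_le_pow_left₀ (norm_nonneg _) (norm_dir_le _ _) 2
  have hnn : ∀ g : E, 0 ≤ ‖dir s (r.path (p + g))‖ ^ 2 := fun g => sq_nonneg _
  obtain ⟨I, hI⟩ : ∃ I, I = ∫ g, ‖dir s (r.path (p + g))‖ ^ 2 ∂(stdGaussian E) := ⟨_, rfl⟩
  -- the probability of pruning
  have h1 : (nu s a).real {g | r.run (p + g) = true} ≤
      (nu s a).real {g | (prune s r []).run (p + g) = true} + I := by
    have hsub : {g | r.run (p + g) = true} ⊆ {g | (prune s r []).run (p + g) = true} ∪
        {g : E | 1 ≤ ‖dir s (r.path (p + g))‖ ^ 2} := by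
      intro g hg
      by_cases h : Adm s (r.path (p + g))
      · left
        show (prune s r []).run (p + g) = true
        rw [prune_complete s r [] (p + g) h]
        exact hg
      · right
        unfold Adm at h
        rw [hs] at h
        push Not at h
        show 1 ≤ ‖dir s (r.path (p + g))‖ ^ 2
        linarith
    have h2 : (nu s a).real {g : E | 1 ≤ ‖dir s (r.path (p + g))‖ ^ 2} ≤ I := by
      have h3 : (nu s a).real {g : E | 1 ≤ ‖dir s (r.path (p + g))‖ ^ 2} ≤
          (stdGaussian E).real {g : E | 1 ≤ ‖dir s (r.path (p + g))‖ ^ 2} := by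
        unfold nu
        exact ENNReal.toReal_mono (measure_ne_top _ _) (Measure.restrict_apply_le _ _)
      refine h3.trans ?_
      have h4 := mul_meas_ge_le_integral_of_nonneg (Filter.Eventually.of_forall hnn) hi 1
      rw [one_mul] at h4
      rw [hI]
      exact h4
    refine (measureReal_mono hsub (measure_ne_top _ _)).trans ?_
    refine (measureReal_union_le _ _).trans ?_
    linarith
  have h2 := main_z hs0 a r p
  have h3 : ∫ g, (cf p s g) ^ 2 * ‖dz s ((prune s r []).path (p + g))‖ ^ 2 ∂(nu s a) ≤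
      3 / 2 * K ^ 2 * I := by
    have h4 : ∀ g ∈ Xs s a, (cf p s g) ^ 2 * ‖dz s ((prune s r []).path (p + g))‖ ^ 2 ≤
        3 / 2 * K ^ 2 * ‖dir s (r.path (p + g))‖ ^ 2 := by
      intro g hg
      have h5 : |cf p s g| ≤ K := by
        have := cf_le p s hg
        rw [hs] at this
        exact this.trans hK
      have h6 : (cf p s g) ^ 2 ≤ K ^ 2 := by
        rw [← sq_abs]
        exact pow_le_pow_left₀ (abs_nonneg _) h5 2
      have h7 : Adm s ((prune s r []).path (p + g)) := by
        have := adm_path (s := s) r [] (adm_nil s) (p + g)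
        rwa [List.nil_append] at this
      have h8 := norm_dz hs0 h7
      have h9 : ‖dir s ((prune s r []).path (p + g))‖ ^ 2 ≤ ‖dir s (r.path (p + g))‖ ^ 2 :=
        pow_le_pow_left₀ (norm_nonneg _) (norm_dir_mono s (prune_sub s r [] (p + g))) 2
      calc (cf p s g) ^ 2 * ‖dz s ((prune s r []).path (p + g))‖ ^ 2 ≤
          K ^ 2 * (3 / 2 * ‖dir s (r.path (p + g))‖ ^ 2) :=
            mul_le_mul h6 (h8.trans (by linarith)) (by positivity) (by positivity)
        _ = 3 / 2 * K ^ 2 * ‖dir s (r.path (p + g))‖ ^ 2 := by ring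
    have hi2 : Integrable (fun g => 3 / 2 * K ^ 2 * ‖dir s (r.path (p + g))‖ ^ 2)
      (stdGaussian E) := hi.const_mul _
    calc ∫ g, (cf p s g) ^ 2 * ‖dz s ((prune s r []).path (p + g))‖ ^ 2 ∂(nu s a)
        ≤ ∫ g in Xs s a, 3 / 2 * K ^ 2 * ‖dir s (r.path (p + g))‖ ^ 2 ∂(stdGaussian E) := by
          unfold nu
          refine integral_mono_of_nonneg (Filter.Eventually.of_forall fun g => by positivity)
            hi2.integrableOn ?_
          filter_upwards [ae_restrict_mem (Xs_meas s a)] with g hg
          exact h4 g hg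
      _ ≤ ∫ g, 3 / 2 * K ^ 2 * ‖dir s (r.path (p + g))‖ ^ 2 ∂(stdGaussian E) :=
          setIntegral_le_integral hi2 (Filter.Eventually.of_forall fun g => by positivity)
      _ = 3 / 2 * K ^ 2 * I := by rw [integral_const_mul, hI]
  have h4 := Real.sqrt_le_sqrt h3
  rw [← hI]
  linarith

end Pool.Agent.N575.ZT
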