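import Mathlib

/-!
# Decision trees for linear degeneracy testing near degenerate inputs

An input is a vector `w : I → ℝ`. There is a family of linear forms `form τ`, `τ : Θ`, and a linear
family of degenerate inputs `pot x`, `x : X → ℝ`, for which all these forms vanish. The question is
whether one of the forms vanishes.
-/

set_option autoImplicit false

namespace Pool.Agent.N575.ZT

open Filter Topology

/-- linear forms `form τ` on the space of the inputs, and a family of inputs `pot x` on which they
vanish -/
structure Conf (I X Θ : Type) [Fintype I] [Finite X] : Type where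
  pot : (X → ℝ) →ₗ[ℝ] (I → ℝ)
  form : Θ → I → ℝ
  zero : ∀ τ x, ∑ e, form τ e * pot x e = 0

variable {I X Θ : Type} [Fintype I] [Finite X]

/-- the value of the form `τ` -/
def Conf.val (C : Conf I X Θ) (w : I → ℝ) (τ : Θ) : ℝ := ∑ e, C.form τ e * w e

/-- a function of the inputs which is locally constant near `pot x` for a dense set of `x` -/
def Conf.Shallow (C : Conf I X Θ) (f : (I → ℝ) → ℤ) : Prop :=
  Dense {x : X → ℝ | ∀ᶠ w in 𝓝 (C.pot x), f w = f (C.pot x)}

/-- For generic `x` the function `f` is differentiable at `pot x`, and it is not zero or its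
derivative is not zero. -/
def Conf.Regular (C : Conf I X Θ) (f : (I → ℝ) → ℝ) : Prop :=
  ∀ᶠ x in residual (X → ℝ),
    DifferentiableAt ℝ f (C.pot x) ∧ (f (C.pot x) ≠ 0 ∨ fderiv ℝ f (C.pot x) ≠ 0)

/-- Decision trees with outputs in `β`. A node asks for the value of a shallow function (`free`),
for the sign of the form `τ` (`test`), or for the sign of a regular function (`smooth`). The
tree may be infinite, but each of its branches is finite. -/
inductive Alg (C : Conf I X Θ) (β : Type) : Type
  | leaf (b : β) : Alg C β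
  | free (f : (I → ℝ) → ℤ) (hf : C.Shallow f) (next : ℤ → Alg C β) : Alg C β
  | test (τ : Θ) (next : SignType → Alg C β) : Alg C β
  | smooth (f : (I → ℝ) → ℝ) (hf : C.Regular f) (next : SignType → Alg C β) : Alg C β

variable {C : Conf I X Θ} {β : Type}

/-- the output -/
noncomputable def Alg.run : Alg C β → (I → ℝ) → β
  | .leaf b, _ => b
  | .free f _ next, w => (next (f w)).run w
  | .test τ next, w => (next (SignType.sign (C.val w τ))).run w
  | .smooth f _ next, w => (next (SignType.sign (f w))).run w

/-- the number of the tests of forms `τ` which are made for the input `w` -/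
noncomputable def Alg.tests : Alg C β → (I → ℝ) → ℕ
  | .leaf _, _ => 0
  | .free f _ next, w => (next (f w)).tests w
  | .test τ next, w => (next (SignType.sign (C.val w τ))).tests w + 1
  | .smooth f _ next, w => (next (SignType.sign (f w))).tests w

/-- the number of the tests of regular functions which are made for the input `w` -/
noncomputable def Alg.smooths : Alg C β → (I → ℝ) → ℕ
  | .leaf _, _ => 0
  | .free f _ next, w => (next (f w)).smooths w
  | .test τ next, w => (next (SignType.sign (C.val w τ))).smooths w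
  | .smooth f _ next, w => (next (SignType.sign (f w))).smooths w + 1

/-! ### the reduced tree near a degenerate input -/

/-- trees of tests of the forms and linear tests -/
inductive QTree (I Θ : Type) : Type
  | leaf (b : Bool) : QTree I Θ
  | test (τ : Θ) (next : SignType → QTree I Θ) : QTree I Θ
  | lin (L : I → ℝ) (next : SignType → QTree I Θ) : QTree I Θ

noncomputable def QTree.run (C : Conf I X Θ) : QTree I Θ → (I → ℝ) → Bool
  | .leaf b, _ => b
  | .test τ next, w => (next (SignType.sign (C.val w τ))).run C w
  | .lin L next, w => (next (SignType.sign (∑ e, L e * w e))).run C w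

/-- the forms `τ` which are tested -/
noncomputable def QTree.vis (C : Conf I X Θ) : QTree I Θ → (I → ℝ) → List Θ
  | .leaf _, _ => []
  | .test τ next, w => τ :: (next (SignType.sign (C.val w τ))).vis C w
  | .lin L next, w => (next (SignType.sign (∑ e, L e * w e))).vis C w

noncomputable def QTree.lins (C : Conf I X Θ) : QTree I Θ → (I → ℝ) → ℕ
  | .leaf _, _ => 0
  | .test τ next, w => (next (SignType.sign (C.val w τ))).lins C w
  | .lin L next, w => (next (SignType.sign (∑ e, L e * w e))).lins C w + 1

/-- no other linear form which is tested vanishes -/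
def QTree.Gen (C : Conf I X Θ) : QTree I Θ → (I → ℝ) → Prop
  | .leaf _, _ => True
  | .test τ next, w => (next (SignType.sign (C.val w τ))).Gen C w
  | .lin L next, w => ∑ e, L e * w e ≠ 0 ∧ (next (SignType.sign (∑ e, L e * w e))).Gen C w

/-- no test of the zero form -/
def QTree.NZ : QTree I Θ → Prop
  | .leaf _ => True
  | .test _ next => ∀ s, (next s).NZ
  | .lin L next => L ≠ 0 ∧ ∀ s, (next s).NZ

open Classical in
/-- the reduction near a degenerate input -/
noncomputable def red (φ : β → Bool) : Alg C β → (X → ℝ) → QTree I Θ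
  | .leaf b, _ => .leaf (φ b)
  | .free f _ next, x => red φ (next (f (C.pot x))) x
  | .test τ next, x => .test τ fun s => red φ (next s) x
  | .smooth f _ next, x =>
    if f (C.pot x) = 0 then
      .lin (fun e => fderiv ℝ f (C.pot x) fun j => if e = j then 1 else 0)
        fun s => red φ (next s) x
    else red φ (next (SignType.sign (f (C.pot x)))) x

theorem tendsto_line (p u : I → ℝ) : Tendsto (fun ε : ℝ => p + ε • u) (𝓝[>] 0) (𝓝 p) := by
  have h : Tendsto (fun ε : ℝ => p + ε • u) (𝓝 0) (𝓝 (p + (0 : ℝ) • u)) :=
    (continuous_const.add (continuous_id.smul continuous_const)).tendsto 0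
  rw [zero_smul, add_zero] at h
  exact h.mono_left nhdsWithin_le_nhds

theorem val_line (C : Conf I X Θ) (x : X → ℝ) (ε : ℝ) (u : I → ℝ) (τ : Θ) :
    C.val (C.pot x + ε • u) τ = ε * C.val u τ := by
  unfold Conf.val
  simp only [Pi.add_apply, Pi.smul_apply, smul_eq_mul, mul_add, Finset.sum_add_distrib, C.zero,
    zero_add, Finset.mul_sum]
  exact Finset.sum_congr rfl fun e _ => by ring

theorem sign_mul_pos {ε a : ℝ} (h : 0 < ε) : SignType.sign (ε * a) = SignType.sign a := by
  rw [sign_mul, sign_pos h, one_mul]

/-- the sign of a differentiable function near a zero -/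
theorem sign_diff {f : (I → ℝ) → ℝ} {p : I → ℝ} (hf : DifferentiableAt ℝ f p) (h0 : f p = 0)
    {u : I → ℝ} (hu : fderiv ℝ f p u ≠ 0) :
    ∀ᶠ ε in 𝓝[>] (0 : ℝ), SignType.sign (f (p + ε • u)) = SignType.sign (fderiv ℝ f p u) := by
  have h1 : HasDerivAt (fun ε : ℝ => f (p + ε • u)) (fderiv ℝ f p u) 0 := by
    have h2 : HasDerivAt (fun ε : ℝ => p + ε • u) u 0 := by
      simpa using ((hasDerivAt_id (0 : ℝ)).smul_const u).const_add p
    have h3 : HasFDerivAt f (fderiv ℝ f p) (p + (0 : ℝ) • u) := by
      rw [zero_smul, add_zero]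
      exact hf.hasFDerivAt
    exact h3.comp_hasDerivAt 0 h2
  have h2 := h1.tendsto_slope_zero_right
  simp only [zero_add, zero_smul, add_zero, h0, sub_zero, smul_eq_mul] at h2
  rcases lt_or_gt_of_ne hu with h | h
  · filter_upwards [h2.eventually (gt_mem_nhds h), self_mem_nhdsWithin] with ε h3 h4
    have h4' : (0 : ℝ) < ε := h4
    have h5 : f (p + ε • u) < 0 := by
      by_contra hc
      push Not at hc
      exact absurd (mul_nonneg (inv_pos.2 h4').le hc) (not_le.2 h3)
    rw [sign_neg h5, sign_neg h]
  · filter_upwards [h2.eventually (lt_mem_nhds h), self_mem_nhdsWithin] with ε h3 h4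
    have h4' : (0 : ℝ) < ε := h4
    have h5 : 0 < f (p + ε • u) := by
      by_contra hc
      push Not at hc
      exact absurd (mul_nonpos_of_nonneg_of_nonpos (inv_pos.2 h4').le hc) (not_le.2 h3)
    rw [sign_pos h5, sign_pos h]

open Classical in
theorem fderiv_sum (f : (I → ℝ) → ℝ) (p u : I → ℝ) :
    ∑ e, (fderiv ℝ f p fun j => if e = j then 1 else 0) * u e = fderiv ℝ f p u := by
  have h := LinearMap.pi_apply_eq_sum_univ (fderiv ℝ f p).toLinearMap u
  simp only [ContinuousLinearMap.coe_coe, smul_eq_mul] at h
  rw [h]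
  exact Finset.sum_congr rfl fun e _ => mul_comm _ _

theorem pot_continuous (C : Conf I X Θ) : Continuous C.pot :=
  LinearMap.continuous_of_finiteDimensional _

theorem shallow_residual {f : (I → ℝ) → ℤ} (hf : C.Shallow f) :
    ∀ᶠ x in residual (X → ℝ), ∀ᶠ w in 𝓝 (C.pot x), f w = f (C.pot x) := by
  refine residual_of_dense_open ?_ hf
  rw [isOpen_iff_mem_nhds]
  intro x hx
  have h1 := (pot_continuous C).continuousAt.eventually (eventually_eventually_nhds.2 hx)
  filter_upwards [h1] with y hy
  have h2 : f (C.pot y) = f (C.pot x) := hy.self_of_nhds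
  show ∀ᶠ w in 𝓝 (C.pot y), f w = f (C.pot y)
  filter_upwards [hy] with w hw
  rw [hw, h2]

/-- the reduced tree describes the tree near the degenerate input -/
structure QGood (φ : β → Bool) (t : Alg C β) (x : X → ℝ) : Prop where
  nz : (red φ t x).NZ
  good : ∀ u : I → ℝ, (red φ t x).Gen C u → ∀ᶠ ε in 𝓝[>] (0 : ℝ),
    φ (t.run (C.pot x + ε • u)) = (red φ t x).run C u ∧
      ((red φ t x).vis C u).length = t.tests (C.pot x + ε • u) ∧
      (red φ t x).lins C u ≤ t.smooths (C.pot x + ε • u)

theorem qgood (φ : β → Bool) (t : Alg C β) :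
    ∀ᶠ x in residual (X → ℝ), QGood φ t x := by
  classical
  induction t with
  | leaf b =>
    exact Eventually.of_forall fun x =>
      ⟨trivial, fun u _ => Eventually.of_forall fun ε => ⟨rfl, rfl, le_rfl⟩⟩
  | free f hf next ih =>
    filter_upwards [shallow_residual hf, eventually_countable_forall.2 ih] with x h1 h2
    refine ⟨(h2 (f (C.pot x))).nz, fun u hu => ?_⟩
    filter_upwards [(h2 (f (C.pot x))).good u hu, (tendsto_line (C.pot x) u).eventually h1]
      with ε h4 h5
    unfold Alg.run Alg.tests Alg.smooths
    rw [h5]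
    exact h4
  | test τ next ih =>
    filter_upwards [eventually_countable_forall.2 ih] with x h2
    refine ⟨fun s => (h2 s).nz, fun u hu => ?_⟩
    filter_upwards [(h2 (SignType.sign (C.val u τ))).good u hu,
      self_mem_nhdsWithin] with ε h4 h5
    have h6 : SignType.sign (C.val (C.pot x + ε • u) τ) = SignType.sign (C.val u τ) := by
      rw [val_line, sign_mul_pos h5]
    unfold Alg.run Alg.tests Alg.smooths red QTree.run QTree.vis QTree.lins
    rw [h6, List.length_cons]
    exact ⟨h4.1, congrArg (· + 1) h4.2.1, h4.2.2⟩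
  | smooth f hf next ih =>
    filter_upwards [hf, eventually_countable_forall.2 ih] with x h1 h2
    by_cases h0 : f (C.pot x) = 0
    · have h3 : fderiv ℝ f (C.pot x) ≠ 0 := by
        rcases h1.2 with h | h
        · exact absurd h0 h
        · exact h
      have e1 : red φ (.smooth f hf next) x =
          .lin (fun e => fderiv ℝ f (C.pot x) fun j => if e = j then 1 else 0)
            fun s => red φ (next s) x := by
        show (if f (C.pot x) = 0 then _ else _) = _
        rw [if_pos h0]
      refine ⟨?_, fun u hu => ?_⟩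
      · rw [e1]
        refine ⟨fun h => h3 ?_, fun s => (h2 s).nz⟩
        ext u
        rw [← fderiv_sum]
        have h4 : ∀ e, (fderiv ℝ f (C.pot x) fun j => if e = j then 1 else 0) = 0 :=
          fun e => congrFun h e
        simp only [h4, zero_mul, Finset.sum_const_zero]
        rfl
      · rw [e1] at hu
        unfold QTree.Gen at hu
        rw [fderiv_sum] at hu
        filter_upwards [(h2 (SignType.sign (fderiv ℝ f (C.pot x) u))).good u hu.2,
          sign_diff h1.1 h0 hu.1] with ε h4 h5
        rw [e1]
        unfold Alg.run Alg.tests Alg.smooths QTree.run QTree.vis QTree.lins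
        rw [fderiv_sum, h5]
        exact ⟨h4.1, h4.2.1, Nat.add_le_add_right h4.2.2 1⟩
    · have e1 : red φ (.smooth f hf next) x = red φ (next (SignType.sign (f (C.pot x)))) x := by
        show (if f (C.pot x) = 0 then _ else _) = _
        rw [if_neg h0]
      have h7 : ∀ᶠ w in 𝓝 (C.pot x), SignType.sign (f w) = SignType.sign (f (C.pot x)) := by
        have hc := h1.1.continuousAt
        rcases lt_or_gt_of_ne h0 with h | h
        · filter_upwards [hc.eventually (gt_mem_nhds h)] with w hw
          rw [sign_neg hw, sign_neg h]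
        · filter_upwards [hc.eventually (lt_mem_nhds h)] with w hw
          rw [sign_pos hw, sign_pos h]
      refine ⟨by rw [e1]; exact (h2 _).nz, fun u hu => ?_⟩
      rw [e1] at hu
      filter_upwards [(h2 _).good u hu, (tendsto_line (C.pot x) u).eventually h7] with ε h4 h5
      rw [e1]
      unfold Alg.run Alg.tests Alg.smooths
      rw [h5]
      exact ⟨h4.1, h4.2.1, h4.2.2.trans (Nat.le_succ _)⟩

/-! ### examples of shallow and regular functions -/

theorem dense_ne {g : (I → ℝ) → ℝ} (hg : AnalyticOnNhd ℝ g Set.univ) {x₀ : X → ℝ}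
    (h : g (C.pot x₀) ≠ 0) : Dense {x | g (C.pot x) ≠ 0} := by
  have := Fintype.ofFinite X
  have ha : AnalyticOnNhd ℝ (fun x => g (C.pot x)) Set.univ := by
    intro x _
    exact (hg (C.pot x) (Set.mem_univ _)).fun_comp
      ((LinearMap.toContinuousLinearMap C.pot).analyticAt x)
  by_contra hd
  have h1 : ∃ x, x ∉ closure {x | g (C.pot x) ≠ 0} := by
    by_contra hc
    push Not at hc
    exact hd hc
  obtain ⟨x, hx⟩ := h1
  have h2 : (fun x => g (C.pot x)) =ᶠ[𝓝 x] 0 := by
    have h3 : (closure {x | g (C.pot x) ≠ 0})ᶜ ∈ 𝓝 x := isClosed_closure.isOpen_compl.mem_nhds hx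
    filter_upwards [h3] with y hy
    by_contra h4
    exact hy (subset_closure h4)
  have h3 := ha.eqOn_zero_of_preconnected_of_eventuallyEq_zero isPreconnected_univ
    (Set.mem_univ x) h2
  exact h (h3 (Set.mem_univ x₀))

/-- the sign of an analytic function which does not vanish on all degenerate inputs is shallow -/
theorem shallow_sign {g : (I → ℝ) → ℝ} (hg : AnalyticOnNhd ℝ g Set.univ)
    (h : ∃ x, g (C.pot x) ≠ 0) : C.Shallow fun w => ((SignType.sign (g w) : SignType) : ℤ) := by
  obtain ⟨x₀, h0⟩ := h
  refine (dense_ne hg h0).mono fun x hx => ?_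
  have hc : ContinuousAt g (C.pot x) := (hg (C.pot x) (Set.mem_univ _)).continuousAt
  have hx' : g (C.pot x) ≠ 0 := hx
  show ∀ᶠ w in 𝓝 (C.pot x),
    ((SignType.sign (g w) : SignType) : ℤ) = (SignType.sign (g (C.pot x)) : SignType)
  rcases lt_or_gt_of_ne hx' with h1 | h1
  · filter_upwards [hc.eventually (gt_mem_nhds h1)] with w hw
    rw [sign_neg hw, sign_neg h1]
  · filter_upwards [hc.eventually (lt_mem_nhds h1)] with w hw
    rw [sign_pos hw, sign_pos h1]

/-- analytic functions which do not vanish of the second order at all degenerate inputs are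
regular -/
theorem regular_analytic {f : (I → ℝ) → ℝ} (hf : AnalyticOnNhd ℝ f Set.univ)
    (h : ∃ x, f (C.pot x) ≠ 0 ∨ fderiv ℝ f (C.pot x) ≠ 0) : C.Regular f := by
  have hdiff : ∀ x : X → ℝ, DifferentiableAt ℝ f (C.pot x) :=
    fun x => (hf (C.pot x) (Set.mem_univ _)).differentiableAt
  have hop : ∀ g : (I → ℝ) → ℝ, AnalyticOnNhd ℝ g Set.univ → (∃ x, g (C.pot x) ≠ 0) →
      ∀ᶠ x in residual (X → ℝ), g (C.pot x) ≠ 0 := by
    intro g hg hx
    obtain ⟨x₀, h0⟩ := hx
    refine residual_of_dense_open ?_ (dense_ne hg h0)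
    have hcont : Continuous g := by
      rw [continuous_iff_continuousAt]
      exact fun w => (hg w (Set.mem_univ _)).continuousAt
    exact isOpen_ne_fun (hcont.comp (pot_continuous C)) continuous_const
  obtain ⟨x₀, h0 | h0⟩ := h
  · filter_upwards [hop f hf ⟨x₀, h0⟩] with x hx
    exact ⟨hdiff x, Or.inl hx⟩
  · obtain ⟨v, hv⟩ : ∃ v, fderiv ℝ f (C.pot x₀) v ≠ 0 := by
      by_contra! hcon
      exact h0 (ContinuousLinearMap.ext hcon)
    have hg : AnalyticOnNhd ℝ (fun w => fderiv ℝ f w v) Set.univ := by
      intro w hw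
      have h1 : AnalyticAt ℝ (fderiv ℝ f) w := (hf w hw).fderiv
      exact ((ContinuousLinearMap.apply ℝ ℝ v).analyticAt _).comp h1
    filter_upwards [hop _ hg ⟨x₀, hv⟩] with x hx
    refine ⟨hdiff x, Or.inr fun h1 => hx ?_⟩
    rw [h1]
    rfl

end Pool.Agent.N575.ZT
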