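import Mathlib
import Pool.Agent.N575.ZT.Model
import Pool.Agent.N575.ZT.MainIneq

/-!
# Removal of the tests of the forms
-/

set_option autoImplicit false

namespace Pool.Agent.N575.ZT

open Filter Topology Finset MeasureTheory ProbabilityTheory
open scoped RealInnerProductSpace
open Pool.Agent.N575.LDT (LTree run_leaf run_node path_leaf path_node dir spn tail)

variable {I X Θ : Type} [Fintype I] [Finite X] [DecidableEq Θ] {C : Conf I X Θ}

/-- a form as a vector -/
noncomputable def frm (L : I → ℝ) : EuclideanSpace ℝ I := WithLp.toLp 2 L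

omit [Finite X] in
theorem inner_frm (L : I → ℝ) (u : EuclideanSpace ℝ I) : ⟪frm L, u⟫ = ∑ e, L e * u e := by
  rw [PiLp.inner_apply]
  refine Finset.sum_congr rfl fun e _ => ?_
  simp [frm, mul_comm]

omit [Finite X] in
theorem frm_ne {L : I → ℝ} (h : L ≠ 0) : frm L ≠ 0 := by
  intro h1
  apply h
  funext e
  have h2 : (frm L) e = 0 := by rw [h1]; rfl
  exact h2

theorem inner_val (C : Conf I X Θ) (τ : Θ) (u : EuclideanSpace ℝ I) :
    ⟪frm (C.form τ), u⟫ = C.val (fun e => u e) τ := inner_frm _ _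

/-- Tests of forms are not made, their outcome is assumed to be positive. At most `m` linear
tests are made. The tree accepts if the original tree accepts and `τ` has not been asked for. -/
noncomputable def strip (τ : Θ) : QTree I Θ → ℕ → Bool → LTree (EuclideanSpace ℝ I)
  | .leaf b, _, c => .leaf (b && c)
  | .test σ next, m, c => strip τ (next 1) m (c && !decide (σ = τ))
  | .lin _ _, 0, _ => .leaf false
  | .lin L next, m + 1, c => .node (frm L) fun s => strip τ (next s) m c

omit [Finite X] in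
theorem strip_length (τ : Θ) (r : QTree I Θ) (m : ℕ) (c : Bool) (u : EuclideanSpace ℝ I) :
    ((strip τ r m c).path u).length ≤ m := by
  induction r generalizing m c with
  | leaf b =>
    unfold strip
    rw [path_leaf]
    exact Nat.zero_le _
  | test σ next ih =>
    unfold strip
    exact ih _ _ _
  | lin L next ih =>
    cases m with
    | zero =>
      unfold strip
      rw [path_leaf]
      exact Nat.zero_le _
    | succ m =>
      unfold strip
      rw [path_node, List.length_cons]
      exact Nat.succ_le_succ (ih _ _ _)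

omit [Finite X] in
theorem strip_indep (τ τ' : Θ) (r : QTree I Θ) (m : ℕ) (c c' : Bool) (u : EuclideanSpace ℝ I) :
    (strip τ r m c).path u = (strip τ' r m c').path u := by
  induction r generalizing m c c' with
  | leaf b =>
    unfold strip
    rw [path_leaf, path_leaf]
  | test σ next ih =>
    unfold strip
    exact ih _ _ _ _
  | lin L next ih =>
    cases m with
    | zero =>
      unfold strip
      rfl
    | succ m =>
      unfold strip
      rw [path_node, path_node]
      exact congrArg _ (ih _ _ _ _)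

omit [Finite X] in
theorem strip_nz (τ : Θ) (r : QTree I Θ) (hr : r.NZ) (m : ℕ) (c : Bool) :
    LNZ (strip τ r m c) := by
  induction r generalizing m c with
  | leaf b =>
    unfold strip
    trivial
  | test σ next ih =>
    unfold strip
    exact ih _ (hr _) _ _
  | lin L next ih =>
    cases m with
    | zero =>
      unfold strip
      trivial
    | succ m =>
      unfold strip
      exact ⟨frm_ne hr.1, fun e => ih e (hr.2 e) _ _⟩

theorem strip_sound (τ : Θ) (r : QTree I Θ) (m : ℕ) (c : Bool) (u : EuclideanSpace ℝ I)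
    (hu : ∀ σ, σ ≠ τ → 0 < C.val (fun e => u e) σ) (h : (strip τ r m c).run u = true)
    (hg : LGen (strip τ r m c) u) :
    r.run C (fun e => u e) = true ∧ c = true ∧ r.Gen C (fun e => u e) := by
  induction r generalizing m c with
  | leaf b =>
    unfold strip at h
    rw [run_leaf, Bool.and_eq_true] at h
    exact ⟨h.1, h.2, trivial⟩
  | test σ next ih =>
    unfold strip at h hg
    obtain ⟨h1, h2, h3⟩ := ih 1 _ _ h hg
    rw [Bool.and_eq_true, Bool.not_eq_true', decide_eq_false_iff_not] at h2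
    unfold QTree.run QTree.Gen
    rw [sign_pos (hu σ h2.2)]
    exact ⟨h1, h2.1, h3⟩
  | lin L next ih =>
    cases m with
    | zero =>
      unfold strip at h
      rw [run_leaf] at h
      exact absurd h (by simp)
    | succ m =>
      unfold strip at h hg
      rw [run_node, inner_frm] at h
      unfold LGen at hg
      rw [inner_frm] at hg
      have h1 := ih _ _ _ h hg.2
      exact ⟨h1.1, h1.2.1, hg.1, h1.2.2⟩

theorem strip_complete (τ : Θ) (r : QTree I Θ) (m : ℕ) (u : EuclideanSpace ℝ I)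
    (hu : ∀ σ, 0 < C.val (fun e => u e) σ) (h : r.run C (fun e => u e) = true)
    (hτ : τ ∉ r.vis C (fun e => u e)) (hm : r.lins C (fun e => u e) ≤ m) :
    (strip τ r m true).run u = true := by
  induction r generalizing m with
  | leaf b =>
    unfold strip
    rw [run_leaf, Bool.and_true]
    exact h
  | test σ next ih =>
    unfold QTree.run at h
    unfold QTree.vis at hτ
    unfold QTree.lins at hm
    rw [sign_pos (hu σ)] at h hτ hm
    rw [List.mem_cons, not_or] at hτ
    unfold strip
    have h1 : (true && !decide (σ = τ)) = true := by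
      have : σ ≠ τ := fun h => hτ.1 h.symm
      simp [this]
    rw [h1]
    exact ih 1 m h hτ.2 hm
  | lin L next ih =>
    unfold QTree.run at h
    unfold QTree.vis at hτ
    unfold QTree.lins at hm
    cases m with
    | zero => exact absurd hm (by omega)
    | succ m =>
      unfold strip
      rw [run_node, inner_frm]
      exact ih _ m h hτ (Nat.le_of_succ_le_succ hm)

/-- genericity at the base point, from the stripped tree: all tests of the original tree -/
theorem gen_of (r : QTree I Θ) (hr : r.NZ) (P : EuclideanSpace ℝ I) :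
    ∀ᵐ g ∂(stdGaussian (EuclideanSpace ℝ I)), r.Gen C (fun e => (P + g) e) := by
  induction r with
  | leaf b => exact Eventually.of_forall fun g => trivial
  | test σ next ih =>
    have h1 : ∀ᵐ g ∂(stdGaussian (EuclideanSpace ℝ I)), ∀ s,
        (next s).Gen C (fun e => (P + g) e) := ae_all_iff.2 fun s => ih s (hr s)
    filter_upwards [h1] with g hg
    unfold QTree.Gen
    exact hg _
  | lin L next ih =>
    have h1 : ∀ᵐ g ∂(stdGaussian (EuclideanSpace ℝ I)), ∀ s,
        (next s).Gen C (fun e => (P + g) e) := ae_all_iff.2 fun s => ih s (hr.2 s)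
    filter_upwards [h1, ae_ne' (frm_ne hr.1) (-⟪frm L, P⟫)] with g hg h2
    unfold QTree.Gen
    refine ⟨?_, hg _⟩
    rw [← inner_frm, inner_add_right]
    intro h3
    exact h2 (by linarith)

/-! ### the forms -/

/-- the conditions on the forms -/
structure Conf.Nice [Fintype Θ] (C : Conf I X Θ) (lam : ℝ) : Prop where
  sq : ∀ τ, ∑ e, C.form τ e * C.form τ e = 3
  ip : ∀ σ τ, σ ≠ τ → ∑ e, C.form σ e * C.form τ e ≤ 1
  one : ∃ u₀ : I → ℝ, ∀ τ, C.val u₀ τ = 1
  lam0 : 0 ≤ lam
  sum : ∀ v : I → ℝ, ∑ τ, C.val v τ ^ 2 ≤ lam * ∑ e, v e ^ 2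

variable [Fintype Θ]

theorem Conf.Nice.norm {lam : ℝ} (h : C.Nice lam) (τ : Θ) : ‖frm (C.form τ)‖ ^ 2 = 3 := by
  rw [← real_inner_self_eq_norm_sq, inner_frm]
  exact h.sq τ

theorem Conf.Nice.sum_proj {lam : ℝ} (h : C.Nice lam)
    (K : Submodule ℝ (EuclideanSpace ℝ I)) :
    ∑ τ, ‖K.orthogonalProjectionOnto (frm (C.form τ))‖ ^ 2 ≤ lam * Module.finrank ℝ K := by
  have b := stdOrthonormalBasis ℝ K
  have h1 : ∀ τ, ‖K.orthogonalProjectionOnto (frm (C.form τ))‖ ^ 2 =
      ∑ i, C.val (fun e => (b i : EuclideanSpace ℝ I) e) τ ^ 2 := by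
    intro τ
    rw [← b.sum_sq_norm_inner_right (K.orthogonalProjectionOnto (frm (C.form τ)))]
    refine sum_congr rfl fun i _ => ?_
    rw [← inner_val, Submodule.inner_orthogonalProjectionOnto_eq_of_mem_left, Real.norm_eq_abs,
      sq_abs, real_inner_comm]
  rw [sum_congr rfl fun t _ => h1 t, sum_comm]
  have h2 : ∀ i, ∑ τ, C.val (fun e => (b i : EuclideanSpace ℝ I) e) τ ^ 2 ≤ lam := by
    intro i
    refine (h.sum fun e => (b i : EuclideanSpace ℝ I) e).trans (le_of_eq ?_)
    have h3 : ∑ e, (b i : EuclideanSpace ℝ I) e ^ 2 = 1 := by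
      have h4 : ‖(b i : EuclideanSpace ℝ I)‖ = 1 := b.orthonormal.1 i
      have h5 := EuclideanSpace.norm_sq_eq (b i : EuclideanSpace ℝ I)
      rw [h4] at h5
      simp only [Real.norm_eq_abs, sq_abs] at h5
      rw [← h5]
      norm_num
    rw [h3, mul_one]
  refine (sum_le_sum fun i _ => h2 i).trans ?_
  rw [sum_const, card_univ, Fintype.card_fin, nsmul_eq_mul]
  exact le_of_eq (by ring)

theorem Conf.Nice.sum_dir {lam : ℝ} (h : C.Nice lam) (ls : List (EuclideanSpace ℝ I)) :
    ∑ τ, ‖dir (frm (C.form τ)) ls‖ ^ 2 ≤ lam * ls.length := by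
  classical
  refine (h.sum_proj (spn ls)).trans ?_
  have hdim : Module.finrank ℝ (spn ls) ≤ ls.length := by
    unfold spn
    have e : {x : EuclideanSpace ℝ I | x ∈ ls} =
        ((ls.toFinset : Finset (EuclideanSpace ℝ I)) : Set (EuclideanSpace ℝ I)) := by
      ext x
      simp
    rw [e]
    exact (finrank_span_finset_le_card _).trans (List.toFinset_card_le _)
  have : (Module.finrank ℝ (spn ls) : ℝ) ≤ ls.length := by exact_mod_cast hdim
  exact mul_le_mul_of_nonneg_left this h.lam0

/-- the set of noises which are small for all forms -/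
def small (C : Conf I X Θ) (a : ℝ) : Set (EuclideanSpace ℝ I) :=
  {g | ∀ τ, |⟪frm (C.form τ), g⟫| < a}

theorem small_meas (C : Conf I X Θ) (a : ℝ) : MeasurableSet (small C a) := by
  have e : small C a = ⋂ τ, {g : EuclideanSpace ℝ I | |⟪frm (C.form τ), g⟫| < a} := by
    ext g
    simp [small]
  rw [e]
  refine MeasurableSet.iInter fun s => measurableSet_lt ?_ measurable_const
  fun_prop

theorem tail2 (v : EuclideanSpace ℝ I) {a : ℝ} (ha : 0 ≤ a) (hv : 0 < ‖v‖) :
    (stdGaussian (EuclideanSpace ℝ I)).real {g | a ≤ |⟪v, g⟫|} ≤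
      2 * Real.exp (-(a ^ 2 / (2 * ‖v‖ ^ 2))) := by
  have h1 := tail v ha hv
  have h2 := tail (-v) ha (by rwa [norm_neg])
  rw [norm_neg] at h2
  have hsub : {g : EuclideanSpace ℝ I | a ≤ |⟪v, g⟫|} ⊆ {g | a ≤ ⟪v, g⟫} ∪ {g | a ≤ ⟪-v, g⟫} := by
    intro g hg
    rw [Set.mem_union, Set.mem_ofPred_eq, Set.mem_ofPred_eq, inner_neg_left]
    exact le_abs.1 hg
  have h3 := (measureReal_mono hsub (measure_ne_top (stdGaussian (EuclideanSpace ℝ I)) _)).trans
    (measureReal_union_le _ _)
  linarith

theorem exp5 : 2 * Real.exp (-5) ≤ 1 / 70 := by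
  have h1 := Real.exp_one_gt_d9
  have h2 : (140 : ℝ) ≤ Real.exp 5 := by
    have : Real.exp 5 = Real.exp 1 ^ 5 := by
      rw [← Real.exp_nat_mul]
      norm_num
    rw [this]
    calc (140 : ℝ) ≤ (2.7 : ℝ) ^ 5 := by norm_num
      _ ≤ Real.exp 1 ^ 5 := pow_le_pow_left₀ (by norm_num) (by linarith) 5
  rw [Real.exp_neg]
  have h3 : (Real.exp 5)⁻¹ ≤ 140⁻¹ := inv_anti₀ (by norm_num) h2
  linarith

theorem small_compl {lam : ℝ} (h : C.Nice lam) (hM : 0 < Fintype.card Θ) :
    (stdGaussian (EuclideanSpace ℝ I)).real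
      (small C √(6 * (Real.log (Fintype.card Θ) + 5)))ᶜ ≤ 1 / 70 := by
  obtain ⟨M, hMd⟩ : ∃ M : ℝ, M = Fintype.card Θ := ⟨_, rfl⟩
  have hM0 : 0 < M := by rw [hMd]; exact_mod_cast hM
  have hM1 : 1 ≤ M := by rw [hMd]; exact_mod_cast hM
  rw [← hMd]
  obtain ⟨a, ha⟩ : ∃ a, a = √(6 * (Real.log M + 5)) := ⟨_, rfl⟩
  have hlog : 0 ≤ Real.log M := Real.log_nonneg hM1
  have ha0 : 0 ≤ a := by rw [ha]; exact Real.sqrt_nonneg _
  have ha2 : a ^ 2 = 6 * (Real.log M + 5) := by rw [ha, Real.sq_sqrt (by positivity)]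
  rw [← ha]
  have hexp : Real.exp (-(Real.log M + 5)) = Real.exp (-5) / M := by
    have : -(Real.log M + 5) = -5 - Real.log M := by ring
    rw [this, Real.exp_sub, Real.exp_log hM0]
  have h1 : ∀ τ, (stdGaussian (EuclideanSpace ℝ I)).real {g | a ≤ |⟪frm (C.form τ), g⟫|} ≤
      2 * (Real.exp (-5) / M) := by
    intro τ
    have hv := h.norm τ
    have hv0 : 0 < ‖frm (C.form τ)‖ := by
      rcases (norm_nonneg (frm (C.form τ))).eq_or_lt with h | h
      · rw [← h] at hv
        norm_num at hv
      · exact h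
    refine (tail2 _ ha0 hv0).trans (le_of_eq ?_)
    rw [hv, ha2, ← hexp]
    congr 2
    ring
  have hsub : (small C a)ᶜ ⊆ ⋃ τ ∈ (univ : Finset Θ),
      {g : EuclideanSpace ℝ I | a ≤ |⟪frm (C.form τ), g⟫|} := by
    intro g hg
    rw [Set.mem_compl_iff, small, Set.mem_ofPred_eq, not_forall] at hg
    obtain ⟨s, hs⟩ := hg
    rw [Set.mem_iUnion₂]
    exact ⟨s, mem_univ _, not_lt.1 hs⟩
  refine (measureReal_mono hsub (measure_ne_top _ _)).trans ?_
  refine (measureReal_biUnion_finset_le _ _).trans ?_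
  refine (sum_le_sum fun τ _ => h1 τ).trans ?_
  rw [sum_const, nsmul_eq_mul, card_univ, ← hMd]
  have : M * (2 * (Real.exp (-5) / M)) = 2 * Real.exp (-5) := by field_simp
  rw [this]
  exact exp5

end Pool.Agent.N575.ZT
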