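import Mathlib
import Pool.Agent.N575.ZT.Strip
import Pool.Agent.N575.LDT.Asm

/-!
# The lower bound for the reduced trees, errors on both sides
-/

set_option autoImplicit false

namespace Pool.Agent.N575.ZT

open Filter Topology Finset MeasureTheory ProbabilityTheory
open scoped RealInnerProductSpace
open Pool.Agent.N575.LDT (LTree run_leaf run_node path_leaf path_node dir spn tail acc acc_nonneg
  acc_le norm_dir_le measurable_tree)

variable {I X Θ : Type} [Fintype I] [Finite X] [DecidableEq Θ] [Fintype Θ] {C : Conf I X Θ}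

theorem yes_point {ι : Type} [Fintype ι] {p : ι → ℝ} (hp : ∀ i, 0 ≤ p i) (R : ι → QTree I Θ)
    {T q : ℝ} {m : ℕ} (hm : 9 * q ≤ m + 1) (u : EuclideanSpace ℝ I)
    (hpos : ∀ σ, 0 < C.val (fun e => u e) σ)
    (hy : 2 / 3 ≤ ∑ i, p i * acc ((R i).run C (fun e => u e)))
    (hT : ∑ i, p i * ((R i).vis C (fun e => u e)).length ≤ T)
    (hq : ∑ i, p i * (R i).lins C (fun e => u e) ≤ q) :
    5 / 9 * (Fintype.card Θ : ℝ) - T ≤ ∑ τ : Θ, ∑ i, p i * acc ((strip τ (R i) m true).run u) := by
  classical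
  obtain ⟨w, hw⟩ : ∃ w : I → ℝ, w = fun e => u e := ⟨_, rfl⟩
  rw [← hw] at hpos hy hT hq
  have hm0 : (0 : ℝ) < m + 1 := by positivity
  have hpt : ∀ (τ : Θ) (i : ι), acc ((R i).run C w) -
      (if τ ∈ (R i).vis C w then (1 : ℝ) else 0) -
      (R i).lins C w / (m + 1 : ℝ) ≤ acc ((strip τ (R i) m true).run u) := by
    intro τ i
    have hl0 : (0 : ℝ) ≤ (R i).lins C w / (m + 1 : ℝ) := by positivity
    by_cases h1 : (R i).run C w = true
    · by_cases h2 : τ ∈ (R i).vis C w
      · rw [if_pos h2]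
        linarith [acc_le ((R i).run C w), acc_nonneg ((strip τ (R i) m true).run u)]
      · by_cases h3 : (R i).lins C w ≤ m
        · rw [strip_complete (C := C) τ (R i) m u (by rw [← hw]; exact hpos) (by rw [← hw]; exact h1)
            (by rw [← hw]; exact h2) (by rw [← hw]; exact h3), if_neg h2]
          have : acc true = 1 := by unfold acc; rw [if_pos rfl]
          rw [this]
          linarith [acc_le ((R i).run C w)]
        · push Not at h3
          have h4 : (1 : ℝ) ≤ (R i).lins C w / (m + 1 : ℝ) := by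
            rw [le_div_iff₀ hm0, one_mul]
            exact_mod_cast h3
          rw [if_neg h2]
          linarith [acc_le ((R i).run C w), acc_nonneg ((strip τ (R i) m true).run u)]
    · have h6 : acc ((R i).run C w) = 0 := by
        unfold acc
        rw [if_neg h1]
      have h5 : (0 : ℝ) ≤ (if τ ∈ (R i).vis C w then (1 : ℝ) else 0) := by
        split_ifs
        · exact zero_le_one
        · exact le_rfl
      linarith [acc_nonneg ((strip τ (R i) m true).run u)]
  have hsum : ∑ τ : Θ, ∑ i, p i * (acc ((R i).run C w) -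
      (if τ ∈ (R i).vis C w then (1 : ℝ) else 0) -
      (R i).lins C w / (m + 1 : ℝ)) ≤
      ∑ τ : Θ, ∑ i, p i * acc ((strip τ (R i) m true).run u) :=
    sum_le_sum fun τ _ => sum_le_sum fun i _ => mul_le_mul_of_nonneg_left (hpt τ i) (hp i)
  refine le_trans ?_ hsum
  simp only [mul_sub, sum_sub_distrib]
  have e1 : ∑ _τ : Θ, ∑ i, p i * acc ((R i).run C w) =
      (Fintype.card Θ : ℝ) * ∑ i, p i * acc ((R i).run C w) := by
    rw [sum_const, nsmul_eq_mul, card_univ]
  have e2 : ∑ _τ : Θ, ∑ i, p i * ((R i).lins C w / (m + 1 : ℝ)) =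
      (Fintype.card Θ : ℝ) * ((∑ i, p i * (R i).lins C w) / (m + 1)) := by
    rw [sum_const, nsmul_eq_mul, card_univ, sum_div]
    congr 1
    exact sum_congr rfl fun i _ => by ring
  have e3 : ∑ τ : Θ, ∑ i, p i * (if τ ∈ (R i).vis C w then (1 : ℝ) else 0) ≤ T := by
    rw [sum_comm]
    refine le_trans (sum_le_sum fun i _ => ?_) hT
    rw [← mul_sum]
    refine mul_le_mul_of_nonneg_left ?_ (hp i)
    have h : (univ.filter fun τ => τ ∈ (R i).vis C w).card ≤ ((R i).vis C w).length :=
      (card_le_card fun τ h => List.mem_toFinset.2 (mem_filter.1 h).2).trans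
        (List.toFinset_card_le _)
    rw [sum_boole]
    exact_mod_cast h
  have h7 : (∑ i, p i * (R i).lins C w) / (m + 1 : ℝ) ≤ 1 / 9 := by
    rw [div_le_iff₀ hm0]
    linarith
  rw [e1, e2]
  have hn0 : (0 : ℝ) ≤ (Fintype.card Θ : ℝ) := by positivity
  have h8 := mul_le_mul_of_nonneg_left h7 hn0
  have h9 := mul_le_mul_of_nonneg_left hy hn0
  linarith

open Classical in
/-- the probability of a generic acceptance -/
noncomputable def gacc {ι : Type} [Fintype ι] (C : Conf I X Θ) (p : ι → ℝ) (R : ι → QTree I Θ)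
    (w : I → ℝ) : ℝ :=
  ∑ i, if (R i).run C w = true ∧ (R i).Gen C w then p i else 0

theorem no_point {ι : Type} [Fintype ι] {p : ι → ℝ} (hp : ∀ i, 0 ≤ p i) (R : ι → QTree I Θ)
    (m : ℕ) (τ : Θ) (s : EuclideanSpace ℝ I) (u : EuclideanSpace ℝ I)
    (hpos : ∀ σ, σ ≠ τ → 0 < C.val (fun e => u e) σ)
    (hg : ∀ i, LGen (prune s (strip τ (R i) m true) []) u)
    (hn : gacc C p R (fun e => u e) ≤ 1 / 3) :
    ∑ i, p i * acc ((prune s (strip τ (R i) m true) []).run u) ≤ 1 / 3 := by
  classical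
  refine le_trans (sum_le_sum fun i _ => ?_) hn
  by_cases h : (prune s (strip τ (R i) m true) []).run u = true
  · have h1 := prune_sound s _ [] u h (hg i)
    have h2 := strip_sound (C := C) τ (R i) m true u hpos h1.1 h1.2
    rw [if_pos ⟨h2.1, h2.2.2⟩]
    calc p i * acc ((prune s (strip τ (R i) m true) []).run u) ≤ p i * 1 :=
          mul_le_mul_of_nonneg_left (acc_le _) (hp i)
      _ = p i := mul_one _
  · have : acc ((prune s (strip τ (R i) m true) []).run u) = 0 := by
      unfold acc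
      rw [if_neg h]
    rw [this, mul_zero]
    split_ifs
    · exact hp i
    · exact le_rfl

theorem int_acc' {E : Type} [NormedAddCommGroup E] [InnerProductSpace ℝ E]
    [FiniteDimensional ℝ E] [MeasurableSpace E] [BorelSpace E] (r : LTree E) {S : E → E}
    (hS : Measurable S) (μ : Measure E) [IsFiniteMeasure μ] :
    Integrable (fun g => acc (r.run (S g))) μ ∧
      ∫ g, acc (r.run (S g)) ∂μ = μ.real {g | r.run (S g) = true} := by
  have hm := run_meas r hS
  have e : (fun g => acc (r.run (S g))) =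
      {g | r.run (S g) = true}.indicator (fun _ => (1 : ℝ)) := by
    funext g
    unfold acc
    by_cases h : r.run (S g) = true
    · rw [if_pos h, Set.indicator_of_mem (by exact h)]
    · rw [if_neg h, Set.indicator_of_notMem (by exact h)]
  rw [e]
  refine ⟨(integrable_const _).indicator hm, ?_⟩
  rw [integral_indicator hm, setIntegral_const, smul_eq_mul, mul_one]

theorem core {ι : Type} [Fintype ι] {p : ι → ℝ} (hp : ∀ i, 0 ≤ p i) (hp1 : ∑ i, p i = 1)
    (R : ι → QTree I Θ) (hNZ : ∀ i, (R i).NZ) {lam : ℝ} (hC : C.Nice lam)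
    (hM : 0 < Fintype.card Θ) {T q : ℝ}
    (hy : ∀ u : I → ℝ, (∀ i, (R i).Gen C u) → (∀ σ, 0 < C.val u σ) →
      2 / 3 ≤ ∑ i, p i * acc ((R i).run C u) ∧
      ∑ i, p i * ((R i).vis C u).length ≤ T ∧ ∑ i, p i * (R i).lins C u ≤ q)
    (hn : ∀ (u : I → ℝ) (τ : Θ), C.val u τ = 0 → (∀ σ, σ ≠ τ → 0 < C.val u σ) →
      gacc C p R u ≤ 1 / 3) :
    (Fintype.card Θ : ℝ) ≤ 5 * T +
      66 * √(Fintype.card Θ * lam * q * (Real.log (Fintype.card Θ) + 5)) := by
  have hsc := small_compl hC hM
  obtain ⟨M, hMd⟩ : ∃ M : ℝ, M = Fintype.card Θ := ⟨_, rfl⟩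
  have hM0 : 0 < M := by rw [hMd]; exact_mod_cast hM
  have hM1 : 1 ≤ M := by rw [hMd]; exact_mod_cast hM
  rw [← hMd] at hsc ⊢
  obtain ⟨ℓ, hℓ⟩ : ∃ ℓ, ℓ = Real.log M + 5 := ⟨_, rfl⟩
  have hlog : 0 ≤ Real.log M := Real.log_nonneg hM1
  have hℓ5 : 5 ≤ ℓ := by rw [hℓ]; linarith
  have hℓ0 : 0 < ℓ := by linarith
  rw [← hℓ] at hsc ⊢
  obtain ⟨a, ha⟩ : ∃ a, a = √(6 * ℓ) := ⟨_, rfl⟩
  rw [← ha] at hsc
  have ha0 : 0 < a := by rw [ha]; exact Real.sqrt_pos.2 (by positivity)
  have ha2 : a ^ 2 = 6 * ℓ := by rw [ha, Real.sq_sqrt (by positivity)]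
  obtain ⟨N, hN⟩ : ∃ N, N = small C a := ⟨_, rfl⟩
  have hNm : MeasurableSet N := by rw [hN]; exact small_meas C a
  rw [← hN] at hsc
  obtain ⟨μ, hμ⟩ : ∃ μ, μ = stdGaussian (EuclideanSpace ℝ I) := ⟨_, rfl⟩
  have : IsProbabilityMeasure μ := by rw [hμ]; infer_instance
  rw [← hμ] at hsc
  have hN1 : μ.real N = 1 - μ.real Nᶜ := by
    have := probReal_add_probReal_compl (μ := μ) hNm
    linarith
  obtain ⟨u₀, hu₀⟩ := hC.one
  obtain ⟨P, hP⟩ : ∃ P : EuclideanSpace ℝ I, P = (2 * a) • frm u₀ := ⟨_, rfl⟩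
  have hPval : ∀ τ, ⟪frm (C.form τ), P⟫ = 2 * a := by
    intro τ
    rw [hP, inner_smul_right, inner_frm]
    have : ∑ e, C.form τ e * (frm u₀) e = 1 := hu₀ τ
    rw [this, mul_one]
  have hnorm : ∀ τ, ‖frm (C.form τ)‖ ^ 2 = 3 := hC.norm
  -- genericity
  have hgen : ∀ᵐ g ∂μ, ∀ i, (R i).Gen C (fun e => (P + g) e) := by
    rw [hμ]
    exact ae_all_iff.2 fun i => gen_of (R i) (hNZ i) P
  -- the base weights
  have hbase : ∀ g ∈ N, ∀ τ, 0 < C.val (fun e => (P + g) e) τ := by
    intro g hg τ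
    rw [← inner_val, inner_add_right, hPval]
    rw [hN] at hg
    have := (abs_lt.1 (hg τ)).1
    linarith
  -- nonnegativity of the bounds
  obtain ⟨g₀, hg₀N, hg₀⟩ : ∃ g, g ∈ N ∧ ∀ i, (R i).Gen C (fun e => (P + g) e) := by
    by_contra! hc
    have h1 : μ N ≤ 0 := by
      rw [← ae_iff.1 hgen]
      refine measure_mono fun g hg => ?_
      obtain ⟨i, hi⟩ := hc g hg
      exact fun h => hi (h i)
    have h2 : μ.real N = 0 := by
      unfold Measure.real
      rw [le_antisymm h1 zero_le, ENNReal.toReal_zero]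
    rw [h2] at hN1
    linarith
  have hthird := hy _ hg₀ (hbase g₀ hg₀N)
  have hT0 : 0 ≤ T := le_trans (sum_nonneg fun i _ => mul_nonneg (hp i) (Nat.cast_nonneg _)) hthird.2.1
  have hq0 : 0 ≤ q := le_trans (sum_nonneg fun i _ => mul_nonneg (hp i) (Nat.cast_nonneg _)) hthird.2.2
  obtain ⟨m, hm⟩ : ∃ m : ℕ, m = ⌊9 * q⌋₊ := ⟨_, rfl⟩
  have hm1 : 9 * q ≤ m + 1 := by rw [hm]; exact (Nat.lt_floor_add_one _).le
  have hm2 : (m : ℝ) ≤ 9 * q := by rw [hm]; exact Nat.floor_le (by positivity)
  obtain ⟨r, hr⟩ : ∃ r : Θ → ι → LTree (EuclideanSpace ℝ I),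
      r = fun τ i => strip τ (R i) m true := ⟨_, rfl⟩
  have hlam0 := hC.lam0
  -- genericity of the projected points
  have hgen2 : ∀ᵐ g ∂μ, ∀ (τ : Θ) (i : ι), LGen (prune (frm (C.form τ)) (r τ i) [])
      (P + g - cf P (frm (C.form τ)) g • frm (C.form τ)) := by
    rw [hμ]
    refine ae_all_iff.2 fun τ => ae_all_iff.2 fun i => lgen_ae ?_ _ ?_ _ _
    · intro h
      have := hnorm τ
      rw [h] at this
      simp at this
    · rw [hr]
      exact strip_nz τ (R i) (hNZ i) m true
  -- the integrals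
  have hFi : ∀ τ i, Integrable (fun g => p i * acc ((r τ i).run (P + g))) μ := by
    intro τ i
    exact (int_acc' (r τ i) (measurable_const_add P) μ).1.const_mul _
  have hFI : Integrable (fun g => ∑ τ : Θ, ∑ i, p i * acc ((r τ i).run (P + g))) μ :=
    integrable_finsetSum _ fun τ _ => integrable_finsetSum _ fun i _ => hFi τ i
  have h1 : (5 / 9 * M - T) * μ.real N ≤
      ∑ τ : Θ, ∑ i, p i * (nu (frm (C.form τ)) a).real {g | (r τ i).run (P + g) = true} := by
    have h2 : ∫ _g in N, (5 / 9 * M - T) ∂μ ≤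
        ∫ g in N, (∑ τ : Θ, ∑ i, p i * acc ((r τ i).run (P + g))) ∂μ := by
      refine setIntegral_mono_on_ae (integrable_const _).integrableOn hFI.integrableOn hNm ?_
      filter_upwards [hgen] with g hg1 hg
      have h3 := hy _ hg1 (hbase g hg)
      have h4 := yes_point hp R (T := T) (q := q) hm1 (P + g) (hbase g hg) h3.1 h3.2.1 h3.2.2
      rw [← hMd] at h4
      rw [hr]
      exact h4
    rw [setIntegral_const, smul_eq_mul, mul_comm] at h2
    refine h2.trans ?_
    rw [integral_finsetSum _ fun τ _ => (integrable_finsetSum _ fun i _ => hFi τ i).integrableOn]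
    refine sum_le_sum fun τ _ => ?_
    rw [integral_finsetSum _ fun i _ => (hFi τ i).integrableOn]
    refine sum_le_sum fun i _ => ?_
    rw [integral_const_mul]
    refine mul_le_mul_of_nonneg_left ?_ (hp i)
    rw [(int_acc' (r τ i) (measurable_const_add P) (μ.restrict N)).2]
    have hle : μ.restrict N ≤ nu (frm (C.form τ)) a := by
      unfold nu
      rw [← hμ]
      refine Measure.restrict_mono ?_ le_rfl
      intro g hg
      rw [hN] at hg
      exact hg τ
    exact ENNReal.toReal_mono (measure_ne_top _ _) (hle _)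
  have h2 : ∀ τ : Θ, ∑ i, p i * (nu (frm (C.form τ)) a).real
      {g | (prune (frm (C.form τ)) (r τ i) []).run
        (P + g - cf P (frm (C.form τ)) g • frm (C.form τ)) = true} ≤ 1 / 3 + μ.real Nᶜ := by
    intro τ
    obtain ⟨s, hs⟩ : ∃ s, s = frm (C.form τ) := ⟨_, rfl⟩
    have hgs : ∀ᵐ g ∂μ, ∀ i : ι, LGen (prune s (r τ i) []) (P + g - cf P s g • s) := by
      filter_upwards [hgen2] with g hg i
      have := hg τ i
      rw [← hs] at this
      exact this
    have hs3 : ‖s‖ ^ 2 = 3 := by rw [hs]; exact hnorm τ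
    have hPs : ⟪s, P⟫ = 2 * a := by rw [hs]; exact hPval τ
    rw [← hs]
    have hGi : ∀ i, Integrable (fun g => p i * acc ((prune s (r τ i) []).run
        (P + g - cf P s g • s))) μ := fun i =>
      (int_acc' _ (proj_meas P s) μ).1.const_mul _
    have e1 : ∑ i, p i * (nu s a).real {g | (prune s (r τ i) []).run
        (P + g - cf P s g • s) = true} = ∫ g in Xs s a, (∑ i, p i *
          acc ((prune s (r τ i) []).run (P + g - cf P s g • s))) ∂μ := by
      rw [integral_finsetSum _ fun i _ => (hGi i).integrableOn]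
      refine sum_congr rfl fun i _ => ?_
      rw [integral_const_mul, hμ]
      congr 1
      exact (int_acc' _ (proj_meas P s) (nu s a)).2.symm
    rw [e1]
    have hGI : Integrable (fun g => ∑ i, p i * acc ((prune s (r τ i) []).run
        (P + g - cf P s g • s))) μ := integrable_finsetSum _ fun i _ => hGi i
    have h3 : ∀ᵐ g ∂(μ.restrict (Xs s a)), (∑ i, p i * acc ((prune s (r τ i) []).run
        (P + g - cf P s g • s))) ≤ 1 / 3 + Nᶜ.indicator (fun _ => (1 : ℝ)) g := by
      filter_upwards [ae_restrict_mem (Xs_meas s a), ae_restrict_of_ae hgs] with g hgX hg2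
      by_cases hg : g ∈ N
      · rw [Set.indicator_of_notMem (Set.notMem_compl_iff.2 hg), add_zero]
        have hy2 := abs_lt.1 (show |⟪s, g⟫| < a from hgX)
        have hcf : cf P s g = (2 * a + ⟪s, g⟫) / 3 := by
          unfold cf
          rw [inner_add_right, hPs, hs3]
        have hc0 : 0 ≤ cf P s g := by rw [hcf]; linarith
        have hc1 : cf P s g ≤ a := by rw [hcf]; linarith
        have hpos : ∀ σ, σ ≠ τ → 0 < C.val (fun e => (P + g - cf P s g • s) e) σ := by
          intro σ hσ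
          rw [← inner_val, inner_sub_right, inner_add_right, hPval, inner_smul_right]
          have h5 : ⟪frm (C.form σ), s⟫ ≤ 1 := by
            rw [hs, inner_frm]
            exact hC.ip σ τ hσ
          rw [hN] at hg
          have h6 := (abs_lt.1 (hg σ)).1
          have h7 := mul_le_mul_of_nonneg_left h5 hc0
          linarith
        have hzero : C.val (fun e => (P + g - cf P s g • s) e) τ = 0 := by
          rw [← inner_val, ← hs, inner_sub_right, inner_smul_right, real_inner_self_eq_norm_sq,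
            hs3]
          unfold cf
          rw [hs3]
          field_simp
          ring
        rw [hr]
        refine no_point (C := C) hp R m τ s _ hpos ?_ (hn _ τ hzero hpos)
        intro i
        have := hg2 i
        rw [hr] at this
        exact this
      · rw [Set.indicator_of_mem hg]
        have h4 : ∑ i, p i * acc ((prune s (r τ i) []).run (P + g - cf P s g • s)) ≤ 1 := by
          rw [← hp1]
          refine sum_le_sum fun i _ => ?_
          calc p i * acc ((prune s (r τ i) []).run (P + g - cf P s g • s)) ≤ p i * 1 :=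
                mul_le_mul_of_nonneg_left (acc_le _) (hp i)
            _ = p i := mul_one _
        linarith
    have hi : Integrable (fun g => 1 / 3 + Nᶜ.indicator (fun _ => (1 : ℝ)) g) μ :=
      (integrable_const _).add ((integrable_const _).indicator hNm.compl)
    calc ∫ g in Xs s a, (∑ i, p i * acc ((prune s (r τ i) []).run (P + g - cf P s g • s))) ∂μ
        ≤ ∫ g in Xs s a, (1 / 3 + Nᶜ.indicator (fun _ => (1 : ℝ)) g) ∂μ :=
          integral_mono_ae hGI.integrableOn hi.integrableOn h3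
      _ ≤ ∫ g, (1 / 3 + Nᶜ.indicator (fun _ => (1 : ℝ)) g) ∂μ := by
          refine setIntegral_le_integral hi (Eventually.of_forall fun g => ?_)
          have : 0 ≤ Nᶜ.indicator (fun _ => (1 : ℝ)) g :=
            Set.indicator_nonneg (fun _ _ => zero_le_one) g
          show 0 ≤ 1 / 3 + Nᶜ.indicator (fun _ => (1 : ℝ)) g
          linarith
      _ = 1 / 3 + μ.real Nᶜ := by
          rw [integral_add (integrable_const _) ((integrable_const _).indicator hNm.compl),
            integral_indicator hNm.compl, setIntegral_const, integral_const]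
          simp
  -- the main inequality
  have h3 : ∑ τ : Θ, ∑ i, p i * (nu (frm (C.form τ)) a).real {g | (r τ i).run (P + g) = true} ≤
      ∑ τ : Θ, ∑ i, p i * (nu (frm (C.form τ)) a).real
        {g | (prune (frm (C.form τ)) (r τ i) []).run
          (P + g - cf P (frm (C.form τ)) g • frm (C.form τ)) = true} +
      ∑ τ : Θ, ∑ i, p i * (√(3 / 2 * a ^ 2 *
        ∫ g, ‖dir (frm (C.form τ)) ((r τ i).path (P + g))‖ ^ 2
          ∂(stdGaussian (EuclideanSpace ℝ I))) +
        ∫ g, ‖dir (frm (C.form τ)) ((r τ i).path (P + g))‖ ^ 2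
          ∂(stdGaussian (EuclideanSpace ℝ I))) := by
    rw [← sum_add_distrib]
    refine sum_le_sum fun τ _ => ?_
    rw [← sum_add_distrib]
    refine sum_le_sum fun i _ => ?_
    rw [← mul_add]
    refine mul_le_mul_of_nonneg_left ?_ (hp i)
    have h4 := main_zz (a := a) (K := a) (hnorm τ) (r τ i) P (by
      rw [hPval, abs_of_pos (by positivity)]
      linarith) ha0.le
    linarith
  -- the bound for the projections
  have h4 : ∀ i, ∑ τ : Θ, (√(3 / 2 * a ^ 2 *
        ∫ g, ‖dir (frm (C.form τ)) ((r τ i).path (P + g))‖ ^ 2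
          ∂(stdGaussian (EuclideanSpace ℝ I))) +
        ∫ g, ‖dir (frm (C.form τ)) ((r τ i).path (P + g))‖ ^ 2
          ∂(stdGaussian (EuclideanSpace ℝ I))) ≤ 9 * √(M * lam * q * ℓ) + 9 * (lam * q) := by
    intro i
    obtain ⟨D, hD⟩ : ∃ D : Θ → ℝ, D = fun τ =>
      ∫ g, ‖dir (frm (C.form τ)) ((r τ i).path (P + g))‖ ^ 2
        ∂(stdGaussian (EuclideanSpace ℝ I)) := ⟨_, rfl⟩
    have hD0 : ∀ τ, 0 ≤ D τ := fun τ => by
      rw [hD]; exact integral_nonneg fun g => sq_nonneg _
    have hDs : ∑ τ, D τ ≤ lam * m := by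
      rw [hD]
      dsimp only
      have hi : ∀ τ : Θ, Integrable
          (fun g => ‖dir (frm (C.form τ)) ((r τ i).path (P + g))‖ ^ 2)
          (stdGaussian (EuclideanSpace ℝ I)) := by
        intro τ
        have hF : Measurable fun g : EuclideanSpace ℝ I =>
            dir (frm (C.form τ)) ((r τ i).path (P + g)) :=
          (measurable_tree (r τ i) fun _ l => dir (frm (C.form τ)) l).comp (measurable_const_add P)
        refine (integrable_const (‖frm (C.form τ)‖ ^ 2)).mono'
          ((hF.norm.pow_const 2).aestronglyMeasurable) ?_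
        refine Filter.Eventually.of_forall fun g => ?_
        rw [Real.norm_eq_abs, abs_of_nonneg (sq_nonneg _)]
        exact pow_le_pow_left₀ (norm_nonneg _) (norm_dir_le _ _) 2
      rw [← integral_finsetSum _ fun τ _ => hi τ]
      have hb' : ∀ g : EuclideanSpace ℝ I,
          ∑ τ : Θ, ‖dir (frm (C.form τ)) ((r τ i).path (P + g))‖ ^ 2 ≤ lam * m := by
        intro g
        obtain ⟨τ₀⟩ : Nonempty Θ := Fintype.card_pos_iff.1 hM
        have e : ∀ τ : Θ, (r τ i).path (P + g) = (r τ₀ i).path (P + g) := by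
          intro τ
          rw [hr]
          exact strip_indep τ τ₀ (R i) m true true (P + g)
        rw [sum_congr rfl fun τ _ => by rw [e τ]]
        refine (hC.sum_dir _).trans ?_
        refine mul_le_mul_of_nonneg_left ?_ hlam0
        rw [hr]
        exact_mod_cast strip_length τ₀ (R i) m true (P + g)
      calc ∫ g, ∑ τ : Θ, ‖dir (frm (C.form τ)) ((r τ i).path (P + g))‖ ^ 2
            ∂(stdGaussian (EuclideanSpace ℝ I))
          ≤ ∫ _g, lam * m ∂(stdGaussian (EuclideanSpace ℝ I)) :=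
            integral_mono (integrable_finsetSum _ fun τ _ => hi τ) (integrable_const _) hb'
        _ = lam * m := by rw [integral_const]; simp
    have hDq : ∑ τ, D τ ≤ 9 * (lam * q) := by
      refine hDs.trans ?_
      calc lam * m ≤ lam * (9 * q) := mul_le_mul_of_nonneg_left hm2 hlam0
        _ = 9 * (lam * q) := by ring
    have h5 : (∑ τ, √(3 / 2 * a ^ 2 * D τ)) ^ 2 ≤ (9 * √(M * lam * q * ℓ)) ^ 2 := by
      have h6 : (∑ τ, √(3 / 2 * a ^ 2 * D τ)) ^ 2 ≤
          (univ : Finset Θ).card * ∑ τ, √(3 / 2 * a ^ 2 * D τ) ^ 2 :=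
        sq_sum_le_card_mul_sum_sq
      have e0 : ∀ τ, √(3 / 2 * a ^ 2 * D τ) ^ 2 = 3 / 2 * a ^ 2 * D τ := fun τ =>
        Real.sq_sqrt (mul_nonneg (by positivity) (hD0 τ))
      rw [card_univ, ← hMd, sum_congr rfl fun τ _ => e0 τ, ← mul_sum] at h6
      refine h6.trans ?_
      rw [mul_pow, Real.sq_sqrt (by positivity), ha2]
      have h7 : M * (3 / 2 * (6 * ℓ) * ∑ τ, D τ) ≤ M * (3 / 2 * (6 * ℓ) * (9 * (lam * q))) :=
        mul_le_mul_of_nonneg_left (mul_le_mul_of_nonneg_left hDq (by positivity)) hM0.le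
      nlinarith
    have h6 := abs_le_of_sq_le_sq h5 (by positivity)
    rw [sum_add_distrib]
    rw [hD] at h6 hDq
    exact add_le_add (abs_le.1 h6).2 hDq
  have h5 : ∑ τ : Θ, ∑ i, p i * (√(3 / 2 * a ^ 2 *
        ∫ g, ‖dir (frm (C.form τ)) ((r τ i).path (P + g))‖ ^ 2
          ∂(stdGaussian (EuclideanSpace ℝ I))) +
        ∫ g, ‖dir (frm (C.form τ)) ((r τ i).path (P + g))‖ ^ 2
          ∂(stdGaussian (EuclideanSpace ℝ I))) ≤ 9 * √(M * lam * q * ℓ) + 9 * (lam * q) := by
    rw [sum_comm]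
    calc ∑ i, ∑ τ : Θ, p i * (√(3 / 2 * a ^ 2 *
        ∫ g, ‖dir (frm (C.form τ)) ((r τ i).path (P + g))‖ ^ 2
          ∂(stdGaussian (EuclideanSpace ℝ I))) +
        ∫ g, ‖dir (frm (C.form τ)) ((r τ i).path (P + g))‖ ^ 2
          ∂(stdGaussian (EuclideanSpace ℝ I)))
        ≤ ∑ i, p i * (9 * √(M * lam * q * ℓ) + 9 * (lam * q)) := by
          refine sum_le_sum fun i _ => ?_
          rw [← mul_sum]
          exact mul_le_mul_of_nonneg_left (h4 i) (hp i)
      _ = 9 * √(M * lam * q * ℓ) + 9 * (lam * q) := by rw [← sum_mul, hp1, one_mul]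
  have h6 : ∑ τ : Θ, ∑ i, p i * (nu (frm (C.form τ)) a).real
        {g | (prune (frm (C.form τ)) (r τ i) []).run
          (P + g - cf P (frm (C.form τ)) g • frm (C.form τ)) = true} ≤
      M * (1 / 3 + μ.real Nᶜ) := by
    refine (sum_le_sum fun τ _ => h2 τ).trans (le_of_eq ?_)
    rw [sum_const, nsmul_eq_mul, card_univ, ← hMd]
  -- conclusion
  obtain ⟨S, hS⟩ : ∃ S, S = √(M * lam * q * ℓ) := ⟨_, rfl⟩
  have hS0 : 0 ≤ S := by rw [hS]; exact Real.sqrt_nonneg _
  have hS2 : S ^ 2 = M * lam * q * ℓ := by rw [hS, Real.sq_sqrt (by positivity)]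
  rw [← hS] at h5 ⊢
  have h7 : (5 / 9 * M - T) * μ.real N ≤ M * (1 / 3 + μ.real Nᶜ) + (9 * S + 9 * (lam * q)) := by
    linarith
  rw [hN1] at h7
  have h8 : M * μ.real Nᶜ ≤ M * (1 / 70) := mul_le_mul_of_nonneg_left hsc hM0.le
  have h9 : 0 ≤ T * μ.real Nᶜ := mul_nonneg hT0 measureReal_nonneg
  have h10 : M ≤ 5 * T + 45 * S + 45 * (lam * q) := by nlinarith
  have hx0 : 0 ≤ lam * q := mul_nonneg hlam0 hq0
  obtain ⟨x, hx⟩ : ∃ x, x = lam * q := ⟨_, rfl⟩
  rw [← hx] at h10 hx0
  have hS2' : S ^ 2 = M * x * ℓ := by rw [hS2, hx]; ring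
  have h5Mx : 5 * (M * x) ≤ S ^ 2 := by
    rw [hS2']
    have : 0 ≤ M * x := mul_nonneg hM0.le hx0
    nlinarith
  rcases le_total x M with hxM | hxM
  · -- `x ≤ 7 / 15 * S`
    have h11 : x ≤ 7 / 15 * S := by
      have h12 : x ^ 2 ≤ (7 / 15 * S) ^ 2 := by
        have : x ^ 2 ≤ M * x := by nlinarith
        nlinarith
      exact (abs_le_of_sq_le_sq h12 (by positivity)).trans' (le_abs_self _)
    linarith
  · have h11 : M ≤ S := by
      have h12 : M ^ 2 ≤ S ^ 2 := by nlinarith
      exact (abs_le_of_sq_le_sq h12 hS0).trans' (le_abs_self _)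
    linarith

end Pool.Agent.N575.ZT
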