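import Mathlib
import Pool.Agent.N575.ZT.Core

/-!
# The lower bound for random decision trees with errors on both sides
-/

set_option autoImplicit false

namespace Pool.Agent.N575.ZT

open Filter Topology Finset
open Pool.Agent.N575.LDT (acc acc_nonneg acc_le)

variable {I X Θ β : Type} [Fintype I] [Finite X] [DecidableEq Θ] [Fintype Θ] {C : Conf I X Θ}

/-- Random decision trees which accept near-degenerate inputs with positive forms, and reject if one
form vanishes. -/
theorem final {ι : Type} [Fintype ι] {p : ι → ℝ} (hp : ∀ i, 0 ≤ p i) (hp1 : ∑ i, p i = 1)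
    (φ : β → Bool) (t : ι → Alg C β) {lam : ℝ} (hC : C.Nice lam) (hM : 0 < Fintype.card Θ)
    {U : Set (X → ℝ)} (hU : IsOpen U) (hUn : U.Nonempty) {T q : ℝ}
    (hy : ∀ x ∈ U, ∀ u : I → ℝ, (∀ σ, 0 < C.val u σ) → ∀ᶠ ε in 𝓝[>] (0 : ℝ),
      2 / 3 ≤ ∑ i, p i * acc (φ ((t i).run (C.pot x + ε • u))) ∧
      ∑ i, p i * (t i).tests (C.pot x + ε • u) ≤ T ∧
      ∑ i, p i * (t i).smooths (C.pot x + ε • u) ≤ q)
    (hn : ∀ x ∈ U, ∀ (u : I → ℝ) (τ : Θ), C.val u τ = 0 → (∀ σ, σ ≠ τ → 0 < C.val u σ) →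
      ∀ᶠ ε in 𝓝[>] (0 : ℝ), ∑ i, p i * acc (φ ((t i).run (C.pot x + ε • u))) ≤ 1 / 3) :
    (Fintype.card Θ : ℝ) ≤ 5 * T +
      66 * √(Fintype.card Θ * lam * q * (Real.log (Fintype.card Θ) + 5)) := by
  classical
  obtain ⟨x, hxU, hx⟩ : ∃ x, x ∈ U ∧ ∀ i, QGood φ (t i) x := by
    have hd : Dense {x | ∀ i, QGood φ (t i) x} :=
      dense_of_mem_residual (eventually_countable_forall.2 fun i => qgood φ (t i))
    obtain ⟨x, h1, h2⟩ := hd.inter_open_nonempty U hU hUn
    exact ⟨x, h1, h2⟩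
  refine core hp hp1 (fun i => red φ (t i) x) (fun i => (hx i).nz) hC hM ?_ ?_
  · intro u hgen hu
    have h1 : ∀ᶠ ε in 𝓝[>] (0 : ℝ), ∀ i, φ ((t i).run (C.pot x + ε • u)) =
        (red φ (t i) x).run C u ∧
        ((red φ (t i) x).vis C u).length = (t i).tests (C.pot x + ε • u) ∧
        (red φ (t i) x).lins C u ≤ (t i).smooths (C.pot x + ε • u) :=
      eventually_all.2 fun i => (hx i).good u (hgen i)
    obtain ⟨ε, h2, h3⟩ := (h1.and (hy x hxU u hu)).exists
    refine ⟨h3.1.trans (le_of_eq ?_), le_trans (le_of_eq ?_) h3.2.1, le_trans ?_ h3.2.2⟩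
    · exact sum_congr rfl fun i _ => by rw [(h2 i).1]
    · exact sum_congr rfl fun i _ => by rw [(h2 i).2.1]
    · refine sum_le_sum fun i _ => mul_le_mul_of_nonneg_left ?_ (hp i)
      exact_mod_cast (h2 i).2.2
  · intro u τ hτ hu
    have h1 : ∀ᶠ ε in 𝓝[>] (0 : ℝ), ∀ i, (red φ (t i) x).Gen C u →
        φ ((t i).run (C.pot x + ε • u)) = (red φ (t i) x).run C u := by
      refine eventually_all.2 fun i => ?_
      by_cases hg : (red φ (t i) x).Gen C u
      · filter_upwards [(hx i).good u hg] with ε hε _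
        exact hε.1
      · exact Eventually.of_forall fun ε h => absurd h hg
    obtain ⟨ε, h2, h3⟩ := (h1.and (hn x hxU u τ hτ hu)).exists
    refine le_trans ?_ h3
    unfold gacc
    refine sum_le_sum fun i _ => ?_
    by_cases h4 : (red φ (t i) x).run C u = true ∧ (red φ (t i) x).Gen C u
    · rw [if_pos h4, h2 i h4.2, h4.1]
      have : acc true = 1 := by unfold acc; rw [if_pos rfl]
      rw [this, mul_one]
    · rw [if_neg h4]
      exact mul_nonneg (hp i) (acc_nonneg _)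

end Pool.Agent.N575.ZT
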