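import Mathlib
import Pool.Agent.N575.ZT.Strip

/-!
# Nondeterministic decision trees
-/

set_option autoImplicit false

namespace Pool.Agent.N575.ZT

open Filter Topology Finset MeasureTheory ProbabilityTheory
open scoped RealInnerProductSpace

variable {I X Θ β : Type} [Fintype I] [Finite X] [DecidableEq Θ] {C : Conf I X Θ}

/-- the linear forms which are tested -/
noncomputable def QTree.forms (C : Conf I X Θ) : QTree I Θ → (I → ℝ) → List (I → ℝ)
  | .leaf _, _ => []
  | .test τ next, w => (next (SignType.sign (C.val w τ))).forms C w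
  | .lin L next, w => L :: (next (SignType.sign (∑ e, L e * w e))).forms C w

omit [DecidableEq Θ] in
theorem forms_length (r : QTree I Θ) (u : I → ℝ) : (r.forms C u).length = r.lins C u := by
  induction r with
  | leaf b => rfl
  | test σ next ih => exact ih _
  | lin L next ih =>
    unfold QTree.forms QTree.lins
    rw [List.length_cons, ih]

omit [DecidableEq Θ] in
theorem same_path (r : QTree I Θ) (u v : I → ℝ)
    (hL : ∀ L ∈ r.forms C u, ∑ e, L e * v e = ∑ e, L e * u e)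
    (hs : ∀ σ ∈ r.vis C u, SignType.sign (C.val v σ) = SignType.sign (C.val u σ)) :
    r.run C v = r.run C u ∧ (r.Gen C u → r.Gen C v) := by
  induction r with
  | leaf b => exact ⟨rfl, fun h => h⟩
  | test σ next ih =>
    unfold QTree.forms at hL
    unfold QTree.vis at hs
    have h1 := hs σ List.mem_cons_self
    unfold QTree.run QTree.Gen
    rw [h1]
    exact ih _ hL fun τ hτ => hs τ (List.mem_cons_of_mem _ hτ)
  | lin L next ih =>
    unfold QTree.forms at hL
    unfold QTree.vis at hs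
    have h1 := hL L List.mem_cons_self
    unfold QTree.run QTree.Gen
    rw [h1]
    have h2 := ih _ (fun M hM => hL M (List.mem_cons_of_mem _ hM)) hs
    exact ⟨h2.1, fun h => ⟨h.1, h2.2 h.2⟩⟩

/-- a form outside of `V` whose value can be moved while few linear forms are kept fixed -/
theorem exists_move [Fintype Θ] {lam : ℝ} (hC : C.Nice lam) (V : Finset Θ) (Ls : List (I → ℝ))
    (h : 3 * (V.card : ℝ) + 5 * lam * Ls.length < 3 * Fintype.card Θ) :
    ∃ t, t ∉ V ∧ ∃ v : I → ℝ, (∀ L ∈ Ls, ∑ e, L e * v e = 0) ∧ C.val v t = -1 ∧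
      ∀ s, s ≠ t → -(49 / 50) < C.val v s := by
  classical
  obtain ⟨K, hK⟩ : ∃ K : Submodule ℝ (EuclideanSpace ℝ I),
      K = Submodule.span ℝ ((Ls.map frm).toFinset : Set (EuclideanSpace ℝ I)) := ⟨_, rfl⟩
  have hdim : Module.finrank ℝ K ≤ Ls.length := by
    rw [hK]
    refine (finrank_span_finset_le_card _).trans ?_
    refine (List.toFinset_card_le _).trans ?_
    rw [List.length_map]
  have hmem : ∀ L ∈ Ls, frm L ∈ K := by
    intro L hL
    rw [hK]
    apply Submodule.subset_span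
    rw [Finset.mem_coe, List.mem_toFinset]
    exact List.mem_map.2 ⟨L, hL, rfl⟩
  have hsum := hC.sum_proj K
  -- a form with small projection
  obtain ⟨t, htV, ht⟩ : ∃ t, t ∉ V ∧
      ‖K.orthogonalProjectionOnto (frm (C.form t))‖ ^ 2 < 3 / 5 := by
    by_contra hc
    push Not at hc
    obtain ⟨W, hW⟩ : ∃ W : Finset Θ, W = univ.filter (fun t => 3 / 5 ≤
        ‖K.orthogonalProjectionOnto (frm (C.form t))‖ ^ 2) := ⟨_, rfl⟩
    have h1 : (univ : Finset Θ) ⊆ V ∪ W := by
      intro t _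
      rw [mem_union, hW, mem_filter]
      by_cases h2 : t ∈ V
      · exact Or.inl h2
      · exact Or.inr ⟨mem_univ _, hc t h2⟩
    have h2 := (card_le_card h1).trans (card_union_le _ _)
    rw [card_univ] at h2
    have h2' : (Fintype.card Θ : ℝ) ≤ V.card + W.card := by exact_mod_cast h2
    have h4 : (3 / 5 : ℝ) * W.card ≤ lam * Ls.length := by
      have h5 : ∑ t ∈ W, (3 / 5 : ℝ) ≤
          ∑ t, ‖K.orthogonalProjectionOnto (frm (C.form t))‖ ^ 2 := by
        refine (sum_le_sum fun t ht => ?_).trans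
          (sum_le_sum_of_subset_of_nonneg (subset_univ W) fun t _ _ => sq_nonneg _)
        rw [hW, mem_filter] at ht
        exact ht.2
      rw [sum_const, nsmul_eq_mul] at h5
      have h6 : lam * Module.finrank ℝ K ≤ lam * Ls.length := by
        have : (Module.finrank ℝ K : ℝ) ≤ Ls.length := by exact_mod_cast hdim
        exact mul_le_mul_of_nonneg_left this hC.lam0
      linarith
    linarith
  refine ⟨t, htV, ?_⟩
  obtain ⟨κ, hκ⟩ : ∃ κ : ℝ, κ = ‖K.orthogonalProjectionOnto (frm (C.form t))‖ ^ 2 := ⟨_, rfl⟩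
  obtain ⟨P, hP⟩ : ∃ P : EuclideanSpace ℝ I, P = K.orthogonalProjectionOnto (frm (C.form t)) :=
    ⟨_, rfl⟩
  rw [← hκ] at ht
  have hκ0 : 0 ≤ κ := by rw [hκ]; exact sq_nonneg _
  have hPn : ‖P‖ ^ 2 = κ := by rw [hP, hκ]; rfl
  have hPt : ⟪P, frm (C.form t)⟫ = κ := by
    have h1 := Submodule.inner_orthogonalProjectionOnto_eq_of_mem_left (K := K) (𝕜 := ℝ)
      (K.orthogonalProjectionOnto (frm (C.form t))) (frm (C.form t))
    rw [← hP] at h1
    rw [← h1, real_inner_self_eq_norm_sq, hκ]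
  have hPs : ∀ s, ⟪P, frm (C.form s)⟫ ^ 2 ≤ 3 * κ := by
    intro s
    have h1 := abs_real_inner_le_norm P (frm (C.form s))
    have h2 : ‖frm (C.form s)‖ ^ 2 = 3 := hC.norm s
    have h3 : ⟪P, frm (C.form s)⟫ ^ 2 ≤ (‖P‖ * ‖frm (C.form s)‖) ^ 2 := sq_le_sq' (by
      linarith [(abs_le.1 h1).1]) (abs_le.1 h1).2
    calc ⟪P, frm (C.form s)⟫ ^ 2 ≤ (‖P‖ * ‖frm (C.form s)‖) ^ 2 := h3
      _ = 3 * κ := by rw [mul_pow, hPn, h2]; ring
  have h3κ : 0 < 3 - κ := by linarith
  obtain ⟨v, hv⟩ : ∃ v : EuclideanSpace ℝ I,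
      v = (-(1 / (3 - κ))) • (frm (C.form t) - P) := ⟨_, rfl⟩
  refine ⟨fun e => v e, ?_, ?_, ?_⟩
  · intro L hL
    have h1 : ⟪frm L, v⟫ = 0 := by
      rw [hv, inner_smul_right]
      have h2 : ⟪frm L, frm (C.form t) - P⟫ = 0 := by
        rw [inner_sub_right, sub_eq_zero]
        have h3 := Submodule.inner_orthogonalProjectionOnto_eq_of_mem_left (K := K) (𝕜 := ℝ)
          ⟨frm L, hmem L hL⟩ (frm (C.form t))
        rw [← h3, Submodule.coe_inner, hP]
      rw [h2, mul_zero]
    rw [inner_frm] at h1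
    exact h1
  · rw [← inner_val, hv, inner_smul_right, inner_sub_right, real_inner_self_eq_norm_sq,
      hC.norm t, real_inner_comm P, hPt]
    field_simp
  · intro s hs
    rw [← inner_val, hv, inner_smul_right, inner_sub_right]
    have h1 : ⟪frm (C.form s), frm (C.form t)⟫ ≤ 1 := by
      rw [inner_frm]
      exact hC.ip s t hs
    have h2 := hPs s
    rw [real_inner_comm] at h2
    obtain ⟨y, hy⟩ : ∃ y : ℝ, y = ⟪frm (C.form s), P⟫ := ⟨_, rfl⟩
    rw [← hy] at h2 ⊢
    have h3 : -y < 49 / 50 * (3 - κ) - 1 := by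
      by_contra h4
      push Not at h4
      have h6 : 0 ≤ 49 / 50 * (3 - κ) - 1 := by linarith
      have h5 : (49 / 50 * (3 - κ) - 1) ^ 2 ≤ y ^ 2 := by nlinarith
      nlinarith
    have h4 : (⟪frm (C.form s), frm (C.form t)⟫ - y) / (3 - κ) < 49 / 50 := by
      rw [div_lt_iff₀ h3κ]
      linarith
    have h5 : -(1 / (3 - κ)) * (⟪frm (C.form s), frm (C.form t)⟫ - y) =
        -((⟪frm (C.form s), frm (C.form t)⟫ - y) / (3 - κ)) := by ring
    rw [h5]
    linarith

/-- a generic direction for which all forms have nearly the same value `K` -/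
theorem exists_gen [Fintype Θ] {ι : Type} [Finite ι] {lam : ℝ} (hC : C.Nice lam)
    (R : ι → QTree I Θ) (hR : ∀ i, (R i).NZ) :
    ∃ (u : I → ℝ) (K : ℝ), 0 < K ∧ (∀ i, (R i).Gen C u) ∧ ∀ τ, |C.val u τ - K| < K / 200 := by
  obtain ⟨u₀, hu₀⟩ := hC.one
  have h1 : ∀ᵐ g ∂(stdGaussian (EuclideanSpace ℝ I)), ∀ (k : ℕ) (i : ι),
      (R i).Gen C (fun e => ((k : ℝ) • frm u₀ + g) e) := by
    rw [ae_all_iff]
    intro k
    rw [ae_all_iff]
    exact fun i => gen_of (R i) (hR i) _
  obtain ⟨g, hg⟩ := h1.exists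
  obtain ⟨k, hk⟩ := exists_nat_gt (∑ τ, 200 * |C.val (fun e => g e) τ|)
  have hk0 : (0 : ℝ) < k := lt_of_le_of_lt (sum_nonneg fun _ _ => by positivity) hk
  refine ⟨_, k, hk0, hg k, fun τ => ?_⟩
  have e : C.val (fun e => ((k : ℝ) • frm u₀ + g) e) τ = k + C.val (fun e => g e) τ := by
    rw [← inner_val, inner_add_right, inner_smul_right, inner_val, inner_val]
    have h2 : C.val (fun e => frm u₀ e) τ = 1 := hu₀ τ
    rw [h2, mul_one]
  rw [e, add_sub_cancel_left]
  have h3 : 200 * |C.val (fun e => g e) τ| ≤ ∑ τ, 200 * |C.val (fun e => g e) τ| :=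
    single_le_sum (f := fun τ => 200 * |C.val (fun e => g e) τ|) (fun _ _ => by positivity)
      (mem_univ τ)
  linarith

/-- Nondeterministic decision trees: finitely many trees which do not accept near-degenerate inputs
with one form zero and the others positive. -/
theorem nondet [Fintype Θ] {ι : Type} [Finite ι] (φ : β → Bool) (t : ι → Alg C β) {lam : ℝ}
    (hC : C.Nice lam) {U : Set (X → ℝ)} (hU : IsOpen U) (hUn : U.Nonempty)
    (hn : ∀ x ∈ U, ∀ (u : I → ℝ) (τ : Θ), C.val u τ = 0 → (∀ σ, σ ≠ τ → 0 < C.val u σ) →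
      ∀ i, ∀ᶠ ε in 𝓝[>] (0 : ℝ), φ ((t i).run (C.pot x + ε • u)) ≠ true) :
    ∃ x ∈ U, ∃ u : I → ℝ, (∀ σ, 0 < C.val u σ) ∧ ∀ᶠ ε in 𝓝[>] (0 : ℝ), ∀ i,
      φ ((t i).run (C.pot x + ε • u)) = true →
      3 * (Fintype.card Θ : ℝ) ≤ 3 * (t i).tests (C.pot x + ε • u) +
        5 * lam * (t i).smooths (C.pot x + ε • u) := by
  classical
  obtain ⟨x, hxU, hx⟩ : ∃ x, x ∈ U ∧ ∀ i, QGood φ (t i) x := by
    have hd : Dense {x | ∀ i, QGood φ (t i) x} :=
      dense_of_mem_residual (eventually_countable_forall.2 fun i => qgood φ (t i))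
    obtain ⟨x, h1, h2⟩ := hd.inter_open_nonempty U hU hUn
    exact ⟨x, h1, h2⟩
  obtain ⟨u, K, hK, hgen, hu⟩ := exists_gen hC (fun i => red φ (t i) x) fun i => (hx i).nz
  have hpos : ∀ σ, 0 < C.val u σ := fun σ => by
    have := (abs_lt.1 (hu σ)).1
    linarith
  refine ⟨x, hxU, u, hpos, ?_⟩
  have h1 : ∀ᶠ ε in 𝓝[>] (0 : ℝ), ∀ i, φ ((t i).run (C.pot x + ε • u)) =
      (red φ (t i) x).run C u ∧
      ((red φ (t i) x).vis C u).length = (t i).tests (C.pot x + ε • u) ∧
      (red φ (t i) x).lins C u ≤ (t i).smooths (C.pot x + ε • u) :=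
    eventually_all.2 fun i => (hx i).good u (hgen i)
  filter_upwards [h1] with ε hε i hacc
  obtain ⟨h2, h3, h4⟩ := hε i
  rw [h2] at hacc
  obtain ⟨r, hr⟩ : ∃ r, r = red φ (t i) x := ⟨_, rfl⟩
  have hl0 := hC.lam0
  by_contra hc
  push Not at hc
  have h5 : 3 * (((r.vis C u).toFinset).card : ℝ) + 5 * lam * (r.forms C u).length <
      3 * Fintype.card Θ := by
    have h6 : (((r.vis C u).toFinset).card : ℝ) ≤ (t i).tests (C.pot x + ε • u) := by
      rw [← h3, ← hr]
      exact_mod_cast List.toFinset_card_le _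
    have h7 : ((r.forms C u).length : ℝ) ≤ (t i).smooths (C.pot x + ε • u) := by
      rw [forms_length, hr]
      exact_mod_cast h4
    have h8 : 5 * lam * ((r.forms C u).length : ℝ) ≤
        5 * lam * (t i).smooths (C.pot x + ε • u) :=
      mul_le_mul_of_nonneg_left h7 (by positivity)
    linarith
  obtain ⟨τ, hτ, v, hvL, hvτ, hvs⟩ := exists_move hC _ _ h5
  obtain ⟨c, hcdef⟩ : ∃ c : ℝ, c = C.val u τ := ⟨_, rfl⟩
  have hval : ∀ σ, C.val (u + c • v) σ = C.val u σ + c * C.val v σ := by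
    intro σ
    unfold Conf.val
    simp only [Pi.add_apply, Pi.smul_apply, smul_eq_mul, mul_add, Finset.sum_add_distrib,
      Finset.mul_sum]
    exact congrArg _ (Finset.sum_congr rfl fun e _ => by ring)
  have h6 : C.val (u + c • v) τ = 0 := by
    rw [hval, hvτ, hcdef]
    ring
  have h7 : ∀ σ, σ ≠ τ → 0 < C.val (u + c • v) σ := by
    intro σ hσ
    rw [hval]
    have h8 := hvs σ hσ
    have h9 := (abs_lt.1 (hu σ)).1
    have h10 := (abs_lt.1 (hu τ)).2
    have h11 := (abs_lt.1 (hu τ)).1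
    rw [← hcdef] at h10 h11
    have h12 : 0 < c := by linarith
    nlinarith
  have h8 : r.run C (u + c • v) = r.run C u ∧ (r.Gen C u → r.Gen C (u + c • v)) := by
    refine same_path r u (u + c • v) ?_ ?_
    · intro L hL
      have h9 := hvL L hL
      simp only [Pi.add_apply, Pi.smul_apply, smul_eq_mul, mul_add, Finset.sum_add_distrib]
      have h10 : ∑ e, L e * (c * v e) = c * ∑ e, L e * v e := by
        rw [Finset.mul_sum]
        exact Finset.sum_congr rfl fun e _ => by ring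
      rw [h10, h9, mul_zero, add_zero]
    · intro σ hσ
      have hne : σ ≠ τ := by
        rintro rfl
        exact hτ (List.mem_toFinset.2 hσ)
      rw [sign_pos (h7 σ hne), sign_pos (hpos σ)]
  have h9 : (red φ (t i) x).Gen C (u + c • v) := by
    rw [← hr]
    exact h8.2 (by rw [hr]; exact hgen i)
  obtain ⟨δ, h10, h11⟩ := (((hx i).good _ h9).and (hn x hxU _ τ h6 h7 i)).exists
  refine h11 ?_
  rw [h10.1, ← hr, h8.1, hr]
  exact hacc

end Pool.Agent.N575.ZT
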