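import Mathlib
import Pool.Agent.N575.ZT.Model

/-!
# The configurations for 3SUM

There are three blocks of `m` numbers. The forms are `w (0, i) + w (1, j) + s * w (2, i + j)` for
`i + j < m`, where `s = 1` or `s = -1`. The degenerate inputs are three arithmetic progressions
`α + i δ`, `β + j δ`, `- s (α + β + k δ)`.
-/

set_option autoImplicit false

namespace Pool.Agent.N575.ZT

open Filter Topology Finset

/-- three blocks of `m` numbers -/
abbrev Idx (m : ℕ) : Type := Fin 3 × Fin m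

/-- the pairs `(i, j)` with `i + j < m` -/
abbrev Tpl (m : ℕ) : Type := {p : Fin m × Fin m // p.1.val + p.2.val < m}

variable {m : ℕ}

/-- the index `i + j` -/
def Tpl.k (τ : Tpl m) : Fin m := ⟨τ.1.1.val + τ.1.2.val, τ.2⟩

/-- The configuration for 3SUM: the inputs are three blocks of `m` numbers, the forms are
`w (0, i) + w (1, j) + s * w (2, i + j)` for `i + j < m`, where `s = 1` or `s = -1`, and the
degenerate inputs are given by three numbers `x = (α, β, δ)`: the blocks are the arithmetic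
progressions `α + i δ`, `β + j δ` and `- s (α + β + k δ)`. -/
noncomputable def sumConf (s : SignType) (hs : s ≠ 0) (m : ℕ) : Conf (Idx m) (Fin 3) (Tpl m) where
  pot :=
    { toFun := fun x e =>
        if e.1 = 0 then x 0 + e.2.val * x 2
        else if e.1 = 1 then x 1 + e.2.val * x 2
        else -(s : ℝ) * (x 0 + x 1 + e.2.val * x 2)
      map_add' := by
        intro x y
        funext e
        simp only [Pi.add_apply]
        split_ifs <;> ring
      map_smul' := by
        intro c x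
        funext e
        simp only [Pi.smul_apply, smul_eq_mul, RingHom.id_apply]
        split_ifs <;> ring }
  form := fun τ e => (if e = (0, τ.1.1) then 1 else 0) + (if e = (1, τ.1.2) then 1 else 0) +
    (if e = (2, τ.k) then (s : ℝ) else 0)
  zero := by
    intro τ x
    simp only [add_mul, ite_mul, one_mul, zero_mul, Finset.sum_add_distrib]
    simp only [LinearMap.coe_mk, AddHom.coe_mk, Finset.sum_ite_eq', Finset.mem_univ, if_true]
    have h2 : (s : ℝ) * s = 1 := by
      rcases s with _ | _ | _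
      · exact absurd rfl hs
      · norm_num
      · norm_num
    have h3 : ((τ.k.val : ℕ) : ℝ) = τ.1.1.val + τ.1.2.val := by
      unfold Tpl.k
      push_cast
      rfl
    have e1 : (1 : Fin 3) ≠ 0 := by decide
    have e2 : (2 : Fin 3) ≠ 0 := by decide
    have e3 : (2 : Fin 3) ≠ 1 := by decide
    rw [if_neg e1, if_neg e2, if_neg e3, h3]
    linear_combination (-(x 0 + x 1 + (τ.1.1.val + τ.1.2.val) * x 2)) * h2

variable {s : SignType} {hs : s ≠ 0}

theorem sq_sign (hs : s ≠ 0) : (s : ℝ) * s = 1 := by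
  rcases s with _ | _ | _
  · exact absurd rfl hs
  · norm_num
  · norm_num

theorem sum_pot0 (x : Fin 3 → ℝ) (i : Fin m) :
    (sumConf s hs m).pot x (0, i) = x 0 + i.val * x 2 := rfl

theorem sum_pot1 (x : Fin 3 → ℝ) (i : Fin m) :
    (sumConf s hs m).pot x (1, i) = x 1 + i.val * x 2 := rfl

theorem sum_pot2 (x : Fin 3 → ℝ) (i : Fin m) :
    (sumConf s hs m).pot x (2, i) = -(s : ℝ) * (x 0 + x 1 + i.val * x 2) := rfl

theorem sum_val (w : Idx m → ℝ) (τ : Tpl m) : (sumConf s hs m).val w τ =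
    w (0, τ.1.1) + w (1, τ.1.2) + s * w (2, τ.k) := by
  unfold Conf.val sumConf
  simp only [add_mul, ite_mul, one_mul, zero_mul, Finset.sum_add_distrib]
  simp only [Finset.sum_ite_eq', Finset.mem_univ, if_true]

theorem sum_ip (σ τ : Tpl m) :
    ∑ e, (sumConf s hs m).form σ e * (sumConf s hs m).form τ e =
      (if σ.1.1 = τ.1.1 then 1 else 0) + (if σ.1.2 = τ.1.2 then 1 else 0) +
      (if σ.k = τ.k then 1 else 0) := by
  have h := sum_val (hs := hs) ((sumConf s hs m).form τ) σ
  have h1 : ∑ e, (sumConf s hs m).form σ e * (sumConf s hs m).form τ e =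
    (sumConf s hs m).val ((sumConf s hs m).form τ) σ := rfl
  rw [h1, h]
  unfold sumConf
  simp only [Prod.mk.injEq]
  have e1 : ¬ (0 : Fin 3) = 1 := by decide
  have e2 : ¬ (0 : Fin 3) = 2 := by decide
  have e3 : ¬ (1 : Fin 3) = 0 := by decide
  have e4 : ¬ (1 : Fin 3) = 2 := by decide
  have e5 : ¬ (2 : Fin 3) = 0 := by decide
  have e6 : ¬ (2 : Fin 3) = 1 := by decide
  simp only [e1, e2, e3, e4, e5, e6, false_and, true_and, if_false, add_zero, zero_add, mul_ite,
    mul_zero, sq_sign hs]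

theorem Tpl.ext' {σ τ : Tpl m} (h1 : σ.1.1 = τ.1.1) (h2 : σ.1.2 = τ.1.2) : σ = τ :=
  Subtype.ext (Prod.ext h1 h2)

theorem Tpl.k_val (τ : Tpl m) : τ.k.val = τ.1.1.val + τ.1.2.val := rfl

theorem sum_sq (v : Idx m → ℝ) :
    ∑ τ : Tpl m, ((sumConf s hs m).val v τ) ^ 2 ≤ 3 * m * ∑ e, v e ^ 2 := by
  have h1 : ∀ τ : Tpl m, ((sumConf s hs m).val v τ) ^ 2 ≤
      3 * (v (0, τ.1.1) ^ 2 + v (1, τ.1.2) ^ 2 + v (2, τ.k) ^ 2) := by
    intro τ
    rw [sum_val]
    have h2 := sq_sign hs
    have h3 : (v (2, τ.k)) ^ 2 = ((s : ℝ) * v (2, τ.k)) ^ 2 := by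
      rw [mul_pow, pow_two (s : ℝ), h2, one_mul]
    rw [h3]
    nlinarith [sq_nonneg (v (0, τ.1.1) - v (1, τ.1.2)),
      sq_nonneg (v (0, τ.1.1) - (s : ℝ) * v (2, τ.k)),
      sq_nonneg (v (1, τ.1.2) - (s : ℝ) * v (2, τ.k))]
  have key : ∀ (b : Fin 3) (f : Tpl m → Fin m) (g : Tpl m → Fin m),
      Function.Injective (fun τ => (f τ, g τ)) →
      ∑ τ : Tpl m, v (b, f τ) ^ 2 ≤ m * ∑ i, v (b, i) ^ 2 := by
    intro b f g hfg
    calc ∑ τ : Tpl m, v (b, f τ) ^ 2
        = ∑ p ∈ (univ : Finset (Tpl m)).map ⟨fun τ => (f τ, g τ), hfg⟩, v (b, p.1) ^ 2 := by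
          rw [Finset.sum_map]
          rfl
      _ ≤ ∑ p : Fin m × Fin m, v (b, p.1) ^ 2 :=
          sum_le_sum_of_subset_of_nonneg (subset_univ _) fun _ _ _ => sq_nonneg _
      _ = m * ∑ i, v (b, i) ^ 2 := by
          rw [Fintype.sum_prod_type]
          simp only [sum_const, card_univ, Fintype.card_fin, nsmul_eq_mul]
          rw [mul_sum]
  have k0 := key 0 (fun τ => τ.1.1) (fun τ => τ.1.2) (by
    intro σ τ h
    rw [Prod.mk.injEq] at h
    exact Tpl.ext' h.1 h.2)
  have k1 := key 1 (fun τ => τ.1.2) (fun τ => τ.1.1) (by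
    intro σ τ h
    rw [Prod.mk.injEq] at h
    exact Tpl.ext' h.2 h.1)
  have k2 := key 2 (fun τ => τ.k) (fun τ => τ.1.1) (by
    intro σ τ h
    rw [Prod.mk.injEq] at h
    refine Tpl.ext' h.2 ?_
    have h3 := congrArg Fin.val h.1
    rw [Tpl.k_val, Tpl.k_val, h.2] at h3
    exact Fin.ext (by omega))
  calc ∑ τ : Tpl m, ((sumConf s hs m).val v τ) ^ 2
      ≤ ∑ τ : Tpl m, 3 * (v (0, τ.1.1) ^ 2 + v (1, τ.1.2) ^ 2 + v (2, τ.k) ^ 2) :=
        sum_le_sum fun τ _ => h1 τ
    _ = 3 * (∑ τ : Tpl m, v (0, τ.1.1) ^ 2 + ∑ τ : Tpl m, v (1, τ.1.2) ^ 2 +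
          ∑ τ : Tpl m, v (2, τ.k) ^ 2) := by
        rw [← mul_sum, sum_add_distrib, sum_add_distrib]
    _ ≤ 3 * (m * ∑ i, v (0, i) ^ 2 + m * ∑ i, v (1, i) ^ 2 + m * ∑ i, v (2, i) ^ 2) := by
        linarith
    _ = 3 * m * ∑ e, v e ^ 2 := by
        rw [Fintype.sum_prod_type, Fin.sum_univ_three]
        ring

theorem card_tpl_le (m : ℕ) : Fintype.card (Tpl m) ≤ m ^ 2 := by
  refine (Fintype.card_subtype_le _).trans ?_
  rw [Fintype.card_prod, Fintype.card_fin, pow_two]

theorem le_card_tpl (m : ℕ) : m ^ 2 ≤ 2 * Fintype.card (Tpl m) := by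
  have h1 : Fintype.card {p : Fin m × Fin m // ¬ p.1.val + p.2.val < m} =
      m * m - Fintype.card (Tpl m) := by
    have h := Fintype.card_subtype_compl (fun p : Fin m × Fin m => p.1.val + p.2.val < m)
    rw [Fintype.card_prod, Fintype.card_fin] at h
    exact h
  have h2 : Fintype.card {p : Fin m × Fin m // ¬ p.1.val + p.2.val < m} ≤
      Fintype.card (Tpl m) := by
    refine Fintype.card_le_of_injective
      (fun p => (⟨(Fin.rev p.1.1, Fin.rev p.1.2), ?_⟩ : Tpl m)) ?_
    · have h3 := p.2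
      have h4 := p.1.1.2
      have h5 := p.1.2.2
      simp only [Fin.val_rev]
      omega
    · intro p q h
      have h3 := congrArg Subtype.val h
      simp only [Prod.mk.injEq, Fin.rev_inj] at h3
      exact Subtype.ext (Prod.ext h3.1 h3.2)
  have h3 : Fintype.card (Tpl m) ≤ m * m := by
    have := card_tpl_le m
    rwa [pow_two] at this
  rw [pow_two]
  omega

/-! ### generic degenerate inputs -/

/-- `w a + w b + s * w c` is one of the forms -/
def Tpl.IsForm (s : SignType) (a b c : Idx m) : Prop :=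
  ∃ τ : Tpl m, ∀ w : Idx m → ℝ, w a + w b + s * w c = w (0, τ.1.1) + w (1, τ.1.2) + s * w (2, τ.k)

/-- the numbers are distinct, and only the forms of the configuration vanish -/
def Clean (s : SignType) (w : Idx m → ℝ) : Prop :=
  (∀ a b, a ≠ b → w a ≠ w b) ∧
    ∀ a b c, a ≠ b → a ≠ c → b ≠ c → ¬ Tpl.IsForm s a b c → w a + w b + s * w c ≠ 0

theorem clean_open (s : SignType) (m : ℕ) : IsOpen {w : Idx m → ℝ | Clean s w} := by
  have h : {w : Idx m → ℝ | Clean s w} =
      (⋂ a, ⋂ b, {w : Idx m → ℝ | a ≠ b → w a ≠ w b}) ∩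
        ⋂ a, ⋂ b, ⋂ c, {w : Idx m → ℝ | a ≠ b → a ≠ c → b ≠ c → ¬ Tpl.IsForm s a b c →
          w a + w b + s * w c ≠ 0} := by
    ext w
    simp only [Clean, Set.mem_inter_iff, Set.mem_iInter, Set.mem_ofPred_eq]
  rw [h]
  refine IsOpen.inter ?_ ?_
  · refine isOpen_iInter_of_finite fun a => isOpen_iInter_of_finite fun b => ?_
    by_cases hab : a = b
    · have : {w : Idx m → ℝ | a ≠ b → w a ≠ w b} = Set.univ := by
        ext w
        simp [hab]
      rw [this]
      exact isOpen_univ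
    · have : {w : Idx m → ℝ | a ≠ b → w a ≠ w b} = {w | w a ≠ w b} := by
        ext w
        simp [hab]
      rw [this]
      exact isOpen_ne_fun (continuous_apply a) (continuous_apply b)
  · refine isOpen_iInter_of_finite fun a => isOpen_iInter_of_finite fun b =>
      isOpen_iInter_of_finite fun c => ?_
    by_cases hp : a ≠ b ∧ a ≠ c ∧ b ≠ c ∧ ¬ Tpl.IsForm s a b c
    · obtain ⟨h1, h2, h3, h4⟩ := hp
      have : {w : Idx m → ℝ | a ≠ b → a ≠ c → b ≠ c → ¬ Tpl.IsForm s a b c →
          w a + w b + s * w c ≠ 0} = {w : Idx m → ℝ | w a + w b + s * w c ≠ 0} := by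
        ext w
        simp [h1, h2, h3, h4]
      rw [this]
      exact isOpen_ne_fun (((continuous_apply a).add (continuous_apply b)).add
        (continuous_const.mul (continuous_apply c))) continuous_const
    · have : {w : Idx m → ℝ | a ≠ b → a ≠ c → b ≠ c → ¬ Tpl.IsForm s a b c →
          w a + w b + s * w c ≠ 0} = Set.univ := by
        ext w
        simp only [Set.mem_ofPred_eq, Set.mem_univ, iff_true]
        intro h1 h2 h3 h4
        exact absurd ⟨h1, h2, h3, h4⟩ hp
      rw [this]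
      exact isOpen_univ

/-- a clean degenerate input -/
noncomputable def base (m : ℕ) : Fin 3 → ℝ := ![4 * (m + 1), 16 * (m + 1), 1]

/-- its values -/
def bval (s : SignType) (m : ℕ) (e : Idx m) : ℤ :=
  if e.1 = 0 then 4 * (m + 1) + e.2.val
  else if e.1 = 1 then 16 * (m + 1) + e.2.val
  else -(s : ℤ) * (20 * (m + 1) + e.2.val)

theorem base_val (e : Idx m) : (sumConf s hs m).pot (base m) e = bval s m e := by
  obtain ⟨b, i⟩ := e
  fin_cases b
  · show (sumConf s hs m).pot (base m) (0, i) = bval s m (0, i)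
    rw [sum_pot0]
    unfold base bval
    simp
  · show (sumConf s hs m).pot (base m) (1, i) = bval s m (1, i)
    rw [sum_pot1]
    unfold base bval
    simp
  · show (sumConf s hs m).pot (base m) (2, i) = bval s m (2, i)
    rw [sum_pot2]
    unfold base bval
    simp only [Matrix.cons_val_zero, Matrix.cons_val_one, Matrix.cons_val, mul_one]
    rw [if_neg (by decide), if_neg (by decide)]
    push_cast
    ring

theorem sign_cases : ∀ s : SignType, s ≠ 0 → s = 1 ∨ s = -1 := by decide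

theorem exists_tpl (i j k : Fin m) (h : i.val + j.val = k.val) :
    ∃ τ : Tpl m, τ.1.1 = i ∧ τ.1.2 = j ∧ τ.k = k :=
  ⟨⟨(i, j), by have := k.2; simp only; omega⟩, rfl, rfl, Fin.ext h⟩

theorem bval_one (b : Fin 3) (i : Fin m) : bval 1 m (b, i) =
    if b = 0 then 4 * ((m : ℤ) + 1) + (i.val : ℤ) else if b = 1 then 16 * ((m : ℤ) + 1) + (i.val : ℤ)
      else -(20 * ((m : ℤ) + 1) + (i.val : ℤ)) := by
  unfold bval
  simp only [SignType.coe_one]
  split_ifs <;> ring

theorem bval_neg (b : Fin 3) (i : Fin m) : bval (-1) m (b, i) =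
    if b = 0 then 4 * ((m : ℤ) + 1) + (i.val : ℤ) else if b = 1 then 16 * ((m : ℤ) + 1) + (i.val : ℤ)
      else 20 * ((m : ℤ) + 1) + (i.val : ℤ) := by
  unfold bval
  simp only [SignType.coe_neg_one]
  split_ifs <;> ring

theorem base_ne (hs : s ≠ 0) (a b : Idx m) (h : bval s m a = bval s m b) : a = b := by
  obtain ⟨p, i⟩ := a
  obtain ⟨q, j⟩ := b
  have hi := i.2
  have hj := j.2
  have h1 : p = q ∧ i.val = j.val := by
    rcases sign_cases s hs with rfl | rfl
    · rw [bval_one, bval_one] at h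
      fin_cases p <;> fin_cases q <;> simp at h ⊢ <;> omega
    · rw [bval_neg, bval_neg] at h
      fin_cases p <;> fin_cases q <;> simp at h ⊢ <;> omega
  rw [h1.1, Fin.ext h1.2]

theorem base_form_one (a b c : Idx m) (h : bval 1 m a + bval 1 m b + bval 1 m c = 0) :
    Tpl.IsForm 1 a b c := by
  obtain ⟨p, i⟩ := a
  obtain ⟨q, j⟩ := b
  obtain ⟨r, k⟩ := c
  have hi := i.2
  have hj := j.2
  have hk := k.2
  rw [bval_one, bval_one, bval_one] at h
  fin_cases p <;> fin_cases q <;> fin_cases r <;> simp at h <;> try omega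
  · obtain ⟨τ, h1, h2, h3⟩ := exists_tpl i j k (by omega)
    exact ⟨τ, fun w => by rw [h1, h2, h3]; simp⟩
  · obtain ⟨τ, h1, h2, h3⟩ := exists_tpl i k j (by omega)
    exact ⟨τ, fun w => by rw [h1, h2, h3]; simp; ring⟩
  · obtain ⟨τ, h1, h2, h3⟩ := exists_tpl j i k (by omega)
    exact ⟨τ, fun w => by rw [h1, h2, h3]; simp; ring⟩
  · obtain ⟨τ, h1, h2, h3⟩ := exists_tpl k i j (by omega)
    exact ⟨τ, fun w => by rw [h1, h2, h3]; simp; ring⟩
  · obtain ⟨τ, h1, h2, h3⟩ := exists_tpl j k i (by omega)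
    exact ⟨τ, fun w => by rw [h1, h2, h3]; simp; ring⟩
  · obtain ⟨τ, h1, h2, h3⟩ := exists_tpl k j i (by omega)
    exact ⟨τ, fun w => by rw [h1, h2, h3]; simp; ring⟩

theorem base_form_neg (a b c : Idx m) (h : bval (-1) m a + bval (-1) m b - bval (-1) m c = 0) :
    Tpl.IsForm (-1) a b c := by
  obtain ⟨p, i⟩ := a
  obtain ⟨q, j⟩ := b
  obtain ⟨r, k⟩ := c
  have hi := i.2
  have hj := j.2
  have hk := k.2
  rw [bval_neg, bval_neg, bval_neg] at h
  fin_cases p <;> fin_cases q <;> fin_cases r <;> simp at h <;> try omega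
  · obtain ⟨τ, h1, h2, h3⟩ := exists_tpl i j k (by omega)
    exact ⟨τ, fun w => by rw [h1, h2, h3]; simp⟩
  · obtain ⟨τ, h1, h2, h3⟩ := exists_tpl j i k (by omega)
    exact ⟨τ, fun w => by rw [h1, h2, h3]; simp; ring⟩

theorem base_clean (hs : s ≠ 0) (m : ℕ) : Clean s ((sumConf s hs m).pot (base m)) := by
  refine ⟨fun a b hab h => hab ?_, fun a b c _ _ _ hf h => hf ?_⟩
  · rw [base_val, base_val] at h
    exact base_ne hs a b (by exact_mod_cast h)
  · rw [base_val, base_val, base_val] at h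
    rcases sign_cases s hs with rfl | rfl
    · refine base_form_one a b c ?_
      rw [SignType.coe_one, one_mul] at h
      exact_mod_cast h
    · refine base_form_neg a b c ?_
      rw [SignType.coe_neg_one, neg_one_mul] at h
      exact_mod_cast h

/-- the clean degenerate inputs -/
def cleanSet (s : SignType) (hs : s ≠ 0) (m : ℕ) : Set (Fin 3 → ℝ) :=
  {x | Clean s ((sumConf s hs m).pot x)}

theorem cleanSet_open : IsOpen (cleanSet s hs m) :=
  (clean_open s m).preimage (pot_continuous _)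

theorem cleanSet_nonempty : (cleanSet s hs m).Nonempty := ⟨base m, base_clean hs m⟩

theorem clean_near {x : Fin 3 → ℝ} (hx : x ∈ cleanSet s hs m) (u : Idx m → ℝ) :
    ∀ᶠ ε in 𝓝[>] (0 : ℝ), Clean s ((sumConf s hs m).pot x + ε • u) :=
  (tendsto_line _ u).eventually ((clean_open s m).mem_nhds hx)

end Pool.Agent.N575.ZT
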