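import Mathlib
import Pool.Agent.N575.ZT.Main
import Pool.Agent.N575.ZT.Sum

/-!
# 3SUM
-/

set_option autoImplicit false

namespace Pool.Agent.N575.ZT

open Filter Topology Finset
open Pool.Agent.N575.LDT (acc acc_nonneg acc_le)

variable {m : ℕ} {s : SignType} {hs : s ≠ 0}

theorem sum_nice (s : SignType) (hs : s ≠ 0) (m : ℕ) : (sumConf s hs m).Nice (3 * m) where
  sq := fun τ => by
    rw [sum_ip]
    simp only [if_true]
    norm_num
  ip := fun σ τ h => by
    rw [sum_ip]
    by_cases h1 : σ.1.1 = τ.1.1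
    · have h2 : σ.1.2 ≠ τ.1.2 := fun h2 => h (Tpl.ext' h1 h2)
      have h3 : σ.k ≠ τ.k := by
        intro h3
        have h4 := congrArg Fin.val h3
        rw [Tpl.k_val, Tpl.k_val, h1] at h4
        exact h2 (Fin.ext (by omega))
      rw [if_pos h1, if_neg h2, if_neg h3]
      norm_num
    · by_cases h2 : σ.1.2 = τ.1.2
      · have h3 : σ.k ≠ τ.k := by
          intro h3
          have h4 := congrArg Fin.val h3
          rw [Tpl.k_val, Tpl.k_val, h2] at h4
          exact h1 (Fin.ext (by omega))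
        rw [if_neg h1, if_pos h2, if_neg h3]
        norm_num
      · rw [if_neg h1, if_neg h2]
        split_ifs <;> norm_num
  one := by
    refine ⟨fun e => if e.1 = 2 then (s : ℝ) / 3 else 1 / 3, fun τ => ?_⟩
    rw [sum_val]
    have h := sq_sign hs
    simp only [if_true]
    rw [if_neg (by decide), if_neg (by decide)]
    linear_combination h / 3
  lam0 := by positivity
  sum := fun v => sum_sq v

theorem form_of_clean {w : Idx m → ℝ} (hw : Clean s w) {a b c : Idx m} (hab : a ≠ b)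
    (hac : a ≠ c) (hbc : b ≠ c) (h : w a + w b + s * w c = 0) :
    ∃ τ, (sumConf s hs m).val w τ = 0 := by
  have h1 : Tpl.IsForm s a b c := by
    by_contra h2
    exact hw.2 a b c hab hac hbc h2 h
  obtain ⟨τ, hτ⟩ := h1
  refine ⟨τ, ?_⟩
  rw [sum_val, ← hτ, h]

theorem inj_of_clean {w : Idx m → ℝ} (hw : Clean s w) : Function.Injective w := by
  intro a b h
  by_contra hab
  exact hw.1 a b hab h

/-- 3SUM: random decision trees with errors on both sides -/
theorem sum_final {ι β : Type} [Fintype ι] {p : ι → ℝ} (hp : ∀ i, 0 ≤ p i) (hp1 : ∑ i, p i = 1)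
    (φ : β → Bool) (t : ι → Alg (sumConf s hs m) β) (hm : 1 ≤ m) {T q : ℝ}
    (hy : ∀ w : Idx m → ℝ, Function.Injective w →
      (¬ ∃ a b c, a ≠ b ∧ a ≠ c ∧ b ≠ c ∧ w a + w b + s * w c = 0) →
      2 / 3 ≤ ∑ i, p i * acc (φ ((t i).run w)) ∧
      ∑ i, p i * (t i).tests w ≤ T ∧ ∑ i, p i * (t i).smooths w ≤ q)
    (hn : ∀ w : Idx m → ℝ, Function.Injective w →
      (∃ a b c, a ≠ b ∧ a ≠ c ∧ b ≠ c ∧ w a + w b + s * w c = 0) →
      ∑ i, p i * acc (φ ((t i).run w)) ≤ 1 / 3) :
    (m : ℝ) ^ 2 ≤ 10 * T + 229 * m * √(m * q * (2 * Real.log m + 5)) := by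
  have hm0 : (1 : ℝ) ≤ m := by exact_mod_cast hm
  have hc1 := card_tpl_le m
  have hc2 := le_card_tpl m
  have hc3 : 0 < Fintype.card (Tpl m) := by
    have : 0 < m ^ 2 := by positivity
    omega
  have hy' : ∀ x ∈ cleanSet s hs m, ∀ u : Idx m → ℝ, (∀ σ, 0 < (sumConf s hs m).val u σ) →
      ∀ᶠ ε in 𝓝[>] (0 : ℝ),
        2 / 3 ≤ ∑ i, p i * acc (φ ((t i).run ((sumConf s hs m).pot x + ε • u))) ∧
        ∑ i, p i * (t i).tests ((sumConf s hs m).pot x + ε • u) ≤ T ∧
        ∑ i, p i * (t i).smooths ((sumConf s hs m).pot x + ε • u) ≤ q := by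
    intro x hx u hu
    filter_upwards [clean_near hx u, self_mem_nhdsWithin] with ε hε hε0
    refine hy _ (inj_of_clean hε) ?_
    rintro ⟨a, b, c, hab, hac, hbc, h⟩
    obtain ⟨τ, hτ⟩ := form_of_clean (hs := hs) hε hab hac hbc h
    rw [val_line] at hτ
    exact (mul_pos hε0 (hu τ)).ne' hτ
  have h := final hp hp1 φ t (sum_nice s hs m) hc3 cleanSet_open cleanSet_nonempty
    (T := T) (q := q) hy' (by
      intro x hx u τ hτ hu
      filter_upwards [clean_near hx u, self_mem_nhdsWithin] with ε hε hε0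
      refine hn _ (inj_of_clean hε) ⟨(0, τ.1.1), (1, τ.1.2), (2, τ.k), ?_, ?_, ?_, ?_⟩
      · intro h
        exact absurd (congrArg Prod.fst h) (show ¬ (0 : Fin 3) = 1 by decide)
      · intro h
        exact absurd (congrArg Prod.fst h) (show ¬ (0 : Fin 3) = 2 by decide)
      · intro h
        exact absurd (congrArg Prod.fst h) (show ¬ (1 : Fin 3) = 2 by decide)
      · have h1 := val_line (sumConf s hs m) x ε u τ
        rw [sum_val, hτ, mul_zero] at h1
        exact h1)
  have hq0 : 0 ≤ q := by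
    obtain ⟨x, hx⟩ := cleanSet_nonempty (s := s) (hs := hs) (m := m)
    obtain ⟨u, hu⟩ := (sum_nice s hs m).one
    obtain ⟨ε, hε⟩ := (hy' x hx u fun σ => by rw [hu σ]; exact one_pos).exists
    exact le_trans (sum_nonneg fun i _ => mul_nonneg (hp i) (Nat.cast_nonneg _)) hε.2.2
  have hc1' : (Fintype.card (Tpl m) : ℝ) ≤ (m : ℝ) ^ 2 := by exact_mod_cast hc1
  have hc2' : (m : ℝ) ^ 2 ≤ 2 * Fintype.card (Tpl m) := by exact_mod_cast hc2
  have hc3' : (0 : ℝ) < Fintype.card (Tpl m) := by exact_mod_cast hc3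
  have hlog : Real.log (Fintype.card (Tpl m)) ≤ 2 * Real.log m := by
    have h1 := Real.log_le_log hc3' hc1'
    rwa [Real.log_pow, Nat.cast_ofNat] at h1
  have hlog0 : 0 ≤ Real.log m := Real.log_natCast_nonneg m
  have h1 : √((Fintype.card (Tpl m) : ℝ) * (3 * m) * q * (Real.log (Fintype.card (Tpl m)) + 5)) ≤
      √3 * (m * √(m * q * (2 * Real.log m + 5))) := by
    have h2 : (Fintype.card (Tpl m) : ℝ) * (3 * m) * q * (Real.log (Fintype.card (Tpl m)) + 5) ≤
        3 * (m ^ 2 * (m * q * (2 * Real.log m + 5))) := by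
      have hl0 : 0 ≤ Real.log (Fintype.card (Tpl m)) := Real.log_natCast_nonneg _
      have e2 : 3 * ((m : ℝ) ^ 2 * (m * q * (2 * Real.log m + 5))) =
          (m : ℝ) ^ 2 * (3 * m) * q * (2 * Real.log m + 5) := by ring
      rw [e2]
      gcongr
    refine (Real.sqrt_le_sqrt h2).trans (le_of_eq ?_)
    have e3 : ∀ Y : ℝ, √(3 * ((m : ℝ) ^ 2 * Y)) = √3 * (m * √Y) := by
      intro Y
      rw [Real.sqrt_mul (by norm_num), Real.sqrt_mul (by positivity),
        Real.sqrt_sq (by positivity)]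
    exact e3 _
  have h3 : √3 ≤ 229 / 132 := by
    rw [Real.sqrt_le_left (by norm_num)]
    norm_num
  have h4 : 0 ≤ (m : ℝ) * √(m * q * (2 * Real.log m + 5)) := by positivity
  nlinarith

end Pool.Agent.N575.ZT
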