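import Mathlib
import Pool.Agent.N575.ZT.Sum3
import Pool.Agent.N575.ZT.Nondet

/-!
# 3SUM: nondeterministic trees and exhaustive search
-/

set_option autoImplicit false

namespace Pool.Agent.N575.ZT

open Filter Topology Finset

variable {m : ℕ} {s : SignType} {hs : s ≠ 0}

theorem two_card_tpl (m : ℕ) : 2 * Fintype.card (Tpl m) = m * (m + 1) := by
  have e : Tpl m ≃ Σ i : Fin m, Fin (m - i.val) :=
    { toFun := fun τ => ⟨τ.1.1, ⟨τ.1.2.val, by have := τ.2; omega⟩⟩
      invFun := fun p => ⟨(p.1, ⟨p.2.val, by have := p.2.2; omega⟩), by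
        have := p.2.2
        show p.1.val + p.2.val < m
        omega⟩
      left_inv := fun τ => rfl
      right_inv := fun p => rfl }
  rw [Fintype.card_congr e, Fintype.card_sigma]
  simp only [Fintype.card_fin]
  rw [Fin.sum_univ_eq_sum_range (fun i => m - i) m]
  have h : ∀ m : ℕ, 2 * ∑ i ∈ range m, (m - i) = m * (m + 1) := by
    intro m
    induction m with
    | zero => rfl
    | succ m ih =>
      rw [sum_range_succ']
      simp only [Nat.add_sub_add_right, Nat.sub_zero]
      rw [mul_add, ih]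
      ring
  exact h m

/-- the bound for finitely many sound trees -/
theorem sum_nondet {ι β : Type} [Finite ι] (φ : β → Bool) (t : ι → Alg (sumConf s hs m) β)
    (hn : ∀ w : Idx m → ℝ, Function.Injective w →
      (∃ a b c, a ≠ b ∧ a ≠ c ∧ b ≠ c ∧ w a + w b + s * w c = 0) →
      ∀ i, φ ((t i).run w) ≠ true) :
    ∃ w : Idx m → ℝ, Function.Injective w ∧
      (¬ ∃ a b c, a ≠ b ∧ a ≠ c ∧ b ≠ c ∧ w a + w b + s * w c = 0) ∧
      ∀ i, φ ((t i).run w) = true →
        m * (m + 1) ≤ 2 * (t i).tests w + 10 * m * (t i).smooths w := by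
  obtain ⟨x, hx, u, hu, h⟩ := nondet φ t (sum_nice s hs m) cleanSet_open cleanSet_nonempty (by
    intro x hx u τ hτ hu i
    filter_upwards [clean_near hx u, self_mem_nhdsWithin] with ε hε hε0
    refine hn _ (inj_of_clean hε) ⟨(0, τ.1.1), (1, τ.1.2), (2, τ.k), ?_, ?_, ?_, ?_⟩ i
    · intro h
      exact absurd (congrArg Prod.fst h) (show ¬ (0 : Fin 3) = 1 by decide)
    · intro h
      exact absurd (congrArg Prod.fst h) (show ¬ (0 : Fin 3) = 2 by decide)
    · intro h
      exact absurd (congrArg Prod.fst h) (show ¬ (1 : Fin 3) = 2 by decide)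
    · have h1 := val_line (sumConf s hs m) x ε u τ
      rw [sum_val, hτ, mul_zero] at h1
      exact h1)
  obtain ⟨ε, ⟨h1, h2⟩, h3⟩ := ((h.and (clean_near hx u)).and self_mem_nhdsWithin).exists
  refine ⟨_, inj_of_clean h2, ?_, fun i hi => ?_⟩
  · rintro ⟨a, b, c, hab, hac, hbc, h4⟩
    obtain ⟨τ, hτ⟩ := form_of_clean (hs := hs) h2 hab hac hbc h4
    rw [val_line] at hτ
    exact (mul_pos h3 (hu τ)).ne' hτ
  · have h4 := h1 i hi
    have h5 : (2 : ℝ) * Fintype.card (Tpl m) = m * (m + 1) := by exact_mod_cast two_card_tpl m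
    have h6 : (m * (m + 1) : ℝ) ≤ 2 * (t i).tests ((sumConf s hs m).pot x + ε • u) +
        10 * m * (t i).smooths ((sumConf s hs m).pot x + ε • u) := by
      nlinarith
    exact_mod_cast h6

/-! ### exhaustive search -/

/-- testing a list of forms -/
def searchForms (s : SignType) (hs : s ≠ 0) (m : ℕ) :
    List (Tpl m) → Alg (sumConf s hs m) Bool
  | [] => .leaf true
  | τ :: l => .test τ fun r => if r = 0 then .leaf false else searchForms s hs m l

theorem searchForms_spec (l : List (Tpl m)) (w : Idx m → ℝ) :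
    ((searchForms s hs m l).run w = true ↔ ∀ τ ∈ l, (sumConf s hs m).val w τ ≠ 0) ∧
      (searchForms s hs m l).tests w ≤ l.length ∧ (searchForms s hs m l).smooths w = 0 := by
  induction l with
  | nil => exact ⟨by simp [searchForms, Alg.run], le_rfl, rfl⟩
  | cons τ l ih =>
    unfold searchForms Alg.run Alg.tests Alg.smooths
    beta_reduce
    by_cases h : SignType.sign ((sumConf s hs m).val w τ) = 0
    · rw [if_pos h]
      refine ⟨?_, ?_, rfl⟩
      · simp only [Alg.run, Bool.false_eq_true, List.mem_cons, forall_eq_or_imp, false_iff, not_and]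
        intro h1
        exact absurd (sign_eq_zero_iff.1 h) h1
      · simp [Alg.tests]
    · rw [if_neg h]
      refine ⟨?_, ?_, ih.2.2⟩
      · rw [ih.1]
        simp only [List.mem_cons, forall_eq_or_imp]
        constructor
        · intro h1
          exact ⟨fun h2 => h (sign_eq_zero_iff.2 h2), h1⟩
        · exact fun h1 => h1.2
      · rw [List.length_cons]
        exact Nat.add_le_add_right ih.2.1 1

/-- the sum of three numbers -/
def tsum (s : SignType) (a : Idx m × Idx m × Idx m) (w : Idx m → ℝ) : ℝ :=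
  w a.1 + w a.2.1 + s * w a.2.2

/-- three different places, and the sum is not one of the forms -/
def Other (s : SignType) (a : Idx m × Idx m × Idx m) : Prop :=
  a.1 ≠ a.2.1 ∧ a.1 ≠ a.2.2 ∧ a.2.1 ≠ a.2.2 ∧ ¬ Tpl.IsForm s a.1 a.2.1 a.2.2

theorem other_shallow {a : Idx m × Idx m × Idx m} (ha : Other s a) :
    (sumConf s hs m).Shallow fun w => ((SignType.sign (tsum s a w) : SignType) : ℤ) := by
  refine shallow_sign ?_ ⟨base m, ?_⟩
  · have h1 : ∀ e : Idx m, AnalyticOnNhd ℝ (fun w : Idx m → ℝ => w e) Set.univ := fun e w _ =>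
      (ContinuousLinearMap.proj (R := ℝ) (φ := fun _ : Idx m => ℝ) e).analyticAt w
    unfold tsum
    exact ((h1 a.1).add (h1 a.2.1)).add (analyticOnNhd_const.mul (h1 a.2.2))
  · exact (base_clean hs m).2 _ _ _ ha.1 ha.2.1 ha.2.2.1 ha.2.2.2

open Classical in
/-- testing the sums which are no forms -/
noncomputable def searchOther (s : SignType) (hs : s ≠ 0) (m : ℕ) (e : Alg (sumConf s hs m) Bool) :
    List (Idx m × Idx m × Idx m) → Alg (sumConf s hs m) Bool
  | [] => e
  | a :: l =>
    if h : Other s a then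
      .free _ (other_shallow (hs := hs) h) fun r =>
        if r = 0 then .leaf false else searchOther s hs m e l
    else searchOther s hs m e l

theorem sign_int_zero : ∀ r : SignType, (r : ℤ) = 0 → r = 0 := by decide

theorem free_run (f : (Idx m → ℝ) → ℤ) (hf : (sumConf s hs m).Shallow f)
    (next : ℤ → Alg (sumConf s hs m) Bool) (w : Idx m → ℝ) :
    (Alg.free f hf next).run w = (next (f w)).run w ∧
      (Alg.free f hf next).tests w = (next (f w)).tests w ∧
      (Alg.free f hf next).smooths w = (next (f w)).smooths w := ⟨rfl, rfl, rfl⟩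

theorem searchOther_spec (e : Alg (sumConf s hs m) Bool) (l : List (Idx m × Idx m × Idx m))
    (w : Idx m → ℝ) :
    ((searchOther s hs m e l).run w = true ↔ (∀ a ∈ l, Other s a → tsum s a w ≠ 0) ∧
      e.run w = true) ∧
      (searchOther s hs m e l).tests w ≤ e.tests w ∧
      (searchOther s hs m e l).smooths w ≤ e.smooths w := by
  induction l with
  | nil => exact ⟨by simp [searchOther], le_rfl, le_rfl⟩
  | cons a l ih =>
    unfold searchOther
    by_cases h : Other s a
    · rw [dif_pos h]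
      obtain ⟨e1, e2, e3⟩ := free_run (hs := hs) _ (other_shallow (hs := hs) h)
        (fun r => if r = 0 then .leaf false else searchOther s hs m e l) w
      rw [e1, e2, e3]
      by_cases h0 : tsum s a w = 0
      · have h1 : ((SignType.sign (tsum s a w) : SignType) : ℤ) = 0 := by
          rw [h0, sign_zero]
          rfl
        rw [if_pos h1]
        refine ⟨?_, ?_, ?_⟩
        · simp only [Alg.run, Bool.false_eq_true, false_iff, not_and]
          intro h2
          exact absurd h0 (h2 a List.mem_cons_self h)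
        · exact Nat.zero_le _
        · exact Nat.zero_le _
      · have h1 : ((SignType.sign (tsum s a w) : SignType) : ℤ) ≠ 0 := fun h2 =>
          h0 (sign_eq_zero_iff.1 (sign_int_zero _ h2))
        rw [if_neg h1]
        refine ⟨?_, ih.2.1, ih.2.2⟩
        rw [ih.1]
        simp only [List.mem_cons, forall_eq_or_imp]
        exact ⟨fun h2 => ⟨⟨fun _ => h0, h2.1⟩, h2.2⟩, fun h2 => ⟨h2.1.2, h2.2⟩⟩
    · rw [dif_neg h]
      refine ⟨?_, ih.2.1, ih.2.2⟩
      rw [ih.1]
      simp only [List.mem_cons, forall_eq_or_imp]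
      exact ⟨fun h2 => ⟨⟨fun h3 => absurd h3 h, h2.1⟩, h2.2⟩, fun h2 => ⟨h2.1.2, h2.2⟩⟩

/-- exhaustive search -/
theorem sum_upper (s : SignType) (hs : s ≠ 0) (m : ℕ) :
    ∃ t : Alg (sumConf s hs m) Bool, ∀ w : Idx m → ℝ,
      (t.run w = true ↔ ¬ ∃ a b c, a ≠ b ∧ a ≠ c ∧ b ≠ c ∧ w a + w b + s * w c = 0) ∧
      2 * t.tests w ≤ m * (m + 1) ∧ t.smooths w = 0 := by
  refine ⟨searchOther s hs m (searchForms s hs m (univ : Finset (Tpl m)).toList)
    (univ : Finset (Idx m × Idx m × Idx m)).toList, fun w => ?_⟩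
  obtain ⟨h1, h2, h3⟩ := searchForms_spec (hs := hs) (univ : Finset (Tpl m)).toList w
  obtain ⟨h4, h5, h6⟩ := searchOther_spec (searchForms s hs m (univ : Finset (Tpl m)).toList)
    (univ : Finset (Idx m × Idx m × Idx m)).toList w
  refine ⟨?_, ?_, ?_⟩
  · rw [h4, h1]
    simp only [Finset.mem_toList, mem_univ, forall_true_left]
    constructor
    · rintro ⟨h7, h8⟩ ⟨a, b, c, hab, hac, hbc, h9⟩
      by_cases hf : Tpl.IsForm s a b c
      · obtain ⟨τ, hτ⟩ := hf
        refine h8 τ ?_
        rw [sum_val, ← hτ, h9]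
      · exact h7 (a, b, c) ⟨hab, hac, hbc, hf⟩ h9
    · intro h7
      refine ⟨fun a ha h8 => h7 ⟨a.1, a.2.1, a.2.2, ha.1, ha.2.1, ha.2.2.1, h8⟩, fun τ h8 => ?_⟩
      refine h7 ⟨(0, τ.1.1), (1, τ.1.2), (2, τ.k), ?_, ?_, ?_, ?_⟩
      · intro h
        exact absurd (congrArg Prod.fst h) (show ¬ (0 : Fin 3) = 1 by decide)
      · intro h
        exact absurd (congrArg Prod.fst h) (show ¬ (0 : Fin 3) = 2 by decide)
      · intro h
        exact absurd (congrArg Prod.fst h) (show ¬ (1 : Fin 3) = 2 by decide)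
      · rw [← sum_val (hs := hs)]
        exact h8
  · rw [Finset.length_toList, card_univ] at h2
    rw [← two_card_tpl]
    omega
  · omega

end Pool.Agent.N575.ZT
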