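import Mathlib
import Pool.Agent.N575.ZT.Main
import Pool.Agent.N575.LDT.Main

/-!
# Exact Triangle
-/

set_option autoImplicit false

namespace Pool.Agent.N575.ZT

open Filter Topology Finset
open Pool.Agent.N575.LDT (acc acc_nonneg acc_le Edge Tri potL sum_wt_sq)

variable {n : ℕ}

/-- The configuration of the triangles: the inputs are weights of the edges of the complete
tripartite graph with `n` vertices in each part, the forms are the weights of the triangles, and the
degenerate inputs are the weights given by potentials. -/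
noncomputable def triConf (n : ℕ) : Conf (Edge n) (Fin 3 × Fin n) (Tri n) where
  pot := (potL n).toLinearMap
  form := fun t e => (if e = (0, t.1, t.2.1) then 1 else 0) +
    (if e = (1, t.2.1, t.2.2) then 1 else 0) + (if e = (2, t.1, t.2.2) then 1 else 0)
  zero := by
    intro τ x
    have h : (potL n).toLinearMap x = LDT.pot x := rfl
    rw [h]
    have h2 := LDT.wt_pot x τ
    unfold LDT.wt at h2
    simp only [add_mul, ite_mul, one_mul, zero_mul, Finset.sum_add_distrib]
    simpa using h2

theorem tri_pot (x : Fin 3 × Fin n → ℝ) : (triConf n).pot x = LDT.pot x := rfl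

theorem tri_val (w : Edge n → ℝ) (t : Tri n) : (triConf n).val w t = LDT.wt w t := by
  unfold Conf.val triConf LDT.wt
  simp only [add_mul, ite_mul, one_mul, zero_mul, Finset.sum_add_distrib]
  simp

theorem tri_inner (s t : Tri n) : ∑ e, (triConf n).form s e * (triConf n).form t e =
    inner ℝ (LDT.ind s) (LDT.ind t) := by
  rw [LDT.inner_eq]
  rfl

theorem tri_nice (n : ℕ) : (triConf n).Nice (3 * n) where
  sq := fun τ => by rw [tri_inner]; exact LDT.ind_self τ
  ip := fun σ τ h => by rw [tri_inner]; exact LDT.ind_ne h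
  one := ⟨LDT.third, fun τ => by rw [tri_val]; exact LDT.wt_third τ⟩
  lam0 := by positivity
  sum := by
    intro v
    simp only [tri_val]
    exact sum_wt_sq v

theorem tri_card (n : ℕ) : Fintype.card (Tri n) = n ^ 3 := by
  rw [Fintype.card_prod, Fintype.card_prod, Fintype.card_fin]
  ring

/-- Exact Triangle: random decision trees with errors on both sides -/
theorem tri_final {ι β : Type} [Fintype ι] {p : ι → ℝ} (hp : ∀ i, 0 ≤ p i) (hp1 : ∑ i, p i = 1)
    (φ : β → Bool) (t : ι → Alg (triConf n) β) (hn1 : 1 ≤ n) {T q : ℝ}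
    (hy : ∀ w : Edge n → ℝ, (∀ s, 0 < LDT.wt w s) →
      2 / 3 ≤ ∑ i, p i * acc (φ ((t i).run w)) ∧
      ∑ i, p i * (t i).tests w ≤ T ∧ ∑ i, p i * (t i).smooths w ≤ q)
    (hn : ∀ (w : Edge n → ℝ) (τ : Tri n), LDT.wt w τ = 0 → (∀ s, s ≠ τ → 0 < LDT.wt w s) →
      ∑ i, p i * acc (φ ((t i).run w)) ≤ 1 / 3) :
    (n : ℝ) ^ 3 ≤ 5 * T + 115 * n ^ 2 * √(q * (3 * Real.log n + 5)) := by
  have hn0 : (0 : ℝ) < n := by exact_mod_cast hn1
  have h := final hp hp1 φ t (tri_nice n) (by rw [tri_card]; positivity) isOpen_univ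
    ⟨0, Set.mem_univ _⟩ (T := T) (q := q) (by
      intro x _ u hu
      filter_upwards [self_mem_nhdsWithin] with ε hε
      refine hy _ fun s => ?_
      rw [tri_pot, LDT.wt_add_smul]
      refine mul_pos hε ?_
      rw [← tri_val]
      exact hu s) (by
      intro x _ u τ hτ hu
      filter_upwards [self_mem_nhdsWithin] with ε hε
      refine hn _ τ ?_ ?_
      · rw [tri_pot, LDT.wt_add_smul, ← tri_val, hτ, mul_zero]
      · intro s hs
        rw [tri_pot, LDT.wt_add_smul]
        refine mul_pos hε ?_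
        rw [← tri_val]
        exact hu s hs)
  rw [tri_card] at h
  push_cast at h
  have hlog : Real.log ((n : ℝ) ^ 3) = 3 * Real.log n := by
    rw [Real.log_pow]
    norm_num
  rw [hlog] at h
  have hlog0 : 0 ≤ Real.log n := Real.log_natCast_nonneg n
  have hq0 : 0 ≤ q := by
    refine le_trans (sum_nonneg fun i _ => mul_nonneg (hp i) (Nat.cast_nonneg _))
      (hy LDT.third fun s => ?_).2.2
    rw [LDT.wt_third]
    exact one_pos
  have h1 : √((n : ℝ) ^ 3 * (3 * n) * q * (3 * Real.log n + 5)) =
      √3 * (n ^ 2 * √(q * (3 * Real.log n + 5))) := by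
    have e : (n : ℝ) ^ 3 * (3 * n) * q * (3 * Real.log n + 5) =
        3 * ((n ^ 2) ^ 2 * (q * (3 * Real.log n + 5))) := by ring
    rw [e, Real.sqrt_mul (by norm_num), Real.sqrt_mul (by positivity),
      Real.sqrt_sq (by positivity)]
  rw [h1] at h
  have h3 : 66 * √3 ≤ (115 : ℝ) := by
    have : √3 ≤ 115 / 66 := by
      rw [Real.sqrt_le_left (by norm_num)]
      norm_num
    linarith
  have h4 : 0 ≤ (n : ℝ) ^ 2 * √(q * (3 * Real.log n + 5)) := by positivity
  nlinarith

end Pool.Agent.N575.ZT
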